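import Mathlib
import Pool.Agent.H13.W.Graph
import Pool.Agent.H58.W.Coin

set_option autoImplicit false
open Finset

/-! # Room form of an in-plane world

The tiles of a world are those of a room `R` and those outside `O`. `reach_sup_iff`, `reach_pattern` : a
connection between ends depends on the strands of the room only through its link pattern on the ends of the
room (corners between `R` and `O`, the point `z`, far ends). `PB_room` : a coin model whose labels in the room
are independent of the other blocks is the average over the states `T` of the other blocks of the natural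
room with the fixed outside `T`. -/

namespace Pool.Agent.H29.W

open Pool.Agent.H75.Perc Pool.Agent.H75.TwoArm Pool.Agent.H99.W Pool.Agent.H13.W

/-! ### Union of two graphs -/

section graph

variable {α : Type*} {G1 G1' G2 G2' : SimpleGraph α} {S : Set α}

lemma exists_adj_of_reach {G : SimpleGraph α} {s x : α} (h : G.Reachable s x) (hne : s ≠ x) :
    ∃ a, G.Adj x a := by
  obtain ⟨p⟩ := h.symm
  cases p with
  | nil => exact absurd rfl hne
  | cons h _ => exact ⟨_, h⟩

/-- **Union of two graphs which meet in `S`.** -/
theorem reach_sup_iff (hS : ∀ v a b, G1.Adj v a → G2.Adj v b → v ∈ S) {x y : α} (hx : x ∈ S)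
    (hy : y ∈ S) : (G1 ⊔ G2).Reachable x y ↔
      Relation.ReflTransGen (fun a b => a ∈ S ∧ b ∈ S ∧ (G1.Reachable a b ∨ G2.Reachable a b)) x y := by
  constructor
  · intro h
    obtain ⟨p⟩ := h
    have key : ∀ (a b : α) (_ : (G1 ⊔ G2).Walk a b), b ∈ S → ∀ s ∈ S,
        (G1.Reachable s a ∨ G2.Reachable s a) → Relation.ReflTransGen
          (fun a b => a ∈ S ∧ b ∈ S ∧ (G1.Reachable a b ∨ G2.Reachable a b)) s b := by
      intro a b p
      induction p with
      | nil => exact fun hb s hs h => Relation.ReflTransGen.single ⟨hs, hb, h⟩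
      | @cons a c b hac _ ih =>
        intro hb s hs h
        rw [SimpleGraph.sup_adj] at hac
        rcases h with h | h
        · rcases hac with hac | hac
          · exact ih hb s hs (Or.inl (h.trans hac.reachable))
          · have ha : a ∈ S := by
              by_cases hsa : s = a
              · exact hsa ▸ hs
              · obtain ⟨d, hd⟩ := exists_adj_of_reach h hsa
                exact hS _ _ _ hd hac
            exact Relation.ReflTransGen.head ⟨hs, ha, Or.inl h⟩ (ih hb a ha (Or.inr hac.reachable))
        · rcases hac with hac | hac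
          · have ha : a ∈ S := by
              by_cases hsa : s = a
              · exact hsa ▸ hs
              · obtain ⟨d, hd⟩ := exists_adj_of_reach h hsa
                exact hS _ _ _ hac hd
            exact Relation.ReflTransGen.head ⟨hs, ha, Or.inr h⟩ (ih hb a ha (Or.inl hac.reachable))
          · exact ih hb s hs (Or.inr (h.trans hac.reachable))
    exact key x y p hy x hx (Or.inl (SimpleGraph.Reachable.refl _))
  · intro h
    induction h with
    | refl => exact SimpleGraph.Reachable.refl _
    | tail _ h ih =>
      refine (ih h.1).trans ?_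
      rcases h.2.2 with h | h
      · exact h.mono le_sup_left
      · exact h.mono le_sup_right

/-- **The connection depends only on the link patterns.** -/
theorem reach_pattern (hS : ∀ v a b, G1.Adj v a → G2.Adj v b → v ∈ S)
    (hS' : ∀ v a b, G1'.Adj v a → G2'.Adj v b → v ∈ S)
    (h1 : ∀ a ∈ S, ∀ b ∈ S, (G1.Reachable a b ↔ G1'.Reachable a b))
    (h2 : ∀ a ∈ S, ∀ b ∈ S, (G2.Reachable a b ↔ G2'.Reachable a b)) {x y : α} (hx : x ∈ S)
    (hy : y ∈ S) : (G1 ⊔ G2).Reachable x y ↔ (G1' ⊔ G2').Reachable x y := by
  rw [reach_sup_iff hS hx hy, reach_sup_iff hS' hx hy]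
  have e : (fun a b => a ∈ S ∧ b ∈ S ∧ (G1.Reachable a b ∨ G2.Reachable a b)) =
      (fun a b => a ∈ S ∧ b ∈ S ∧ (G1'.Reachable a b ∨ G2'.Reachable a b)) := by
    funext a b
    apply propext
    constructor
    · rintro ⟨ha, hb, h⟩
      exact ⟨ha, hb, h.imp (h1 a ha b hb).1 (h2 a ha b hb).1⟩
    · rintro ⟨ha, hb, h⟩
      exact ⟨ha, hb, h.imp (h1 a ha b hb).2 (h2 a ha b hb).2⟩
  rw [e]

end graph

/-! ### Strand graphs -/

variable {R O Λ D D' : Set (ℤ × ℤ)} {w w' : Finset (ℤ × ℤ)} {c d x y z : ℤ × ℤ}

/-- the tiles of a union -/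
theorem SG_union (R O D : Set (ℤ × ℤ)) (w : Finset (ℤ × ℤ)) :
    SG (R ∪ O) D w = SG R D w ⊔ SG O D w := by
  ext c d
  rw [SimpleGraph.sup_adj, SG_adj, SG_adj, SG_adj]
  constructor
  · rintro ⟨e, he | he, h⟩
    · exact Or.inl ⟨e, he, h⟩
    · exact Or.inr ⟨e, he, h⟩
  · rintro (⟨e, he, h⟩ | ⟨e, he, h⟩)
    · exact ⟨e, Or.inl he, h⟩
    · exact ⟨e, Or.inr he, h⟩

/-- the corners between the tiles of `R` and the tiles of `O` -/
def Btw (R O : Set (ℤ × ℤ)) : Set (ℤ × ℤ) := {c | (lab c ∈ R ∧ plab c ∈ O) ∨ (lab c ∈ O ∧ plab c ∈ R)}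

lemma btw_of {a b : ℤ × ℤ} (hd : Disjoint R O) (h1 : (SG R D w).Adj c a) (h2 : (SG O D' w').Adj c b) :
    c ∈ Btw R O := by
  obtain ⟨e, he, h⟩ := h1
  obtain ⟨e', he', h'⟩ := h2
  rcases h.label with l | l <;> rcases h'.label with l' | l'
  · exact absurd ((l'.trans l.symm) ▸ he' : e ∈ O) (Set.disjoint_left.1 hd he)
  · exact Or.inl ⟨l ▸ he, l' ▸ he'⟩
  · exact Or.inr ⟨l' ▸ he', l ▸ he⟩
  · exact absurd ((l'.trans l.symm) ▸ he' : e ∈ O) (Set.disjoint_left.1 hd he)

/-- **Room form, per configuration.** `S` contains the corners between the room and the outside and all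
ends in question. Two worlds with the same link pattern of the room and the same link pattern of the outside
have the same connections between the points of `S`. -/
theorem SG_pattern {S : Set (ℤ × ℤ)} (hd : Disjoint R O) (hS : Btw R O ⊆ S)
    (h1 : ∀ a ∈ S, ∀ b ∈ S, ((SG R D w).Reachable a b ↔ (SG R D' w').Reachable a b))
    (h2 : ∀ a ∈ S, ∀ b ∈ S, ((SG O D w).Reachable a b ↔ (SG O D' w').Reachable a b))
    (hx : x ∈ S) (hy : y ∈ S) :
    (SG (R ∪ O) D w).Reachable x y ↔ (SG (R ∪ O) D' w').Reachable x y := by
  rw [SG_union, SG_union]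
  exact reach_pattern (fun v a b ha hb => hS (btw_of hd ha hb))
    (fun v a b ha hb => hS (btw_of hd ha hb)) h1 h2 hx hy

open Classical in
/-- the link pattern of a graph on named points -/
def pat {N : Type*} (G : SimpleGraph (ℤ × ℤ)) (p : N → ℤ × ℤ) : N → N → Prop :=
  fun a b => G.Reachable (p a) (p b)

/-- the connection of two names in the gluing of two patterns -/
def Gl {N : Type*} (r θ : N → N → Prop) : N → N → Prop := Relation.ReflTransGen fun a b => r a b ∨ θ a b

/-- names of the interior point (`none`) and of the ends -/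
def nmz {N : Type*} (z : ℤ × ℤ) (p : N → ℤ × ℤ) : Option N → ℤ × ℤ
  | none => z
  | some a => p a

/-- the pattern of the outside does not see the interior point -/
def ext {N : Type*} (θ : N → N → Prop) : Option N → Option N → Prop
  | none, none => True
  | some a, some b => θ a b
  | _, _ => False

/-- **Room form with names.** `p` names the corners between the room and the outside and the far ends, `z` is
a corner which does not touch the outside. The connection from `z` to an end is a function of the pattern of
the room (with `z`) and the pattern of the outside (which does not see `z`). -/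
theorem reach_names {N : Type*} {p : N → ℤ × ℤ} (hd : Disjoint R O) (hp : Btw R O ⊆ Set.range p)
    (hz : lab z ∉ O ∧ plab z ∉ O) (hzp : z ∉ Set.range p) (a : N) :
    (SG (R ∪ O) D w).Reachable z (p a) ↔
      Gl (pat (SG R D w) (nmz z p)) (ext (pat (SG O D w) p)) none (some a) := by
  have hiso : ∀ y, ¬ (SG O D w).Adj z y := by
    rintro y ⟨e, he, h⟩
    rcases h.label with l | l
    · exact hz.1 (l ▸ he)
    · exact hz.2 (l ▸ he)
  have hzO : ∀ y, (SG O D w).Reachable z y → y = z := by
    rintro y ⟨q⟩
    cases q with
    | nil => rfl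
    | cons h _ => exact absurd h (hiso _)
  have hrange : Set.range (nmz z p) = insert z (Set.range p) := by
    ext c
    constructor
    · rintro ⟨a | a, rfl⟩
      · exact Or.inl rfl
      · exact Or.inr ⟨a, rfl⟩
    · rintro (rfl | ⟨a, rfl⟩)
      · exact ⟨none, rfl⟩
      · exact ⟨some a, rfl⟩
  rw [SG_union, reach_sup_iff (S := Set.range (nmz z p))
    (x := z) (y := p a)
    (fun v a b ha hb => by rw [hrange]; exact Or.inr (hp (btw_of hd ha hb))) ⟨none, rfl⟩ ⟨some a, rfl⟩]
  constructor
  · intro h
    have key : ∀ c c' : ℤ × ℤ, Relation.ReflTransGen (fun a b => a ∈ Set.range (nmz z p) ∧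
        b ∈ Set.range (nmz z p) ∧ ((SG R D w).Reachable a b ∨ (SG O D w).Reachable a b)) c c' →
        ∀ m m' : Option N, nmz z p m = c → nmz z p m' = c' →
        Gl (pat (SG R D w) (nmz z p)) (ext (pat (SG O D w) p)) m m' := by
      intro c c' h
      induction h with
      | refl =>
        intro m m' h1 h2
        exact Relation.ReflTransGen.single (Or.inl (by unfold pat; rw [h1, h2]))
      | @tail b1 b2 _ hs ih =>
        intro m m' h1 h2
        obtain ⟨⟨n, hn⟩, -, h3⟩ := hs
        refine (ih m n h1 hn).tail ?_
        rcases h3 with h3 | h3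
        · exact Or.inl (by unfold pat; rw [hn, h2]; exact h3)
        · -- outside
          cases n with
          | none =>
            have : z = b1 := hn
            rw [← this] at h3
            have h4 := hzO _ h3
            cases m' with
            | none => exact Or.inr trivial
            | some a' =>
              exfalso
              apply hzp
              exact ⟨a', by rw [← h4]; exact h2⟩
          | some a1 =>
            cases m' with
            | none =>
              exfalso
              have h5 : z = b2 := h2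
              rw [← h5] at h3
              have h4 := hzO _ h3.symm
              apply hzp
              exact ⟨a1, by rw [← h4]; exact hn⟩
            | some a' =>
              refine Or.inr ?_
              have h5 : p a1 = b1 := hn
              have h6 : p a' = b2 := h2
              show (SG O D w).Reachable (p a1) (p a')
              rw [h5, h6]
              exact h3
    exact key _ _ h none (some a) rfl rfl
  · intro h
    have key : ∀ m m' : Option N, Gl (pat (SG R D w) (nmz z p)) (ext (pat (SG O D w) p)) m m' →
        Relation.ReflTransGen (fun a b => a ∈ Set.range (nmz z p) ∧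
        b ∈ Set.range (nmz z p) ∧ ((SG R D w).Reachable a b ∨ (SG O D w).Reachable a b))
        (nmz z p m) (nmz z p m') := by
      intro m m' h
      induction h with
      | refl => exact Relation.ReflTransGen.refl
      | @tail b1 b2 _ hs ih =>
        refine ih.tail ⟨⟨b1, rfl⟩, ⟨b2, rfl⟩, ?_⟩
        rcases hs with hs | hs
        · exact Or.inl hs
        · cases b1 with
          | none =>
            cases b2 with
            | none => exact Or.inl (SimpleGraph.Reachable.refl _)
            | some _ => exact absurd hs id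
          | some _ =>
            cases b2 with
            | none => exact absurd hs id
            | some _ => exact Or.inr hs
    exact key _ _ h

/-- the strands of a room do not see the labels and deletions outside -/
lemma SG_room_congr (hD : ∀ e ∈ R, (e ∈ D ↔ e ∈ D')) (hw : ∀ e ∈ R, e ∉ D → (e ∈ w ↔ e ∈ w')) :
    SG R D w = SG R D' w' := SG_congr hD hw

/-! ### Coins -/

open Pool.Agent.H58.W

variable {α β : Type*} [DecidableEq α] [DecidableEq β]

/-- number of subsets, summed over the trace on `E2` -/
theorem Pr_union {E1 E2 : Finset β} (hd : Disjoint E1 E2) (A : Finset β → Prop) :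
    Pr (E1 ∪ E2) A = (∑ T ∈ E2.powerset, Pr E1 (fun ω => A (ω ∪ T))) / 2 ^ E2.card := by
  classical
  have e : ∀ T ∈ E2.powerset, Pr E1 (fun ω => A (ω ∪ T)) =
      ((E1.powerset.filter fun ω => A (ω ∪ T)).card : ℝ) / 2 ^ E1.card := fun T _ => Pr_eq _ _
  rw [sum_congr rfl e, ← sum_div, div_div, ← pow_add, ← card_union_of_disjoint hd, Pr_eq]
  congr 1
  rw [← Nat.cast_sum]
  congr 1
  rw [← card_sigma]
  symm
  apply card_nbij' (fun p => p.2 ∪ p.1) (fun ω => ⟨ω ∩ E2, ω ∩ E1⟩)
  · rintro ⟨T, ω⟩ h
    rw [mem_coe, mem_sigma, mem_powerset, mem_filter, mem_powerset] at h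
    rw [mem_coe, mem_filter, mem_powerset]
    exact ⟨union_subset_union h.2.1 h.1, h.2.2⟩
  · intro ω h
    rw [mem_coe, mem_filter, mem_powerset] at h
    rw [mem_coe, mem_sigma, mem_powerset, mem_filter, mem_powerset]
    refine ⟨inter_subset_right, inter_subset_right, ?_⟩
    have : ω ∩ E1 ∪ ω ∩ E2 = ω := by
      rw [← inter_union_distrib_left, inter_eq_left]; exact h.1
    simp only
    rw [this]; exact h.2
  · rintro ⟨T, ω⟩ h
    rw [mem_coe, mem_sigma, mem_powerset, mem_filter, mem_powerset] at h
    have h1 : (ω ∪ T) ∩ E2 = T := by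
      rw [union_inter_distrib_right, (disjoint_iff_inter_eq_empty.1 (hd.mono_left h.2.1)), empty_union,
        inter_eq_left]
      exact h.1
    have h2 : (ω ∪ T) ∩ E1 = ω := by
      rw [union_inter_distrib_right, (disjoint_iff_inter_eq_empty.1 (hd.symm.mono_left h.1)),
        union_empty, inter_eq_left]
      exact h.2.1
    simp only
    rw [h1, h2]
  · intro ω h
    rw [mem_coe, mem_filter, mem_powerset] at h
    simp only
    rw [← inter_union_distrib_left, inter_eq_left]; exact h.1

/-- **Coins: the room and the other blocks.** -/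
theorem PB_union {E1 E2 : Finset α} {b : α → β} (hs : Sep b E1 E2) (A : Finset α → Prop) :
    PB (E1 ∪ E2) b A = (∑ T ∈ (E2.image b).powerset,
      PB E1 b (fun ω => A (ω ∪ Pool.Agent.H58.W.up E2 b T))) / 2 ^ (E2.image b).card := by
  classical
  unfold PB
  rw [image_union, Pr_union hs.disj]
  congr 1
  apply sum_congr rfl
  intro T hT
  rw [mem_powerset] at hT
  apply Pr_congr
  intro ω hω
  have : Pool.Agent.H58.W.up (E1 ∪ E2) b (ω ∪ T) =
      Pool.Agent.H58.W.up E1 b ω ∪ Pool.Agent.H58.W.up E2 b T := by
    ext l
    rw [mem_up, mem_union, mem_union, mem_union, mem_up, mem_up]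
    constructor
    · rintro ⟨h1 | h1, h2 | h2⟩
      · exact Or.inl ⟨h1, h2⟩
      · exact absurd (hT h2) (disjoint_left.1 hs.disj (mem_image_of_mem _ h1))
      · exact absurd (mem_image_of_mem _ h1) (disjoint_left.1 hs.disj (hω h2))
      · exact Or.inr ⟨h1, h2⟩
    · rintro (⟨h1, h2⟩ | ⟨h1, h2⟩)
      · exact ⟨Or.inl h1, Or.inl h2⟩
      · exact ⟨Or.inr h1, Or.inr h2⟩
  rw [this]

/-- the value of a world: `∑ v j * P (z is joined to x j)` -/
noncomputable def hval {ι : Type*} (s : Finset ι) (v : ι → ℂ) (p : ι → ℝ) : ℂ :=
  ∑ j ∈ s, v j * (p j : ℂ)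

/-- **Room form of the value.** The labels `E1` of the room are natural (`b` injective on `E1`), the blocks
of `E2` are the other coins. -/
theorem hval_room {ι : Type*} (s : Finset ι) (v : ι → ℂ) {E1 E2 : Finset α} {b : α → β}
    (hs : Sep b E1 E2) (hb : ∀ l ∈ E1, ∀ l' ∈ E1, b l = b l' → l = l') (A : ι → Finset α → Prop) :
    hval s v (fun j => PB (E1 ∪ E2) b (A j)) = (∑ T ∈ (E2.image b).powerset,
      hval s v (fun j => Pr E1 (fun ω => A j (ω ∪ Pool.Agent.H58.W.up E2 b T)))) /
        2 ^ (E2.image b).card := by
  classical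
  unfold hval
  rw [sum_comm, sum_div]
  apply sum_congr rfl
  intro j _
  beta_reduce
  rw [PB_union hs, ← mul_sum, mul_div_assoc]
  congr 1
  push_cast
  congr 1
  apply sum_congr rfl
  intro T _
  rw [PB_inj hb]

end Pool.Agent.H29.W
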