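import Mathlib
import Pool.Agent.H61.W.WSum
import Pool.Agent.H29.W.RoomG

set_option autoImplicit false
open Filter Topology Set

/-! # Room form: grouping and the limit

`hval_room_group` : the sum over the states `T` of the other blocks, grouped by a class `κ T` of a fixed finite
type (colours of the own plates and link pattern of the outside). `room_lim` : if in every class the box
averages converge to a holomorphic function, the same holds for the average over the classes, whatever the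
weights of the classes are. -/

namespace Pool.Agent.H29.W

open Pool.Agent.Q1.M4 (lat)
open Pool.Agent.H44.W (WLim)
open Pool.Agent.H61.W
open Pool.Agent.H75.Perc (Pr)
open Pool.Agent.H58.W (PB Sep)

/-- grouping of a mean -/
theorem mean_group {τ Θ : Type*} [Fintype Θ] [DecidableEq Θ] (s : Finset τ) (κ : τ → Θ) (f : τ → ℂ)
    (H : Θ → ℂ) (h : ∀ T ∈ s, f T = H (κ T)) (m : ℂ) :
    (∑ T ∈ s, f T) / m = ∑ θ : Θ, (((s.filter fun T => κ T = θ).card : ℂ) / m) * H θ := by
  classical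
  rw [← Finset.sum_fiberwise s κ f, Finset.sum_div]
  apply Finset.sum_congr rfl
  intro θ _
  rw [Finset.sum_congr rfl (g := fun _ => H θ) (fun T hT => by
    rw [Finset.mem_filter] at hT; rw [h T hT.1, hT.2]), Finset.sum_const, nsmul_eq_mul]
  ring

/-- the weight of a class -/
noncomputable def wt {β Θ : Type*} [DecidableEq Θ] (B : Finset β) (κ : Finset β → Θ) (θ : Θ) : ℝ :=
  ((B.powerset.filter fun T => κ T = θ).card : ℝ) / 2 ^ B.card

lemma wt_nonneg {β Θ : Type*} [DecidableEq Θ] (B : Finset β) (κ : Finset β → Θ) (θ : Θ) :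
    0 ≤ wt B κ θ := by unfold wt; positivity

lemma wt_le_one {β Θ : Type*} [DecidableEq Θ] (B : Finset β) (κ : Finset β → Θ) (θ : Θ) :
    wt B κ θ ≤ 1 := by
  unfold wt
  rw [div_le_one (by positivity)]
  have := Finset.card_filter_le B.powerset (fun T => κ T = θ)
  rw [Finset.card_powerset] at this
  exact_mod_cast this

/-- **Room form with classes.** -/
theorem hval_room_group {α β ι Θ : Type*} [DecidableEq α] [DecidableEq β] [Fintype Θ] [DecidableEq Θ]
    (s : Finset ι) (v : ι → ℂ) {E1 E2 : Finset α} {b : α → β} (hs : Sep b E1 E2)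
    (hb : ∀ l ∈ E1, ∀ l' ∈ E1, b l = b l' → l = l') (A : ι → Finset α → Prop)
    (κ : Finset β → Θ) (H : Θ → ℂ)
    (h : ∀ T ⊆ E2.image b,
      hval s v (fun j => Pr E1 (fun ω => A j (ω ∪ Pool.Agent.H58.W.up E2 b T))) = H (κ T)) :
    hval s v (fun j => PB (E1 ∪ E2) b (A j)) = ∑ θ : Θ, (wt (E2.image b) κ θ : ℂ) * H θ := by
  rw [hval_room s v hs hb A, mean_group _ κ _ H (fun T hT => h T (Finset.mem_powerset.1 hT))]
  unfold wt
  push_cast
  rfl

/-- **Limit of the room form.** -/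
theorem room_lim {Θ : Type*} [Fintype Θ] {R : ℕ → ℝ} {F : Ultrafilter ℕ}
    (hR : Tendsto R F atTop) {Ω : Set ℂ} (hΩ : IsOpen Ω) {h : ℕ → ℤ × ℤ → ℂ}
    {H : Θ → ℕ → ℤ × ℤ → ℂ} {μ : ℕ → Θ → ℝ} {M : ℝ} (hμ0 : ∀ n θ, 0 ≤ μ n θ) (hμ1 : ∀ n θ, μ n θ ≤ 1)
    (hM : ∀ θ n v, ‖H θ n v‖ ≤ M)
    (hsum : ∀ K ⊆ Ω, IsCompact K → ∀ᶠ n in (F : Filter ℕ), ∀ v : ℤ × ℤ, lat v / (R n : ℂ) ∈ K →
      h n v = ∑ θ : Θ, (μ n θ : ℂ) * H θ n v)
    (hS : ∀ θ, ∃ g : ℂ → ℂ, DifferentiableOn ℂ g Ω ∧ WLim R F Ω (H θ) g) :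
    ∃ g : ℂ → ℂ, DifferentiableOn ℂ g Ω ∧ WLim R F Ω h g := by
  classical
  choose g hg hW using hS
  have hlim : ∀ θ, ∃ m : ℝ, Tendsto (fun n => μ n θ) F (𝓝 m) := by
    intro θ
    have hc : IsCompact (Icc (0 : ℝ) 1) := isCompact_Icc
    obtain ⟨m, -, hm⟩ := hc.ultrafilter_le_nhds (F.map fun n : ℕ => μ n θ) (by
      rw [Ultrafilter.coe_map, le_principal_iff]
      exact Filter.mem_map.2 (Filter.univ_mem' fun n => ⟨hμ0 n θ, hμ1 n θ⟩))
    exact ⟨m, hm⟩
  choose m hm using hlim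
  refine ⟨fun z => ∑ θ : Θ, (m θ : ℂ) * g θ z, ?_, ?_⟩
  · exact DifferentiableOn.fun_sum fun θ _ => (hg θ).const_mul _
  · refine WLim.congr_small hR hΩ (WLim.sum Finset.univ (fun θ => (m θ : ℂ)) (fun θ _ => hW θ)) ?_
    intro K hK hKc ε hε
    have hM0 : 0 ≤ |M| := abs_nonneg M
    have h1 : ∀ θ : Θ, ∀ᶠ n in (F : Filter ℕ), |μ n θ - m θ| ≤
        ε / ((Fintype.card Θ + 1) * (|M| + 1)) := by
      intro θ
      have := (hm θ).eventually (Metric.ball_mem_nhds (m θ)
        (show 0 < ε / ((Fintype.card Θ + 1) * (|M| + 1)) by positivity))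
      filter_upwards [this] with n hn
      rw [Real.dist_eq] at hn
      exact hn.le
    filter_upwards [hsum K hK hKc, Filter.eventually_all.2 h1] with n hn hn' v hv
    rw [hn v hv, ← Finset.sum_sub_distrib]
    have hc0 : (0 : ℝ) < (Fintype.card Θ + 1) * (|M| + 1) := by positivity
    calc ‖∑ θ : Θ, ((m θ : ℂ) * H θ n v - (μ n θ : ℂ) * H θ n v)‖
        ≤ ∑ θ : Θ, ‖(m θ : ℂ) * H θ n v - (μ n θ : ℂ) * H θ n v‖ := norm_sum_le _ _
      _ ≤ ∑ θ : Θ, ε / ((Fintype.card Θ + 1) * (|M| + 1)) * (|M| + 1) := by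
          apply Finset.sum_le_sum
          intro θ _
          rw [← sub_mul, norm_mul, ← Complex.ofReal_sub, Complex.norm_real, Real.norm_eq_abs,
            abs_sub_comm]
          exact mul_le_mul (hn' θ) ((hM θ n v).trans ((le_abs_self M).trans (by linarith)))
            (norm_nonneg _) (by positivity)
      _ = Fintype.card Θ * (ε / ((Fintype.card Θ + 1) * (|M| + 1)) * (|M| + 1)) := by
          rw [Finset.sum_const, Finset.card_univ, nsmul_eq_mul]
      _ ≤ ε := by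
          have e1 : ε / ((Fintype.card Θ + 1) * (|M| + 1)) * (|M| + 1) = ε / (Fintype.card Θ + 1) := by
            field_simp
          rw [e1, ← mul_div_assoc, div_le_iff₀ (by positivity)]
          nlinarith

end Pool.Agent.H29.W
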