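import Mathlib
import Pool.Agent.H20.W.SDef

set_option autoImplicit false
open Finset

/-! # Walls and corners of a room

Tile coordinates of the room of coarse data `C` at scale `n`. `col_h`, `col_v` : neighbouring wall tiles of
the room graph have the same colour (except across the exit). `cor_BL`, `cor_TL`, `cor_SE`, `cor_NE` : the
convex corners of the room are helper20's corners `k`, with the colours `col C c0 k`, `col C c0 (k + 1)` of the
two walls. -/

namespace Pool.Agent.H29.W

open Pool.Agent.H54.W (CD)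
open Pool.Agent.H21.W Pool.Agent.H20.W

section

variable {C : CD} {n : ℤ} {cr : ℤ → Bool} {x y x0 r : ℤ}

/-! ### Rows -/

lemma a_lt (hn : 0 < n) (h0 : 0 ≤ y) (h1 : y < n * C.H) : n * C.A (y / n) + n ≤ n * C.W := by
  have hr := Pool.Agent.H54.W.CD.row_of (C := C) hn h0 h1
  exact Pool.Agent.H54.W.CD.mul_lt hn (C.AW _ hr.1 hr.2)

lemma nH_pos (hn : 0 < n) : n ≤ n * C.H := by
  have := C.H0
  nlinarith

/-- two rows: the same left end and the same colour, or a jump -/
lemma jump (hn : 8 ≤ n) (h0 : 0 ≤ y) (h1 : y + 1 < n * C.H) :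
    (n * C.A (y / n) = n * C.A ((y + 1) / n) ∧ C.CL (y / n) = C.CL ((y + 1) / n)) ∨
    ∃ Y : ℤ, y + 1 = n * Y ∧ 0 < Y ∧ Y < C.H ∧ y / n = Y - 1 ∧ (y + 1) / n = Y ∧
      (y - 1) / n = Y - 1 ∧ (y + 2) / n = Y ∧ C.A (Y - 1) ≠ C.A Y := by
  have hp : 0 < n := by omega
  have hr := Pool.Agent.H54.W.CD.row_of (C := C) hp (show 0 ≤ y + 1 by omega) h1
  rcases Pool.Agent.H54.W.CD.div_succ hp y with ⟨k1, k2, k3⟩ | ⟨k1, k2, k3⟩
  · left; rw [k2]; exact ⟨rfl, rfl⟩
  · have e1 := Int.emod_add_mul_ediv (y + 1) n
    rw [k3, zero_add] at e1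
    have h2 := Int.ediv_nonneg h0 hp.le
    by_cases hA : C.A ((y + 1) / n - 1) = C.A ((y + 1) / n)
    · left
      have e2 : y / n = (y + 1) / n - 1 := by omega
      rw [e2, hA]
      refine ⟨rfl, ?_⟩
      have h3 := C.sc ((y + 1) / n - 1) (by omega) (by omega) (by rw [sub_add_cancel]; exact hA)
      rwa [sub_add_cancel] at h3
    · right
      refine ⟨(y + 1) / n, e1.symm, by omega, hr.2, by omega, rfl, ?_, ?_, hA⟩
      · rw [Int.ediv_eq_iff_of_pos hp]
        constructor <;> nlinarith
      · rw [Int.ediv_eq_iff_of_pos hp]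
        constructor <;> nlinarith

/-! ### Colours -/

lemma fill_bot (h : y < 0) : fillC C n cr x y = C.CB := if_pos h

lemma fill_top (hn : 0 < n) (h : n * C.H ≤ y) : fillC C n cr x y = C.CT := by
  have := nH_pos (C := C) hn
  unfold fillC
  rw [if_neg (by omega), if_pos h]

lemma fill_left (h0 : 0 ≤ y) (h1 : y < n * C.H) (h : x < n * C.A (y / n)) :
    fillC C n cr x y = C.CL (y / n) := by
  unfold fillC
  rw [if_neg (by omega), if_neg (by omega), if_pos h]

lemma fill_right (h0 : 0 ≤ y) (h1 : y < n * C.H) (h : n * C.A (y / n) ≤ x) :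
    fillC C n cr x y = cr y := by
  unfold fillC
  rw [if_neg (by omega), if_neg (by omega), if_neg (by omega)]

/-- horizontal neighbours outside of the room have the same colour -/
lemma col_h (hn : 0 < n) (h2 : ¬ RP C n (x + 1) y) :
    fillC C n cr x y = fillC C n cr (x + 1) y := by
  unfold RP at h2
  rcases lt_or_ge y 0 with h | h
  · rw [fill_bot h, fill_bot h]
  · rcases lt_or_ge y (n * C.H) with h' | h'
    · have ha := a_lt (C := C) hn h h'
      by_cases hx : x + 1 < n * C.A (y / n)
      · rw [fill_left h h' (by omega), fill_left h h' hx]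
      · rw [fill_right h h' (by omega), fill_right h h' (by omega)]
    · rw [fill_top hn h', fill_top hn h']

/-- a wall tile of the room graph without a room tile at its sides is diagonal -/
lemma dg_of (h : RT C n cr x y) (h0 : ¬ RP C n x y) (h1 : ¬ RP C n (x + 1) y)
    (h2 : ¬ RP C n (x - 1) y) (h3 : ¬ RP C n x (y + 1)) (h4 : ¬ RP C n x (y - 1)) :
    ∃ i j : ℤ, (i = 1 ∨ i = -1) ∧ (j = 1 ∨ j = -1) ∧ RP C n (x + i) (y + j) ∧
      fillC C n cr (x + i) y = false ∧ fillC C n cr x (y + j) = false := by
  rcases h with h | h | h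
  · exact absurd h h0
  · rcases h.2 with h | h | h | h
    · exact absurd h h1
    · exact absurd h h2
    · exact absurd h h3
    · exact absurd h h4
  · exact h.2.2

/-- **vertical neighbours in the wall have the same colour** -/
lemma col_v (hn : 8 ≤ n) (t1 : RT C n cr x y) (t2 : RT C n cr x (y + 1)) (h1 : ¬ RP C n x y)
    (h2 : ¬ RP C n x (y + 1)) (hc : 0 ≤ y → y + 1 < n * C.H → x = n * C.W → cr y = cr (y + 1)) :
    fillC C n cr x y = fillC C n cr x (y + 1) := by
  have hp : 0 < n := by omega
  have hH := nH_pos (C := C) hp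
  have b1 := t1.box hp
  have b2 := t2.box hp
  rcases eq_or_lt_of_le b1.1 with hy | hy
  · -- the floor
    subst hy
    obtain ⟨i, j, hi, hj, k1, k2, k3⟩ := dg_of t1 h1 (fun h => by have := h.1; omega)
      (fun h => by have := h.1; omega) h2 (fun h => by have := h.1; omega)
    have hj1 : j = 1 := by have := k1.1; omega
    subst hj1
    rw [k3, fill_bot (by omega), ← fill_bot (C := C) (n := n) (cr := cr) (x := x + i) (y := -1) (by omega),
      k2]
  rcases lt_or_ge (y + 1) (n * C.H) with hy' | hy'
  · rcases lt_or_ge x (n * C.W) with hx | hx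
    · rcases jump (C := C) hn (by omega) hy' with ⟨j1, j2⟩ | ⟨Y, j1, j2, j3, j4, j5, j6, j7, j8⟩
      · have hx1 : x < n * C.A (y / n) := by unfold RP at h1; omega
        have hx2 : x < n * C.A ((y + 1) / n) := by omega
        rw [fill_left (by omega) (by omega) hx1, fill_left (by omega) (by omega) hx2, j2]
      · have hx1 : x < n * C.A (Y - 1) := by unfold RP at h1; rw [j4] at h1; omega
        have hx2 : x < n * C.A Y := by unfold RP at h2; rw [j5] at h2; omega
        have f1 : fillC C n cr x y = C.CL (Y - 1) := by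
          rw [fill_left (by omega) (by omega) (by rw [j4]; exact hx1), j4]
        have f2 : fillC C n cr x (y + 1) = C.CL Y := by
          rw [fill_left (by omega) hy' (by rw [j5]; exact hx2), j5]
        rcases lt_or_gt_of_ne j8 with h8 | h8
        · -- rise
          have hA := Pool.Agent.H54.W.CD.mul_lt hp h8
          have n1 : ¬ RP C n (x + 1) (y + 1) := by unfold RP; rw [j5]; omega
          have n2 : ¬ RP C n (x - 1) (y + 1) := by unfold RP; rw [j5]; omega
          have n3 : ¬ RP C n x (y + 1 + 1) := by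
            unfold RP
            have e : y + 1 + 1 = y + 2 := by ring
            rw [e, j7]; omega
          have n4 : ¬ RP C n x (y + 1 - 1) := by rw [add_sub_cancel_right]; exact h1
          obtain ⟨i, j, hi, hj, k1, k2, k3⟩ := dg_of t2 h2 n1 n2 n3 n4
          have hj1 : j = -1 := by
            rcases hj with rfl | rfl
            · exfalso
              unfold RP at k1
              have e : y + 1 + 1 = y + 2 := by ring
              rw [e, j7] at k1
              omega
            · rfl
          subst hj1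
          have e : y + 1 + -1 = y := by ring
          rw [e] at k1 k3
          have k4 : fillC C n cr (x + i) (y + 1) = C.CL Y := by
            rw [fill_left (by omega) hy' (by rw [j5]; unfold RP at k1; omega), j5]
          rw [k3, f2, ← k4, k2]
        · -- drop
          have hA := Pool.Agent.H54.W.CD.mul_lt hp h8
          have n1 : ¬ RP C n (x + 1) y := by unfold RP; rw [j4]; omega
          have n2 : ¬ RP C n (x - 1) y := by unfold RP; rw [j4]; omega
          have n4 : ¬ RP C n x (y - 1) := by unfold RP; rw [j6]; omega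
          obtain ⟨i, j, hi, hj, k1, k2, k3⟩ := dg_of t1 h1 n1 n2 h2 n4
          have hj1 : j = 1 := by
            rcases hj with rfl | rfl
            · rfl
            · exfalso
              unfold RP at k1
              have e : y + -1 = y - 1 := by ring
              rw [e, j6] at k1
              omega
          subst hj1
          have k4 : fillC C n cr (x + i) y = C.CL (Y - 1) := by
            rw [fill_left (by omega) (by omega) (by rw [j4]; unfold RP at k1; omega), j4]
          rw [k3, f1, ← k4, k2]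
    · have ha1 := a_lt (C := C) hp (show 0 ≤ y by omega) (by omega)
      have ha2 := a_lt (C := C) hp (show 0 ≤ y + 1 by omega) hy'
      rw [fill_right (by omega) (by omega) (by omega), fill_right (by omega) hy' (by omega)]
      exact hc (by omega) hy' (by omega)
  · -- the ceiling
    obtain ⟨i, j, hi, hj, k1, k2, k3⟩ := dg_of t2 h2 (fun h => by have := h.2.1; omega)
      (fun h => by have := h.2.1; omega) (fun h => by have := h.2.1; omega)
      (by rw [add_sub_cancel_right]; exact h1)
    have hj1 : j = -1 := by have := k1.2.1; omega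
    subst hj1
    have e : y + 1 + -1 = y := by ring
    rw [e] at k3
    rw [k3, fill_top hp hy', ← fill_top (C := C) (cr := cr) (x := x + i) hp hy', k2]

/-! ### Local pictures of the convex corners -/

/-- lower left corners -/
def BLk (C : CD) (k : ℤ) : Prop := k = 0 ∨ (0 < k ∧ k < C.H ∧ C.A k < C.A (k - 1))

/-- upper left corners -/
def TLk (C : CD) (k : ℤ) : Prop := k = C.H ∨ (0 < k ∧ k < C.H ∧ C.A (k - 1) < C.A k)

variable {k i j : ℤ}

lemma div_at (hn : 8 ≤ n) {t : ℤ} (h1 : n * k ≤ t) (h2 : t < n * k + n) : t / n = k := by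
  rw [Int.ediv_eq_iff_of_pos (by omega)]
  constructor <;> nlinarith

lemma mul_pred (n k : ℤ) : n * (k - 1) = n * k - n := by ring

lemma loc_BL (hn : 8 ≤ n) (h : BLk C k) : ∀ x y, n * C.A k - 2 ≤ x → x ≤ n * C.A k + 1 →
    n * k - 2 ≤ y → y ≤ n * k + 1 → (RP C n x y ↔ n * C.A k ≤ x ∧ n * k ≤ y) := by
  intro x y h1 h2 h3 h4
  have hp : 0 < n := by omega
  have hk : 0 ≤ k ∧ k < C.H := by
    have := C.H0
    rcases h with h | h <;> omega
  have hH := Pool.Agent.H54.W.CD.mul_lt hp hk.2
  have hW := Pool.Agent.H54.W.CD.mul_lt hp (C.AW k hk.1 hk.2)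
  unfold RP
  rcases lt_or_ge y (n * k) with hy | hy
  · rcases h with rfl | ⟨g1, g2, g3⟩
    · constructor
      · intro g; omega
      · intro g; omega
    · have e : y / n = k - 1 := div_at hn (by rw [mul_pred]; omega) (by rw [mul_pred]; omega)
      have := Pool.Agent.H54.W.CD.mul_lt hp g3
      rw [e]
      constructor
      · intro g; omega
      · intro g; omega
  · have e : y / n = k := div_at hn hy (by omega)
    have : 0 ≤ n * k := by nlinarith
    rw [e]
    constructor
    · intro g; omega
    · intro g; omega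

lemma loc_TL (hn : 8 ≤ n) (h : TLk C k) : ∀ x y, n * C.A (k - 1) - 2 ≤ x →
    x ≤ n * C.A (k - 1) + 1 → n * k - 2 ≤ y → y ≤ n * k + 1 →
    (RP C n x y ↔ n * C.A (k - 1) ≤ x ∧ y < n * k) := by
  intro x y h1 h2 h3 h4
  have hp : 0 < n := by omega
  have hk : 0 < k ∧ k ≤ C.H := by
    have := C.H0
    rcases h with h | h <;> omega
  have hH : n * k ≤ n * C.H := by nlinarith [hk.2]
  have hW := Pool.Agent.H54.W.CD.mul_lt hp (C.AW (k - 1) (by omega) (by omega))
  have hk2 : n ≤ n * k := by nlinarith [hk.1]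
  unfold RP
  rcases lt_or_ge y (n * k) with hy | hy
  · have e : y / n = k - 1 := div_at hn (by rw [mul_pred]; omega) (by rw [mul_pred]; omega)
    rw [e]
    constructor
    · intro g; omega
    · intro g; omega
  · rcases h with rfl | ⟨g1, g2, g3⟩
    · constructor
      · intro g; omega
      · intro g; omega
    · have e : y / n = k := div_at hn hy (by omega)
      have := Pool.Agent.H54.W.CD.mul_lt hp g3
      rw [e]
      constructor
      · intro g; omega
      · intro g; omega

lemma loc_SE (hn : 8 ≤ n) : ∀ x y, n * C.W - 2 ≤ x → x ≤ n * C.W + 1 →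
    -2 ≤ y → y ≤ 1 → (RP C n x y ↔ x < n * C.W ∧ 0 ≤ y) := by
  intro x y h1 h2 h3 h4
  have hp : 0 < n := by omega
  have hH := nH_pos (C := C) hp
  have hW := Pool.Agent.H54.W.CD.mul_lt hp (C.AW 0 le_rfl C.H0)
  unfold RP
  rcases lt_or_ge y 0 with hy | hy
  · constructor
    · intro g; omega
    · intro g; omega
  · have e : y / n = 0 := div_at hn (by omega) (by omega)
    rw [e]
    constructor
    · intro g; omega
    · intro g; omega

lemma loc_NE (hn : 8 ≤ n) : ∀ x y, n * C.W - 2 ≤ x → x ≤ n * C.W + 1 →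
    n * C.H - 2 ≤ y → y ≤ n * C.H + 1 → (RP C n x y ↔ x < n * C.W ∧ y < n * C.H) := by
  intro x y h1 h2 h3 h4
  have hp : 0 < n := by omega
  have hH := nH_pos (C := C) hp
  have hH0 := C.H0
  have hW := Pool.Agent.H54.W.CD.mul_lt hp (C.AW (C.H - 1) (by omega) (by omega))
  unfold RP
  rcases lt_or_ge y (n * C.H) with hy | hy
  · have e : y / n = C.H - 1 := div_at hn (by rw [mul_pred]; omega) (by rw [mul_pred]; omega)
    rw [e]
    constructor
    · intro g; omega
    · intro g; omega
  · constructor
    · intro g; omega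
    · intro g; omega

/-! ### Every convex corner is in the list -/

lemma cor_BL (hn : 8 ≤ n) (h : RP C n i j) (h1 : ¬ RP C n (i - 1) j) (h2 : ¬ RP C n i (j - 1)) :
    ∃ k, BLk C k ∧ i = n * C.A k ∧ j = n * k := by
  have hp : 0 < n := by omega
  have hb := h
  unfold RP at h h1 h2
  rcases eq_or_lt_of_le h.1 with h0 | h0
  · refine ⟨0, Or.inl rfl, ?_, by omega⟩
    have e : j / n = 0 := by rw [← h0]; exact Int.zero_ediv n
    rw [e] at h h1
    omega
  · rcases jump (C := C) hn (show 0 ≤ j - 1 by omega) (by omega) with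
      ⟨j1, -⟩ | ⟨Y, j1, j2, j3, j4, j5, j6, j7, j8⟩
    · rw [sub_add_cancel] at j1
      omega
    · rw [sub_add_cancel] at j1 j5
      refine ⟨Y, Or.inr ⟨j2, j3, ?_⟩, ?_, j1⟩
      · rw [j4] at h2
        rw [j5] at h
        by_contra hc
        have := Pool.Agent.H54.W.CD.mul_lt hp (lt_of_le_of_ne (not_lt.1 hc) j8)
        omega
      · rw [j5] at h h1
        omega

lemma cor_TL (hn : 8 ≤ n) (h : RP C n i (j - 1)) (h1 : ¬ RP C n (i - 1) (j - 1))
    (h2 : ¬ RP C n i j) : ∃ k, TLk C k ∧ i = n * C.A (k - 1) ∧ j = n * k := by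
  have hp : 0 < n := by omega
  unfold RP at h h1 h2
  rcases eq_or_lt_of_le (show j ≤ n * C.H by omega) with h0 | h0
  · refine ⟨C.H, Or.inl rfl, ?_, h0⟩
    have e : (j - 1) / n = C.H - 1 := div_at hn (by rw [mul_pred]; omega) (by rw [mul_pred]; omega)
    rw [e] at h h1
    omega
  · rcases jump (C := C) hn h.1 (by omega) with
      ⟨j1, -⟩ | ⟨Y, j1, j2, j3, j4, j5, j6, j7, j8⟩
    · rw [sub_add_cancel] at j1
      omega
    · rw [sub_add_cancel] at j1 j5
      refine ⟨Y, Or.inr ⟨j2, j3, ?_⟩, ?_, j1⟩
      · rw [j4] at h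
        rw [j5] at h2
        by_contra hc
        have := Pool.Agent.H54.W.CD.mul_lt hp (lt_of_le_of_ne (not_lt.1 hc) j8.symm)
        omega
      · rw [j4] at h h1
        omega

lemma cor_SE (hn : 8 ≤ n) (h : RP C n (i - 1) j) (h1 : ¬ RP C n i j)
    (h2 : ¬ RP C n (i - 1) (j - 1)) : i = n * C.W ∧ j = 0 := by
  have hp : 0 < n := by omega
  have ha := a_lt (C := C) hp h.1 h.2.1
  unfold RP at h h1 h2
  have hi : i = n * C.W := by omega
  refine ⟨hi, ?_⟩
  by_contra hj
  have hb := a_lt (C := C) hp (show 0 ≤ j - 1 by omega) (by omega)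
  omega

lemma cor_NE (hn : 8 ≤ n) (h : RP C n (i - 1) (j - 1)) (h1 : ¬ RP C n i (j - 1))
    (h2 : ¬ RP C n (i - 1) j) : i = n * C.W ∧ j = n * C.H := by
  have hp : 0 < n := by omega
  have ha := a_lt (C := C) hp h.1 h.2.1
  unfold RP at h h1 h2
  have hi : i = n * C.W := by omega
  refine ⟨hi, ?_⟩
  by_contra hj
  have hb := a_lt (C := C) hp (show 0 ≤ j by omega) (by omega)
  omega

/-! ### The list of helper20 -/

variable {c0 : Bool}

lemma qBL (h : BLk C k) : -1 ≤ k ∧ k ≤ C.H + 1 ∧ qx C k = C.A k ∧ qy C k = k := by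
  have := C.H0
  unfold qx qy
  rcases h with rfl | ⟨h1, h2, h3⟩
  · refine ⟨by omega, by omega, ?_, ?_⟩
    · rw [if_neg (by omega), if_pos rfl]
    · rw [if_neg (by omega), if_neg (by omega)]
  · refine ⟨by omega, by omega, ?_, ?_⟩
    · rw [if_neg (by omega), if_neg (by omega), if_neg (by omega), min_eq_right h3.le]
    · rw [if_neg (by omega), if_neg (by omega)]

lemma qTL (h : TLk C k) : -1 ≤ k ∧ k ≤ C.H + 1 ∧ qx C k = C.A (k - 1) ∧ qy C k = k := by
  have := C.H0
  unfold qx qy
  rcases h with rfl | ⟨h1, h2, h3⟩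
  · refine ⟨by omega, by omega, ?_, ?_⟩
    · rw [if_neg (by omega), if_neg (by omega), if_pos rfl]
    · rw [if_neg (by omega), if_neg (by omega)]
  · refine ⟨by omega, by omega, ?_, ?_⟩
    · rw [if_neg (by omega), if_neg (by omega), if_neg (by omega), min_eq_left h3.le]
    · rw [if_neg (by omega), if_neg (by omega)]

lemma qSE : qx C (-1) = C.W ∧ qy C (-1) = 0 := by
  unfold qx qy
  simp

lemma qNE : qx C (C.H + 1) = C.W ∧ qy C (C.H + 1) = C.H := by
  have := C.H0
  unfold qx qy
  rw [if_pos (Or.inr (by omega)), if_neg (by omega), if_pos (by omega)]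
  exact ⟨rfl, rfl⟩

lemma fBL (hn : 8 ≤ n) (h : BLk C k) : fillC C n cr (n * C.A k) (n * k - 1) = col C c0 k ∧
    fillC C n cr (n * C.A k - 1) (n * k) = col C c0 (k + 1) ∧
    wd C c0 k = if col C c0 k = false then 1 else 3 := by
  have hp : 0 < n := by omega
  have hH0 := C.H0
  have hH := nH_pos (C := C) hp
  have hk : 0 ≤ k ∧ k < C.H := by rcases h with h | h <;> omega
  have hH1 := Pool.Agent.H54.W.CD.mul_lt hp hk.2
  have hnk : 0 ≤ n * k := by nlinarith
  have e0 : n * k / n = k := div_at hn le_rfl (by omega)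
  have f2 : fillC C n cr (n * C.A k - 1) (n * k) = C.CL k := by
    rw [fill_left hnk (by omega) (by rw [e0]; omega), e0]
  have g2 : col C c0 (k + 1) = C.CL k := by
    unfold col
    rw [if_neg (by omega), if_neg (by omega), if_pos (by omega), add_sub_cancel_right]
  rcases h with rfl | ⟨h1, h2, h3⟩
  · refine ⟨?_, f2.trans g2.symm, ?_⟩
    · rw [fill_bot (by omega)]
      unfold col
      rw [if_neg (by omega), if_pos rfl]
    · unfold wd
      rw [if_neg (by omega), if_pos rfl]
  · have hnk2 : n ≤ n * k := by nlinarith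
    have e1 : (n * k - 1) / n = k - 1 := div_at hn (by rw [mul_pred]; omega) (by rw [mul_pred]; omega)
    have hA := Pool.Agent.H54.W.CD.mul_lt hp h3
    refine ⟨?_, f2.trans g2.symm, ?_⟩
    · rw [fill_left (by omega) (by omega) (by rw [e1]; omega), e1]
      unfold col
      rw [if_neg (by omega), if_neg (by omega), if_pos (by omega)]
    · unfold wd
      rw [if_neg (by omega), if_neg (by omega), if_pos h2, if_neg (by omega)]

lemma fTL (hn : 8 ≤ n) (h : TLk C k) : fillC C n cr (n * C.A (k - 1) - 1) (n * k - 1) = col C c0 k ∧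
    fillC C n cr (n * C.A (k - 1)) (n * k) = col C c0 (k + 1) ∧
    wd C c0 k = if col C c0 k = false then 3 else 0 := by
  have hp : 0 < n := by omega
  have hH0 := C.H0
  have hH := nH_pos (C := C) hp
  have hk : 0 < k ∧ k ≤ C.H := by rcases h with h | h <;> omega
  have hH1 : n * k ≤ n * C.H := by nlinarith [hk.2]
  have hnk2 : n ≤ n * k := by nlinarith [hk.1]
  have e1 : (n * k - 1) / n = k - 1 := div_at hn (by rw [mul_pred]; omega) (by rw [mul_pred]; omega)
  have f1 : fillC C n cr (n * C.A (k - 1) - 1) (n * k - 1) = C.CL (k - 1) := by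
    rw [fill_left (by omega) (by omega) (by rw [e1]; omega), e1]
  have g1 : col C c0 k = C.CL (k - 1) := by
    unfold col
    rw [if_neg (by omega), if_neg (by omega), if_pos (by omega)]
  rcases h with rfl | ⟨h1, h2, h3⟩
  · refine ⟨f1.trans g1.symm, ?_, ?_⟩
    · rw [fill_top hp le_rfl]
      unfold col
      rw [if_neg (by omega), if_neg (by omega), if_neg (by omega), if_pos rfl]
    · unfold wd
      rw [if_neg (by omega), if_neg (by omega), if_neg (by omega), if_pos rfl]
  · have e0 : n * k / n = k := div_at hn le_rfl (by omega)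
    have hA := Pool.Agent.H54.W.CD.mul_lt hp h3
    have hH2 := Pool.Agent.H54.W.CD.mul_lt hp h2
    refine ⟨f1.trans g1.symm, ?_, ?_⟩
    · rw [fill_left (by omega) (by omega) (by rw [e0]; omega), e0]
      unfold col
      rw [if_neg (by omega), if_neg (by omega), if_pos (by omega), add_sub_cancel_right]
    · unfold wd
      rw [if_neg (by omega), if_neg (by omega), if_pos h2, if_pos h3]

lemma fSE (hn : 8 ≤ n) (hc : cr 0 = c0) : fillC C n cr (n * C.W) 0 = col C c0 (-1) ∧
    fillC C n cr (n * C.W - 1) (-1) = col C c0 (-1 + 1) ∧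
    wd C c0 (-1) = if col C c0 (-1) = false then 2 else 1 := by
  have hp : 0 < n := by omega
  have hH := nH_pos (C := C) hp
  have ha := a_lt (C := C) hp le_rfl (show 0 < n * C.H by omega)
  refine ⟨?_, ?_, ?_⟩
  · rw [fill_right le_rfl (by omega) (by omega), hc]
    unfold col
    rw [if_pos (by omega)]
  · rw [fill_bot (by omega)]
    unfold col
    rw [if_neg (by omega), if_pos (by omega)]
  · unfold wd
    rw [if_pos (by omega)]

lemma fNE (hn : 8 ≤ n) (hc : cr (n * C.H - 1) = !c0) :
    fillC C n cr (n * C.W - 1) (n * C.H) = col C c0 (C.H + 1) ∧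
    fillC C n cr (n * C.W) (n * C.H - 1) = col C c0 (C.H + 1 + 1) ∧
    wd C c0 (C.H + 1) = if col C c0 (C.H + 1) = false then 0 else 2 := by
  have hp : 0 < n := by omega
  have hH0 := C.H0
  have hH := nH_pos (C := C) hp
  have ha := a_lt (C := C) hp (show 0 ≤ n * C.H - 1 by omega) (by omega)
  refine ⟨?_, ?_, ?_⟩
  · rw [fill_top hp le_rfl]
    unfold col
    rw [if_neg (by omega), if_neg (by omega), if_neg (by omega), if_pos rfl]
  · rw [fill_right (by omega) (by omega) (by omega), hc]
    unfold col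
    rw [if_neg (by omega), if_neg (by omega), if_neg (by omega), if_neg (by omega)]
  · unfold wd
    rw [if_neg (by omega), if_neg (by omega), if_neg (by omega), if_neg (by omega)]

/-- a mark is one of the convex corners -/
lemma Mk_cases (h : Mk C c0 k) : k = -1 ∨ BLk C k ∨ TLk C k ∨ k = C.H + 1 := by
  have hH0 := C.H0
  obtain ⟨h1, h2, h3⟩ := h
  rcases eq_or_lt_of_le h1 with h1 | h1
  · exact Or.inl h1.symm
  rcases eq_or_lt_of_le h2 with h2 | h2
  · exact Or.inr (Or.inr (Or.inr h2))
  rcases eq_or_lt_of_le (show 0 ≤ k by omega) with h4 | h4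
  · exact Or.inr (Or.inl (Or.inl h4.symm))
  rcases eq_or_lt_of_le (show k ≤ C.H by omega) with h5 | h5
  · exact Or.inr (Or.inr (Or.inl (Or.inl h5)))
  rcases lt_trichotomy (C.A (k - 1)) (C.A k) with h6 | h6 | h6
  · exact Or.inr (Or.inr (Or.inl (Or.inr ⟨h4, h5, h6⟩)))
  · exfalso
    apply h3
    unfold col
    rw [if_neg (by omega), if_neg (by omega), if_pos (by omega), if_neg (by omega), if_neg (by omega),
      if_pos (by omega), add_sub_cancel_right]
    have := C.sc (k - 1) (by omega) (by omega) (by rw [sub_add_cancel]; exact h6)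
    rwa [sub_add_cancel] at this
  · exact Or.inr (Or.inl (Or.inr ⟨h4, h5, h6⟩))

end

end Pool.Agent.H29.W
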