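import Mathlib
import Pool.Agent.H29.W.RoomI
import Pool.Agent.H45.W.Ends

set_option autoImplicit false
open Finset

/-! # The room graph: where strands can go

helper45's structure `Wld` for the room graph of helper21: `Q` = tiles of the room, admissible ends =
the moving end `eW (lt (x0, r))` and helper20's named ends `nm C c0 n k`. -/

namespace Pool.Agent.H29.W

open Pool.Agent.H75.TwoArm Pool.Agent.H99.W Pool.Agent.H13.W Pool.Agent.H33.Q1
open Pool.Agent.H54.W (CD)
open Pool.Agent.H21.W Pool.Agent.H20.W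
open Pool.Agent.H45.W

section

variable {C : CD} {n : ℤ} {cr : ℤ → Bool} {x y x0 r i j k : ℤ} {c0 : Bool}

/-- labels of the room -/
def Qr (C : CD) (n : ℤ) : Set (ℤ × ℤ) := {e | ∃ x y, e = lt (x, y) ∧ RP C n x y}

lemma mem_Qr : lt (x, y) ∈ Qr C n ↔ RP C n x y := by
  constructor
  · rintro ⟨x', y', h1, h2⟩
    have := lt_inj h1
    simp only [Prod.mk.injEq] at this
    rw [this.1, this.2]; exact h2
  · exact fun h => ⟨x, y, rfl, h⟩

/-- the lattice point `(i, j)` in label coordinates -/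
def pt (i j : ℤ) : ℤ × ℤ := (i - j, i + j)

lemma ev_pt (i j : ℤ) : ev (pt i j) := by unfold ev pt; simp only; omega

lemma exists_pt' {P : ℤ × ℤ} (h : ev P) : ∃ i j, P = pt i j := by
  obtain ⟨a, b⟩ := P
  unfold ev at h
  simp only at h
  refine ⟨(a + b) / 2, (b - a) / 2, ?_⟩
  unfold pt
  refine Prod.ext ?_ ?_ <;> simp only <;> omega

/-- tiles and sides at a point -/
lemma geo {c : ℤ × ℤ} (h1 : Pool.Agent.H45.W.sq c (lt (x, y)))
    (h2 : Pool.Agent.H45.W.sq c (pt i j)) :
    (x = i ∨ x = i - 1) ∧ (y = j ∨ y = j - 1) ∧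
    ((c = eW (lt (i, y)) ∧ ot c (lt (x, y)) = lt (2 * i - 1 - x, y)) ∨
      (c = eS (lt (x, j)) ∧ ot c (lt (x, y)) = lt (x, 2 * j - 1 - y))) := by
  obtain ⟨a, b⟩ := c
  unfold Pool.Agent.H45.W.sq lt pt at *
  unfold ot eW eS
  simp only [Prod.mk.injEq] at *
  omega

/-- the point `(i, j)` touches the room -/
def Nr (C : CD) (n i j : ℤ) : Prop := ∃ x y, (x = i ∨ x = i - 1) ∧ (y = j ∨ y = j - 1) ∧ RP C n x y

lemma PB_iff : Pool.Agent.H45.W.PB (Qr C n) (pt i j) ↔ Nr C n i j := by
  constructor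
  · rintro ⟨e, ⟨x, y, rfl, h⟩, c, h1, h2⟩
    obtain ⟨g1, g2, -⟩ := geo h1 h2
    exact ⟨x, y, g1, g2, h⟩
  · rintro ⟨x, y, h1, h2, h3⟩
    refine ⟨lt (x, y), mem_Qr.2 h3, eS (lt (x, j)), ?_, ?_⟩
    · unfold Pool.Agent.H45.W.sq eS lt; simp only; omega
    · unfold Pool.Agent.H45.W.sq eS lt pt; simp only; omega

/-! ### Named ends -/

/-- colours of the right wall: `c0` below the row `r`, `!c0` above -/
structure CrOk (cr : ℤ → Bool) (c0 : Bool) (r : ℤ) : Prop where
  dn : ∀ y, y < r → cr y = c0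
  up : ∀ y, r < y → cr y = !c0

variable (C n c0) in
/-- the named ends -/
def Nm : Set (ℤ × ℤ) := {c | ∃ k, Mk C c0 k ∧ c = nm C c0 n k}

lemma two_false {a b : Bool} (h : ¬ (a = false ∧ b = false)) (ha : a = false) : a ≠ b := by
  rintro rfl; exact h ⟨ha, ha⟩

/-- the diagonal tile belongs to the room graph if both walls are closed -/
lemma RT_dg {i' j' : ℤ} (hi : i' = 1 ∨ i' = -1) (hj : j' = 1 ∨ j' = -1)
    (hq : RP C n (x + i') (y + j')) (h1 : fillC C n cr (x + i') y = false)
    (h2 : fillC C n cr x (y + j') = false) : RT C n cr x y := by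
  by_cases h3 : RP C n x y
  · exact Or.inl h3
  by_cases h4 : RL1 C n x y
  · exact Or.inr (Or.inl h4)
  · exact Or.inr (Or.inr ⟨h3, h4, i', j', hi, hj, hq, h1, h2⟩)

/-- a tile which is not in the room graph is not next to the room -/
lemma not_RT (h : ¬ RT C n cr x y) : ¬ RP C n x y ∧ ¬ RP C n (x + 1) y ∧ ¬ RP C n (x - 1) y ∧
    ¬ RP C n x (y + 1) ∧ ¬ RP C n x (y - 1) := by
  unfold RT RL1 at h
  tauto

lemma even_mul (he : n % 2 = 0) (t : ℤ) : (n * t) % 2 = 0 := by
  obtain ⟨m, rfl⟩ := Int.dvd_of_emod_eq_zero he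
  rw [mul_assoc]
  exact Int.mul_emod_right 2 _

/-- **(F2)** a wall tile which turns round a point of the room, beside a missing tile: named end -/
lemma end_nm (hn : 8 ≤ n) (he : n % 2 = 0) (hc : CrOk cr c0 r) (hr0 : 0 < r) (hr1 : r + 1 < n * C.H)
    (hx : x = i ∨ x = i - 1) (hy : y = j ∨ y = j - 1) (hN : Nr C n i j) (h0 : ¬ RP C n x y)
    (hs : fillC C n cr x y = true ↔ (i + j) % 2 = 1) :
    (¬ RT C n cr (2 * i - 1 - x) y → eW (lt (i, y)) ∈ Nm C n c0) ∧
    (¬ RT C n cr x (2 * j - 1 - y) → eS (lt (x, j)) ∈ Nm C n c0) := by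
  have hp : 0 < n := by omega
  have cr0 : cr 0 = c0 := hc.dn 0 hr0
  have cr1 : cr (n * C.H - 1) = !c0 := hc.up _ (by omega)
  obtain ⟨x', y', hx', hy', hq⟩ := hN
  -- the parity is even, the tile is closed
  have key : ∀ a b : ℤ, i = n * a → j = n * b → fillC C n cr x y = false := by
    intro a b ha hb
    have h1 := even_mul he a
    have h2 := even_mul he b
    rw [← ha] at h1
    rw [← hb] at h2
    have h3 : ¬ (i + j) % 2 = 1 := by omega
    rw [← hs] at h3
    simpa using h3
  constructor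
  · intro hf
    obtain ⟨f0, f1, f2, f3, f4⟩ := not_RT hf
    rcases hx with rfl | rfl <;> rcases hy with rfl | rfl
    · -- ceiling, TL
      have e1 : 2 * x - 1 - x = x - 1 := by ring
      rw [e1] at hf f0 f1 f2 f3 f4
      have hq' : RP C n x (y - 1) := by
        rcases hx' with rfl | rfl <;> rcases hy' with rfl | rfl
        · exact absurd hq h0
        · exact hq
        · exact absurd hq f0
        · exact absurd hq f4
      obtain ⟨k, k1, k2, k3⟩ := cor_TL hn hq' f4 h0
      obtain ⟨q1, q2, q3, q4⟩ := qTL k1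
      obtain ⟨g1, g2, g3⟩ := fTL (cr := cr) (c0 := c0) hn k1
      have hcl := key _ _ k2 k3
      rw [← k2, ← k3] at g1 g2
      have hcol : col C c0 (k + 1) = false := by rw [← g2]; exact hcl
      have hne : col C c0 (k + 1) ≠ col C c0 k := by
        refine two_false (fun h => hf ?_) hcol
        refine RT_dg (i' := 1) (j' := -1) (Or.inl rfl) (Or.inr rfl) ?_ ?_ ?_
        · convert hq' using 1 <;> ring
        · rw [sub_add_cancel]; exact hcl
        · have e : y + -1 = y - 1 := by ring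
          rw [e, g1]; exact h.2
      refine ⟨k, ⟨q1, q2, hne.symm⟩, ?_⟩
      unfold nm sdp
      rw [q3, q4, ← k2, ← k3, g3,
        if_neg (show ¬ col C c0 k = false from fun h => hne (hcol.trans h.symm))]
      simp
    · -- floor, BL
      have e1 : 2 * x - 1 - x = x - 1 := by ring
      rw [e1] at hf f0 f1 f2 f3 f4
      rw [sub_add_cancel] at f3
      have hq' : RP C n x j := by
        rcases hx' with rfl | rfl <;> rcases hy' with rfl | rfl
        · exact hq
        · exact absurd hq h0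
        · exact absurd hq f3
        · exact absurd hq f0
      obtain ⟨k, k1, k2, k3⟩ := cor_BL hn hq' f3 h0
      obtain ⟨q1, q2, q3, q4⟩ := qBL k1
      obtain ⟨g1, g2, g3⟩ := fBL (cr := cr) (c0 := c0) hn k1
      have hcl := key _ _ k2 k3
      rw [← k2, ← k3] at g1 g2
      have hcol : col C c0 k = false := by rw [← g1]; exact hcl
      have hne : col C c0 k ≠ col C c0 (k + 1) := by
        refine two_false (fun h => hf ?_) hcol
        refine RT_dg (i' := 1) (j' := 1) (Or.inl rfl) (Or.inl rfl) ?_ ?_ ?_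
        · convert hq' using 1 <;> ring
        · rw [sub_add_cancel]; exact hcl
        · rw [sub_add_cancel, g2]; exact h.2
      refine ⟨k, ⟨q1, q2, hne⟩, ?_⟩
      unfold nm sdp
      rw [q3, q4, ← k2, ← k3, g3, if_pos hcol]
      simp
    · -- ceiling, NE
      have e1 : 2 * i - 1 - (i - 1) = i := by ring
      rw [e1] at hf f0 f1 f2 f3 f4
      have hq' : RP C n (i - 1) (y - 1) := by
        rcases hx' with rfl | rfl <;> rcases hy' with rfl | rfl
        · exact absurd hq f0
        · exact absurd hq f4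
        · exact absurd hq h0
        · exact hq
      obtain ⟨k2, k3⟩ := cor_NE hn hq' f4 h0
      obtain ⟨g1, g2, g3⟩ := fNE (C := C) (cr := cr) (c0 := c0) hn cr1
      have hcl := key _ _ k2 k3
      rw [← k2, ← k3] at g1 g2
      have hcol : col C c0 (C.H + 1) = false := by rw [← g1]; exact hcl
      have hne : col C c0 (C.H + 1) ≠ col C c0 (C.H + 1 + 1) := by
        refine two_false (fun h => hf ?_) hcol
        refine RT_dg (i' := -1) (j' := -1) (Or.inr rfl) (Or.inr rfl) ?_ ?_ ?_
        · convert hq' using 1 <;> ring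
        · have e : i + -1 = i - 1 := by ring
          rw [e]; exact hcl
        · have e : y + -1 = y - 1 := by ring
          rw [e, g2]; exact h.2
      refine ⟨C.H + 1, ⟨by have := C.H0; omega, le_rfl, hne⟩, ?_⟩
      unfold nm sdp
      rw [qNE.1, qNE.2, ← k2, ← k3, g3, if_pos hcol]
      simp
    · -- floor, SE
      have e1 : 2 * i - 1 - (i - 1) = i := by ring
      rw [e1] at hf f0 f1 f2 f3 f4
      rw [sub_add_cancel] at f3
      have hq' : RP C n (i - 1) j := by
        rcases hx' with rfl | rfl <;> rcases hy' with rfl | rfl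
        · exact absurd hq f3
        · exact absurd hq f0
        · exact hq
        · exact absurd hq h0
      obtain ⟨k2, k3⟩ := cor_SE hn hq' f3 h0
      obtain ⟨g1, g2, g3⟩ := fSE (C := C) (cr := cr) (c0 := c0) hn cr0
      have hcl := key _ 0 k2 (by rw [k3]; ring)
      rw [← k2] at g1 g2
      have hcol : col C c0 (-1 + 1) = false := by rw [← g2]; rw [k3] at hcl; exact hcl
      have hne : col C c0 (-1 + 1) ≠ col C c0 (-1) := by
        refine two_false (fun h => hf ?_) hcol
        refine RT_dg (i' := -1) (j' := 1) (Or.inr rfl) (Or.inl rfl) ?_ ?_ ?_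
        · convert hq' using 1 <;> ring
        · have e : i + -1 = i - 1 := by ring
          rw [e]; exact hcl
        · rw [sub_add_cancel, k3, g1]; exact h.2
      refine ⟨-1, ⟨le_rfl, by have := C.H0; omega, hne.symm⟩, ?_⟩
      unfold nm sdp
      rw [qSE.1, qSE.2, ← k2, g3,
        if_neg (show ¬ col C c0 (-1) = false from fun h => hne (hcol.trans h.symm)), k3]
      simp
  · intro hf
    obtain ⟨f0, f1, f2, f3, f4⟩ := not_RT hf
    rcases hx with rfl | rfl <;> rcases hy with rfl | rfl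
    · -- right wall, SE
      have e1 : 2 * y - 1 - y = y - 1 := by ring
      rw [e1] at hf f0 f1 f2 f3 f4
      have hq' : RP C n (x - 1) y := by
        rcases hx' with rfl | rfl <;> rcases hy' with rfl | rfl
        · exact absurd hq h0
        · exact absurd hq f0
        · exact hq
        · exact absurd hq f2
      obtain ⟨k2, k3⟩ := cor_SE hn hq' h0 f2
      obtain ⟨g1, g2, g3⟩ := fSE (C := C) (cr := cr) (c0 := c0) hn cr0
      have hcl := key _ 0 k2 (by rw [k3]; ring)
      rw [← k2] at g1 g2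
      have hcol : col C c0 (-1) = false := by rw [← g1, ← k3]; exact hcl
      have hne : col C c0 (-1) ≠ col C c0 (-1 + 1) := by
        refine two_false (fun h => hf ?_) hcol
        refine RT_dg (i' := -1) (j' := 1) (Or.inr rfl) (Or.inl rfl) ?_ ?_ ?_
        · convert hq' using 1 <;> ring
        · have e : x + -1 = x - 1 := by ring
          rw [e, k3]
          have e' : (0 : ℤ) - 1 = -1 := by ring
          rw [e', g2]; exact h.2
        · rw [sub_add_cancel]; exact hcl
      refine ⟨-1, ⟨le_rfl, by have := C.H0; omega, hne⟩, ?_⟩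
      unfold nm sdp
      rw [qSE.1, qSE.2, ← k2, g3, if_pos hcol, k3]
      simp
    · -- right wall, NE
      have e1 : 2 * j - 1 - (j - 1) = j := by ring
      rw [e1] at hf f0 f1 f2 f3 f4
      have hq' : RP C n (x - 1) (j - 1) := by
        rcases hx' with rfl | rfl <;> rcases hy' with rfl | rfl
        · exact absurd hq f0
        · exact absurd hq h0
        · exact absurd hq f2
        · exact hq
      obtain ⟨k2, k3⟩ := cor_NE hn hq' h0 f2
      obtain ⟨g1, g2, g3⟩ := fNE (C := C) (cr := cr) (c0 := c0) hn cr1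
      have hcl := key _ _ k2 k3
      rw [← k2, ← k3] at g1 g2
      have hcol : col C c0 (C.H + 1 + 1) = false := by rw [← g2]; exact hcl
      have hne : col C c0 (C.H + 1 + 1) ≠ col C c0 (C.H + 1) := by
        refine two_false (fun h => hf ?_) hcol
        refine RT_dg (i' := -1) (j' := -1) (Or.inr rfl) (Or.inr rfl) ?_ ?_ ?_
        · convert hq' using 1 <;> ring
        · have e : x + -1 = x - 1 := by ring
          rw [e, g1]; exact h.2
        · have e : j + -1 = j - 1 := by ring
          rw [e]; exact hcl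
      refine ⟨C.H + 1, ⟨by have := C.H0; omega, le_rfl, hne.symm⟩, ?_⟩
      unfold nm sdp
      rw [qNE.1, qNE.2, ← k2, ← k3, g3,
        if_neg (show ¬ col C c0 (C.H + 1) = false from fun h => hne (hcol.trans h.symm))]
      simp
    · -- left wall, BL
      have e1 : 2 * y - 1 - y = y - 1 := by ring
      rw [e1] at hf f0 f1 f2 f3 f4
      rw [sub_add_cancel] at f1
      have hq' : RP C n i y := by
        rcases hx' with rfl | rfl <;> rcases hy' with rfl | rfl
        · exact hq
        · exact absurd hq f1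
        · exact absurd hq h0
        · exact absurd hq f0
      obtain ⟨k, k1, k2, k3⟩ := cor_BL hn hq' h0 f1
      obtain ⟨q1, q2, q3, q4⟩ := qBL k1
      obtain ⟨g1, g2, g3⟩ := fBL (cr := cr) (c0 := c0) hn k1
      have hcl := key _ _ k2 k3
      rw [← k2, ← k3] at g1 g2
      have hcol : col C c0 (k + 1) = false := by rw [← g2]; exact hcl
      have hne : col C c0 (k + 1) ≠ col C c0 k := by
        refine two_false (fun h => hf ?_) hcol
        refine RT_dg (i' := 1) (j' := 1) (Or.inl rfl) (Or.inl rfl) ?_ ?_ ?_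
        · convert hq' using 1 <;> ring
        · rw [sub_add_cancel, g1]; exact h.2
        · rw [sub_add_cancel]; exact hcl
      refine ⟨k, ⟨q1, q2, hne.symm⟩, ?_⟩
      unfold nm sdp
      rw [q3, q4, ← k2, ← k3, g3,
        if_neg (show ¬ col C c0 k = false from fun h => hne (hcol.trans h.symm))]
      simp
    · -- left wall, TL
      have e1 : 2 * j - 1 - (j - 1) = j := by ring
      rw [e1] at hf f0 f1 f2 f3 f4
      rw [sub_add_cancel] at f1
      have hq' : RP C n i (j - 1) := by
        rcases hx' with rfl | rfl <;> rcases hy' with rfl | rfl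
        · exact absurd hq f1
        · exact hq
        · exact absurd hq f0
        · exact absurd hq h0
      obtain ⟨k, k1, k2, k3⟩ := cor_TL hn hq' h0 f1
      obtain ⟨q1, q2, q3, q4⟩ := qTL k1
      obtain ⟨g1, g2, g3⟩ := fTL (cr := cr) (c0 := c0) hn k1
      have hcl := key _ _ k2 k3
      rw [← k2, ← k3] at g1 g2
      have hcol : col C c0 k = false := by rw [← g1]; exact hcl
      have hne : col C c0 k ≠ col C c0 (k + 1) := by
        refine two_false (fun h => hf ?_) hcol
        refine RT_dg (i' := 1) (j' := -1) (Or.inl rfl) (Or.inr rfl) ?_ ?_ ?_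
        · convert hq' using 1 <;> ring
        · rw [sub_add_cancel, g2]; exact h.2
        · have e : j + -1 = j - 1 := by ring
          rw [e]; exact hcl
      refine ⟨k, ⟨q1, q2, hne⟩, ?_⟩
      unfold nm sdp
      rw [q3, q4, ← k2, ← k3, g3, if_pos hcol]
      simp

/-! ### The world -/

lemma nRP_x (h : n * C.W ≤ x) : ¬ RP C n x y := fun k => by have := k.2.2.2; omega

/-- the right column of the room -/
lemma RP_right (hn : 0 < n) (h0 : 0 ≤ y) (h1 : y < n * C.H) : RP C n (n * C.W - 1) y := by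
  have := a_lt (C := C) hn h0 h1
  exact ⟨h0, h1, by omega, by omega⟩

lemma RT_right (hn : 0 < n) (h0 : 0 ≤ y) (h1 : y < n * C.H) : RT C n cr (n * C.W) y :=
  Or.inr (Or.inl ⟨nRP_x le_rfl, Or.inr (Or.inl (RP_right hn h0 h1))⟩)

/-- a deleted wall tile is on the right wall -/
lemma del_wall (hn : 0 < n) (hr0 : 0 < r) (hr1 : r + 1 < n * C.H) (hx0 : n * C.A (r / n) ≤ x0)
    (h : RT C n cr x r) (h1 : ¬ RP C n x r) (h2 : x0 ≤ x) : x = n * C.W := by
  have hb := (h.box hn).2.2.2
  unfold RP at h1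
  omega

lemma fin_LR (hn : 0 < n) : (LR C n cr).Finite := by
  refine ((Set.finite_Icc (n * C.LO - 1) (n * C.W)).prod (Set.finite_Icc (-1) (n * C.H))).image lt
    |>.subset ?_
  rintro e ⟨x, y, rfl, h⟩
  have hb := h.box hn
  exact ⟨(x, y), ⟨⟨hb.2.2.1, hb.2.2.2⟩, ⟨hb.1, hb.2.1⟩⟩, rfl⟩

lemma nbr {c : ℤ × ℤ} (h : Pool.Agent.H45.W.sq c (lt (x, y))) :
    ot c (lt (x, y)) = lt (x + 1, y) ∨ ot c (lt (x, y)) = lt (x - 1, y) ∨
      ot c (lt (x, y)) = lt (x, y + 1) ∨ ot c (lt (x, y)) = lt (x, y - 1) := by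
  obtain ⟨a, b⟩ := c
  unfold Pool.Agent.H45.W.sq lt at *
  unfold ot
  simp only [Prod.mk.injEq] at *
  omega

lemma up_lt (x y : ℤ) : up (lt (x, y)) = lt (x, y + 1) := by
  unfold up lt; refine Prod.ext ?_ ?_ <;> simp only <;> ring
lemma dn_lt (x y : ℤ) : Pool.Agent.H13.W.dn (lt (x, y)) = lt (x, y - 1) := by
  unfold Pool.Agent.H13.W.dn lt; refine Prod.ext ?_ ?_ <;> simp only <;> ring
lemma rt_lt (x y : ℤ) : rt (lt (x, y)) = lt (x + 1, y) := by
  unfold rt lt; refine Prod.ext ?_ ?_ <;> simp only <;> ring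
lemma lf_lt (x y : ℤ) : lf (lt (x, y)) = lt (x - 1, y) := by
  unfold lf lt; refine Prod.ext ?_ ?_ <;> simp only <;> ring
lemma up_pt (i j : ℤ) : up (pt i j) = pt i (j + 1) := by
  unfold up pt; refine Prod.ext ?_ ?_ <;> simp only <;> ring
lemma dn_pt (i j : ℤ) : Pool.Agent.H13.W.dn (pt i j) = pt i (j - 1) := by
  unfold Pool.Agent.H13.W.dn pt; refine Prod.ext ?_ ?_ <;> simp only <;> ring

/-- **The room graph is a world of helper45.** -/
theorem wld_room (hn : 8 ≤ n) (he : n % 2 = 0) (hc : CrOk cr c0 r) (hr0 : 0 < r)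
    (hr1 : r + 1 < n * C.H) (hx0 : n * C.A (r / n) ≤ x0) (hx1 : x0 ≤ n * C.W)
    {ω : Finset (ℤ × ℤ)} (hω : ω ⊆ ER C n) :
    Wld (Qr C n) (LR C n cr) (DR x0 r) (WR0 C n cr ∪ ω) (Nm C n c0 ∪ {eW (lt (x0, r))}) := by
  have hp : 0 < n := by omega
  have hw : ∀ x y, RT C n cr x y → ¬ RP C n x y →
      (lt (x, y) ∈ WR0 C n cr ∪ ω ↔ fillC C n cr x y = true) := by
    intro x y h1 h2
    rw [mem_union, mem_WR0 hp]
    constructor
    · rintro (h | h)
      · exact h.2.2
      · exact absurd ((mem_ER hp).1 (hω h)) h2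
    · exact fun h => Or.inl ⟨h1, h2, h⟩
  refine ⟨fin_LR hp, fun e he => odd_LR he, ?_, ?_, ?_, ?_, ?_⟩
  · rintro e ⟨x, y, rfl, h⟩
    exact mem_LR.2 (Or.inl h)
  · -- layer
    rintro e ⟨x, y, rfl, h⟩ c hc'
    have key : ∀ x' y', (x = x' + 1 ∧ y = y' ∨ x = x' - 1 ∧ y = y' ∨ x = x' ∧ y = y' + 1 ∨
        x = x' ∧ y = y' - 1) → lt (x', y') ∈ LR C n cr := by
      intro x' y' hh
      rw [mem_LR]
      by_cases h1 : RP C n x' y'
      · exact Or.inl h1
      · refine Or.inr (Or.inl ⟨h1, ?_⟩)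
        rcases hh with ⟨rfl, rfl⟩ | ⟨rfl, rfl⟩ | ⟨rfl, rfl⟩ | ⟨rfl, rfl⟩
        · exact Or.inl h
        · exact Or.inr (Or.inl h)
        · exact Or.inr (Or.inr (Or.inl h))
        · exact Or.inr (Or.inr (Or.inr h))
    rcases nbr hc' with e | e | e | e <;> rw [e] <;> apply key <;> omega
  · -- the next layer tile
    intro P e c hPB hev heΛ heQ heD hst h1 h2
    obtain ⟨i, j, rfl⟩ := exists_pt' hev
    obtain ⟨x, y, rfl, hRT⟩ := heΛ
    rw [mem_Qr] at heQ
    rw [mem_DR] at heD
    rw [PB_iff] at hPB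
    rw [hw x y hRT heQ] at hst
    have hst' : fillC C n cr x y = true ↔ (i + j) % 2 = 1 := by
      rw [hst]; unfold pt; simp only; omega
    obtain ⟨g1, g2, g3⟩ := geo h1 h2
    obtain ⟨en1, en2⟩ := end_nm hn he hc hr0 hr1 g1 g2 hPB heQ hst'
    have hot : ∃ x' y', ot c (lt (x, y)) = lt (x', y') ∧
        (((x' = 2 * i - 1 - x ∧ y' = y) ∧ c = eW (lt (i, y))) ∨
          ((x' = x ∧ y' = 2 * j - 1 - y) ∧ c = eS (lt (x, j)))) := by
      rcases g3 with ⟨g3, g4⟩ | ⟨g3, g4⟩
      · exact ⟨_, _, g4, Or.inl ⟨⟨rfl, rfl⟩, g3⟩⟩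
      · exact ⟨_, _, g4, Or.inr ⟨⟨rfl, rfl⟩, g3⟩⟩
    obtain ⟨x', y', ho, hg⟩ := hot
    rw [ho, mem_Qr]
    by_cases hP' : RP C n x' y'
    · exact Or.inl hP'
    right
    by_cases hT' : RT C n cr x' y'
    · by_cases hD' : y' = r ∧ x0 ≤ x'
      · obtain ⟨rfl, hx'⟩ := hD'
        have hxW := del_wall hp hr0 hr1 hx0 hT' hP' hx'
        right; left
        refine ⟨mem_LR.2 hT', mem_DR.2 ⟨rfl, hx'⟩, ?_⟩
        rcases hg with ⟨⟨g5, g6⟩, g7⟩ | ⟨⟨g5, g6⟩, g7⟩
        · exfalso
          have hxx : x = n * C.W - 1 ∨ x = n * C.W + 1 := by omega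
          rcases hxx with hxx | hxx
          · apply heQ
            rw [hxx, ← g6]
            exact RP_right hp (by omega) (by omega)
          · have := (hRT.box hp).2.2.2
            omega
        · rw [g7]
          rcases g2 with g2 | g2
          · right
            have e1 : y' = y - 1 := by omega
            rw [e1, g5, eN_lt, sub_add_cancel, g2]
          · left
            have e1 : y' = j := by omega
            rw [e1, g5]
      · left
        refine ⟨mem_LR.2 hT', fun h => hD' (mem_DR.1 h), ?_⟩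
        rw [hw x' y' hT' hP', ← hst]
        have hcol : fillC C n cr x y = fillC C n cr x' y' := by
          rcases hg with ⟨⟨g5, g6⟩, g7⟩ | ⟨⟨g5, g6⟩, g7⟩
          · subst g6
            rcases g1 with g1 | g1
            · have e1 : x = x' + 1 := by omega
              subst e1
              exact (col_h hp heQ).symm
            · have e1 : x' = x + 1 := by omega
              subst e1
              exact col_h hp hP'
          · subst g5
            have cc : ∀ t, 0 ≤ t → t + 1 < n * C.H → x' = n * C.W → (t = y ∨ t = y') →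
                (t + 1 = y ∨ t + 1 = y') → cr t = cr (t + 1) := by
              intro t _ _ t1 t2 t3
              have a1 : y ≠ r := fun h => heD ⟨h, by omega⟩
              have a2 : y' ≠ r := fun h => hD' ⟨h, by omega⟩
              rcases lt_or_ge t r with hlt | hge
              · rw [hc.dn t hlt, hc.dn (t + 1) (by omega)]
              · rw [hc.up t (by omega), hc.up (t + 1) (by omega)]
            rcases g2 with g2 | g2
            · have e1 : y = y' + 1 := by omega
              subst e1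
              exact (col_v hn hT' hRT hP' heQ fun t1 t2 t3 =>
                cc y' t1 t2 t3 (Or.inr rfl) (Or.inl rfl)).symm
            · have e1 : y' = y + 1 := by omega
              subst e1
              exact col_v hn hRT hT' heQ hP' fun t1 t2 t3 =>
                cc y t1 t2 t3 (Or.inl rfl) (Or.inr rfl)
        rw [hcol]
    · right; right
      refine ⟨fun h => hT' (mem_LR.1 h), Or.inl ?_⟩
      rcases hg with ⟨⟨rfl, rfl⟩, rfl⟩ | ⟨⟨rfl, rfl⟩, rfl⟩
      · exact en1 hT'
      · exact en2 hT'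
  · -- a deleted layer tile
    rintro e ⟨x, y, rfl, hRT⟩ heD heQ P hPB hev -
    rw [mem_DR] at heD
    rw [mem_Qr] at heQ
    obtain ⟨rfl, hx⟩ := heD
    have hxW := del_wall hp hr0 hr1 hx0 hRT heQ hx
    subst hxW
    obtain ⟨i, j, rfl⟩ := exists_pt' hev
    rw [PB_iff] at hPB
    have u1 := RT_right (cr := cr) (C := C) hp (show 0 ≤ y + 1 by omega) (by omega)
    have u2 := RT_right (cr := cr) (C := C) hp (show 0 ≤ y - 1 by omega) (by omega)
    have ha1 := a_lt (C := C) hp (show 0 ≤ y + 1 by omega) (by omega)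
    have ha2 := a_lt (C := C) hp (show 0 ≤ y - 1 by omega) (by omega)
    rw [up_lt, dn_lt, up_pt, dn_pt, PB_iff, PB_iff, mem_LR, mem_LR, mem_DR, mem_DR, mem_Qr, mem_Qr,
      hw _ _ u1 (nRP_x le_rfl), hw _ _ u2 (nRP_x le_rfl),
      fill_right (by omega) (by omega) (by omega), fill_right (by omega) (by omega) (by omega),
      hc.up _ (by omega), hc.dn _ (by omega)]
    have hi : ∀ j', (j' = j ∨ j' = j - 1 ∨ j' = j + 1) → Nr C n i j → i ≤ n * C.W + 1 →
        n * C.W ≤ i → i = n * C.W := by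
      rintro j' - ⟨x, y, h1, -, h3⟩ h4 h5
      have := h3.2.2.2
      omega
    refine ⟨⟨u1, by omega, nRP_x le_rfl⟩, ⟨u2, by omega, nRP_x le_rfl⟩, ?_, fun h => ?_, fun h => ?_⟩
    · cases c0 <;> simp
    · have e1 : j = y + 1 ∧ n * C.W ≤ i ∧ i ≤ n * C.W + 1 := by
        unfold Pool.Agent.H45.W.sq eN lt pt at h
        simp only at h
        omega
      have e2 := hi j (Or.inl rfl) hPB e1.2.2 e1.2.1
      exact ⟨i - 1, j - 1, Or.inr rfl, Or.inl rfl, by
        rw [e2]; exact RP_right hp (by omega) (by omega)⟩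
    · have e1 : j = y ∧ n * C.W ≤ i ∧ i ≤ n * C.W + 1 := by
        unfold Pool.Agent.H45.W.sq eS lt pt at h
        simp only at h
        omega
      have e2 := hi j (Or.inl rfl) hPB e1.2.2 e1.2.1
      exact ⟨i - 1, j, Or.inr rfl, Or.inr (by ring), by
        rw [e2]; exact RP_right hp (by omega) (by omega)⟩
  · -- the ends of the deleted row
    rintro e ⟨x, y, rfl, hRT⟩ heD
    rw [mem_DR] at heD
    constructor
    · right
      rw [rt_lt, mem_DR]
      exact ⟨heD.1, by omega⟩
    · rcases eq_or_lt_of_le heD.2 with h | h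
      · left; right
        rw [heD.1, ← h]
        rfl
      · right
        rw [lf_lt, mem_DR]
        exact ⟨heD.1, by omega⟩

/-! ### The named ends -/

open Classical in
variable (C c0 n) in
/-- the side between the room and the closed wall tile at the mark `k`; if the right wall is closed: the named
end -/
noncomputable def sn (k : ℤ) : ℤ × ℤ :=
  if wd C c0 k = 2 then eS (lt (n * qx C k, n * qy C k))
  else if wd C c0 k = 0 then
    (if k = C.H + 1 then eS (lt (n * qx C k - 1, n * qy C k)) else eS (lt (n * qx C k, n * qy C k)))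
  else if wd C c0 k = 1 then
    (if k = -1 then eS (lt (n * qx C k - 1, n * qy C k)) else eS (lt (n * qx C k, n * qy C k)))
  else (if BLk C k then eW (lt (n * qx C k, n * qy C k)) else eW (lt (n * qx C k, n * qy C k - 1)))

/-- the tiles at the named end `k`: `(x, y)` is the closed wall tile, the other tile is missing -/
structure NmT (C : CD) (n : ℤ) (cr : ℤ → Bool) (c0 : Bool) (x0 r k i j x y : ℤ) : Prop where
  hi : i = n * qx C k
  hj : j = n * qy C k
  hx : x = i ∨ x = i - 1
  hy : y = j ∨ y = j - 1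
  rt : RT C n cr x y
  np : ¬ RP C n x y
  cl : fillC C n cr x y = false
  nd : ¬ (y = r ∧ x0 ≤ x)
  nr : ∃ x' y', (x' = i ∨ x' = i - 1) ∧ (y' = j ∨ y' = j - 1) ∧ RP C n x' y' ∧ (x' = x ∨ y' = y)
  en : (nm C c0 n k = eW (lt (i, y)) ∧ ¬ RT C n cr (2 * i - 1 - x) y) ∨
    (nm C c0 n k = eS (lt (x, j)) ∧ ¬ RT C n cr x (2 * j - 1 - y))
  sl : (wd C c0 k ≠ 2 ∧ x < n * C.W ∧ ((nm C c0 n k = eW (lt (i, y)) ∧ sn C n c0 k = eS (lt (x, j))) ∨
      (nm C c0 n k = eS (lt (x, j)) ∧ sn C n c0 k = eW (lt (i, y))))) ∨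
    (wd C c0 k = 2 ∧ x = n * C.W ∧ 0 ≤ y ∧ y < n * C.H ∧ sn C n c0 k = nm C c0 n k)

lemma bool_ne {a b : Bool} (h : a ≠ b) (h1 : ¬ a = false) : b = false := by
  cases a <;> cases b <;> simp_all

/-- **The tiles at a named end.** -/
theorem nm_tiles (hn : 8 ≤ n) (hc : CrOk cr c0 r) (hr0 : 0 < r) (hr1 : r + 1 < n * C.H)
    (hx0 : n * C.A (r / n) ≤ x0) (h : Mk C c0 k) : ∃ i j x y, NmT C n cr c0 x0 r k i j x y := by
  have hp : 0 < n := by omega
  have hH0 := C.H0
  have cr0 : cr 0 = c0 := hc.dn 0 hr0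
  have cr1 : cr (n * C.H - 1) = !c0 := hc.up _ (by omega)
  have nd : ∀ x y, RT C n cr x y → ¬ RP C n x y → x < n * C.W → ¬ (y = r ∧ x0 ≤ x) := by
    rintro x y h1 h2 h3 ⟨rfl, h4⟩
    have := del_wall hp hr0 hr1 hx0 h1 h2 h4
    omega
  rcases Mk_cases h with rfl | hk | hk | rfl
  · -- SE
    have L := loc_SE (C := C) hn
    obtain ⟨g1, g2, g3⟩ := fSE (C := C) (cr := cr) (c0 := c0) hn cr0
    have hf : ¬ RT C n cr (n * C.W) (-1) := by
      intro hf
      obtain ⟨i', j', hi', hj', k1, k2, k3⟩ := dg_of hf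
        (by rw [L _ _ (by omega) (by omega) (by omega) (by omega)]; omega)
        (by rw [L _ _ (by omega) (by omega) (by omega) (by omega)]; omega)
        (by rw [L _ _ (by omega) (by omega) (by omega) (by omega)]; omega)
        (by rw [L _ _ (by omega) (by omega) (by omega) (by omega)]; omega)
        (by rw [L _ _ (by omega) (by omega) (by omega) (by omega)]; omega)
      rw [L _ _ (by omega) (by omega) (by omega) (by omega)] at k1
      have e1 : i' = -1 := by omega
      have e2 : j' = 1 := by omega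
      subst e1 e2
      have e3 : n * C.W + -1 = n * C.W - 1 := by ring
      rw [e3, g2] at k2
      rw [show (-1 : ℤ) + 1 = 0 by ring, g1] at k3
      exact h.2.2 (k3.trans k2.symm)
    by_cases hcl : col C c0 (-1) = false
    · refine ⟨n * C.W, 0, n * C.W, 0, by rw [qSE.1], by rw [qSE.2]; ring, Or.inl rfl, Or.inl rfl,
        RT_right hp le_rfl (by have := nH_pos (C := C) hp; omega), nRP_x le_rfl, by rw [g1, hcl], by omega,
        ⟨n * C.W - 1, 0, Or.inr rfl, Or.inl rfl, RP_right hp le_rfl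
          (by have := nH_pos (C := C) hp; omega), Or.inr rfl⟩, Or.inr ⟨?_, ?_⟩, Or.inr ⟨?_, rfl, le_rfl,
          (by have := nH_pos (C := C) hp; omega), ?_⟩⟩
      · unfold nm sdp
        rw [qSE.1, qSE.2, g3, if_pos hcl]
        simp
      · have e : 2 * (0 : ℤ) - 1 - 0 = -1 := by ring
        rw [e]; exact hf
      · rw [g3, if_pos hcl]
      · unfold sn nm sdp
        rw [qSE.1, qSE.2, g3, if_pos hcl]
        simp
    · have hcl' := bool_ne h.2.2 hcl
      have hq := RP_right (C := C) (y := 0) hp le_rfl (by have := nH_pos (C := C) hp; omega)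
      have hnp : ¬ RP C n (n * C.W - 1) (-1) := by
        rw [L _ _ (by omega) (by omega) (by omega) (by omega)]; omega
      have hRT : RT C n cr (n * C.W - 1) (-1) :=
        Or.inr (Or.inl ⟨hnp, Or.inr (Or.inr (Or.inl (by simpa using hq)))⟩)
      refine ⟨n * C.W, 0, n * C.W - 1, -1, by rw [qSE.1], by rw [qSE.2]; ring, Or.inr rfl,
        Or.inr (by ring), hRT, hnp, by rw [g2, hcl'], nd _ _ hRT hnp (by omega),
        ⟨n * C.W - 1, 0, Or.inr rfl, Or.inl rfl, hq, Or.inl rfl⟩, Or.inl ⟨?_, ?_⟩,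
        Or.inl ⟨?_, by omega, Or.inl ⟨?_, ?_⟩⟩⟩
      · unfold nm sdp
        rw [qSE.1, qSE.2, g3, if_neg hcl]
        simp
      · have e : 2 * (n * C.W) - 1 - (n * C.W - 1) = n * C.W := by ring
        rw [e]; exact hf
      · rw [g3, if_neg hcl]; decide
      · unfold nm sdp
        rw [qSE.1, qSE.2, g3, if_neg hcl]
        simp
      · unfold sn
        rw [qSE.1, qSE.2, g3, if_neg hcl]
        simp
  · -- BL
    have L := loc_BL hn hk
    obtain ⟨q1, q2, q3, q4⟩ := qBL hk
    obtain ⟨g1, g2, g3⟩ := fBL (cr := cr) (c0 := c0) hn hk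
    have hAW : n * C.A k + n ≤ n * C.W := by
      refine Pool.Agent.H54.W.CD.mul_lt hp (C.AW k ?_ ?_) <;> rcases hk with hk | hk <;> omega
    have hq : RP C n (n * C.A k) (n * k) := by
      rw [L _ _ (by omega) (by omega) (by omega) (by omega)]; omega
    have hf : ¬ RT C n cr (n * C.A k - 1) (n * k - 1) := by
      intro hf
      obtain ⟨i', j', hi', hj', k1, k2, k3⟩ := dg_of hf
        (by rw [L _ _ (by omega) (by omega) (by omega) (by omega)]; omega)
        (by rw [L _ _ (by omega) (by omega) (by omega) (by omega)]; omega)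
        (by rw [L _ _ (by omega) (by omega) (by omega) (by omega)]; omega)
        (by rw [L _ _ (by omega) (by omega) (by omega) (by omega)]; omega)
        (by rw [L _ _ (by omega) (by omega) (by omega) (by omega)]; omega)
      rw [L _ _ (by omega) (by omega) (by omega) (by omega)] at k1
      have e1 : i' = 1 := by omega
      have e2 : j' = 1 := by omega
      subst e1 e2
      rw [sub_add_cancel, g1] at k2
      rw [sub_add_cancel, g2] at k3
      exact h.2.2 (k2.trans k3.symm)
    by_cases hcl : col C c0 k = false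
    · have hnp : ¬ RP C n (n * C.A k) (n * k - 1) := by
        rw [L _ _ (by omega) (by omega) (by omega) (by omega)]; omega
      have hRT : RT C n cr (n * C.A k) (n * k - 1) :=
        Or.inr (Or.inl ⟨hnp, Or.inr (Or.inr (Or.inl (by rw [sub_add_cancel]; exact hq)))⟩)
      refine ⟨n * C.A k, n * k, n * C.A k, n * k - 1, by rw [q3], by rw [q4], Or.inl rfl, Or.inr rfl,
        hRT, hnp, by rw [g1, hcl], nd _ _ hRT hnp (by omega),
        ⟨n * C.A k, n * k, Or.inl rfl, Or.inl rfl, hq, Or.inl rfl⟩, Or.inl ⟨?_, ?_⟩,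
        Or.inl ⟨?_, by omega, Or.inl ⟨?_, ?_⟩⟩⟩
      · unfold nm sdp
        rw [q3, q4, g3, if_pos hcl]
        simp
      · have e : 2 * (n * C.A k) - 1 - n * C.A k = n * C.A k - 1 := by ring
        rw [e]; exact hf
      · rw [g3, if_pos hcl]; decide
      · unfold nm sdp
        rw [q3, q4, g3, if_pos hcl]
        simp
      · unfold sn
        rw [q3, q4, g3, if_pos hcl, if_neg (by decide), if_neg (by decide), if_pos rfl,
          if_neg (by rcases hk with hk | hk <;> omega)]
    · have hcl' := bool_ne h.2.2 hcl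
      have hnp : ¬ RP C n (n * C.A k - 1) (n * k) := by
        rw [L _ _ (by omega) (by omega) (by omega) (by omega)]; omega
      have hRT : RT C n cr (n * C.A k - 1) (n * k) :=
        Or.inr (Or.inl ⟨hnp, Or.inl (by rw [sub_add_cancel]; exact hq)⟩)
      refine ⟨n * C.A k, n * k, n * C.A k - 1, n * k, by rw [q3], by rw [q4], Or.inr rfl, Or.inl rfl,
        hRT, hnp, by rw [g2, hcl'], nd _ _ hRT hnp (by omega),
        ⟨n * C.A k, n * k, Or.inl rfl, Or.inl rfl, hq, Or.inr rfl⟩, Or.inr ⟨?_, ?_⟩,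
        Or.inl ⟨?_, by omega, Or.inr ⟨?_, ?_⟩⟩⟩
      · unfold nm sdp
        rw [q3, q4, g3, if_neg hcl]
        simp
      · have e : 2 * (n * k) - 1 - n * k = n * k - 1 := by ring
        rw [e]; exact hf
      · rw [g3, if_neg hcl]; decide
      · unfold nm sdp
        rw [q3, q4, g3, if_neg hcl]
        simp
      · unfold sn
        rw [q3, q4, g3, if_neg hcl, if_neg (by decide), if_neg (by decide), if_neg (by decide),
          if_pos hk]
  · -- TL
    have L := loc_TL hn hk
    obtain ⟨q1, q2, q3, q4⟩ := qTL hk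
    obtain ⟨g1, g2, g3⟩ := fTL (cr := cr) (c0 := c0) hn hk
    have hAW : n * C.A (k - 1) + n ≤ n * C.W := by
      refine Pool.Agent.H54.W.CD.mul_lt hp (C.AW (k - 1) ?_ ?_) <;> rcases hk with hk | hk <;> omega
    have hq : RP C n (n * C.A (k - 1)) (n * k - 1) := by
      rw [L _ _ (by omega) (by omega) (by omega) (by omega)]; omega
    have hf : ¬ RT C n cr (n * C.A (k - 1) - 1) (n * k) := by
      intro hf
      obtain ⟨i', j', hi', hj', k1, k2, k3⟩ := dg_of hf
        (by rw [L _ _ (by omega) (by omega) (by omega) (by omega)]; omega)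
        (by rw [L _ _ (by omega) (by omega) (by omega) (by omega)]; omega)
        (by rw [L _ _ (by omega) (by omega) (by omega) (by omega)]; omega)
        (by rw [L _ _ (by omega) (by omega) (by omega) (by omega)]; omega)
        (by rw [L _ _ (by omega) (by omega) (by omega) (by omega)]; omega)
      rw [L _ _ (by omega) (by omega) (by omega) (by omega)] at k1
      have e1 : i' = 1 := by omega
      have e2 : j' = -1 := by omega
      subst e1 e2
      rw [sub_add_cancel, g2] at k2
      rw [← sub_eq_add_neg, g1] at k3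
      exact h.2.2 (k3.trans k2.symm)
    by_cases hcl : col C c0 k = false
    · have hnp : ¬ RP C n (n * C.A (k - 1) - 1) (n * k - 1) := by
        rw [L _ _ (by omega) (by omega) (by omega) (by omega)]; omega
      have hRT : RT C n cr (n * C.A (k - 1) - 1) (n * k - 1) :=
        Or.inr (Or.inl ⟨hnp, Or.inl (by rw [sub_add_cancel]; exact hq)⟩)
      refine ⟨n * C.A (k - 1), n * k, n * C.A (k - 1) - 1, n * k - 1, by rw [q3], by rw [q4], Or.inr rfl,
        Or.inr rfl, hRT, hnp, by rw [g1, hcl], nd _ _ hRT hnp (by omega),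
        ⟨n * C.A (k - 1), n * k - 1, Or.inl rfl, Or.inr rfl, hq, Or.inr rfl⟩, Or.inr ⟨?_, ?_⟩,
        Or.inl ⟨?_, by omega, Or.inr ⟨?_, ?_⟩⟩⟩
      · unfold nm sdp
        rw [q3, q4, g3, if_pos hcl]
        simp
      · have e : 2 * (n * k) - 1 - (n * k - 1) = n * k := by ring
        rw [e]; exact hf
      · rw [g3, if_pos hcl]; decide
      · unfold nm sdp
        rw [q3, q4, g3, if_pos hcl]
        simp
      · unfold sn
        rw [q3, q4, g3, if_pos hcl, if_neg (by decide), if_neg (by decide), if_neg (by decide),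
          if_neg (by unfold BLk; rcases hk with hk | hk <;> omega)]
    · have hcl' := bool_ne h.2.2 hcl
      have hnp : ¬ RP C n (n * C.A (k - 1)) (n * k) := by
        rw [L _ _ (by omega) (by omega) (by omega) (by omega)]; omega
      have hRT : RT C n cr (n * C.A (k - 1)) (n * k) :=
        Or.inr (Or.inl ⟨hnp, Or.inr (Or.inr (Or.inr hq))⟩)
      refine ⟨n * C.A (k - 1), n * k, n * C.A (k - 1), n * k, by rw [q3], by rw [q4], Or.inl rfl,
        Or.inl rfl, hRT, hnp, by rw [g2, hcl'], nd _ _ hRT hnp (by omega),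
        ⟨n * C.A (k - 1), n * k - 1, Or.inl rfl, Or.inr rfl, hq, Or.inl rfl⟩, Or.inl ⟨?_, ?_⟩,
        Or.inl ⟨?_, by omega, Or.inl ⟨?_, ?_⟩⟩⟩
      · unfold nm sdp
        rw [q3, q4, g3, if_neg hcl]
        simp
      · have e : 2 * (n * C.A (k - 1)) - 1 - n * C.A (k - 1) = n * C.A (k - 1) - 1 := by ring
        rw [e]; exact hf
      · rw [g3, if_neg hcl]; decide
      · unfold nm sdp
        rw [q3, q4, g3, if_neg hcl]
        simp
      · unfold sn
        rw [q3, q4, g3, if_neg hcl, if_neg (by decide), if_pos rfl,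
          if_neg (by rcases hk with hk | hk <;> omega)]
  · -- NE
    have L := loc_NE (C := C) hn
    obtain ⟨g1, g2, g3⟩ := fNE (C := C) (cr := cr) (c0 := c0) hn cr1
    have hnH := nH_pos (C := C) hp
    have hq := RP_right (C := C) (y := n * C.H - 1) hp (by omega) (by omega)
    have hf : ¬ RT C n cr (n * C.W) (n * C.H) := by
      intro hf
      obtain ⟨i', j', hi', hj', k1, k2, k3⟩ := dg_of hf
        (by rw [L _ _ (by omega) (by omega) (by omega) (by omega)]; omega)
        (by rw [L _ _ (by omega) (by omega) (by omega) (by omega)]; omega)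
        (by rw [L _ _ (by omega) (by omega) (by omega) (by omega)]; omega)
        (by rw [L _ _ (by omega) (by omega) (by omega) (by omega)]; omega)
        (by rw [L _ _ (by omega) (by omega) (by omega) (by omega)]; omega)
      rw [L _ _ (by omega) (by omega) (by omega) (by omega)] at k1
      have e1 : i' = -1 := by omega
      have e2 : j' = -1 := by omega
      subst e1 e2
      rw [← sub_eq_add_neg, g1] at k2
      rw [← sub_eq_add_neg, g2] at k3
      exact h.2.2 (k2.trans k3.symm)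
    by_cases hcl : col C c0 (C.H + 1) = false
    · have hnp : ¬ RP C n (n * C.W - 1) (n * C.H) := by
        rw [L _ _ (by omega) (by omega) (by omega) (by omega)]; omega
      have hRT : RT C n cr (n * C.W - 1) (n * C.H) :=
        Or.inr (Or.inl ⟨hnp, Or.inr (Or.inr (Or.inr hq))⟩)
      refine ⟨n * C.W, n * C.H, n * C.W - 1, n * C.H, by rw [qNE.1], by rw [qNE.2], Or.inr rfl,
        Or.inl rfl, hRT, hnp, by rw [g1, hcl], nd _ _ hRT hnp (by omega),
        ⟨n * C.W - 1, n * C.H - 1, Or.inr rfl, Or.inr rfl, hq, Or.inl rfl⟩, Or.inl ⟨?_, ?_⟩,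
        Or.inl ⟨?_, by omega, Or.inl ⟨?_, ?_⟩⟩⟩
      · unfold nm sdp
        rw [qNE.1, qNE.2, g3, if_pos hcl]
        simp
      · have e : 2 * (n * C.W) - 1 - (n * C.W - 1) = n * C.W := by ring
        rw [e]; exact hf
      · rw [g3, if_pos hcl]; decide
      · unfold nm sdp
        rw [qNE.1, qNE.2, g3, if_pos hcl]
        simp
      · unfold sn
        rw [qNE.1, qNE.2, g3, if_pos hcl]
        simp
    · have hcl' := bool_ne h.2.2 hcl
      refine ⟨n * C.W, n * C.H, n * C.W, n * C.H - 1, by rw [qNE.1], by rw [qNE.2], Or.inl rfl,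
        Or.inr rfl, RT_right hp (by omega) (by omega), nRP_x le_rfl, by rw [g2, hcl'], by omega,
        ⟨n * C.W - 1, n * C.H - 1, Or.inr rfl, Or.inr rfl, hq, Or.inr rfl⟩, Or.inr ⟨?_, ?_⟩,
        Or.inr ⟨?_, rfl, by omega, by omega, ?_⟩⟩
      · unfold nm sdp
        rw [qNE.1, qNE.2, g3, if_neg hcl]
        simp
      · have e : 2 * (n * C.H) - 1 - (n * C.H - 1) = n * C.H := by ring
        rw [e]; exact hf
      · rw [g3, if_neg hcl]
      · unfold sn nm sdp
        rw [qNE.1, qNE.2, g3, if_neg hcl]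
        simp

/-! ### Where a strand of the room can end -/

lemma sq_eW_left (i y : ℤ) : Pool.Agent.H45.W.sq (eW (lt (i, y))) (lt (i - 1, y)) := by
  unfold Pool.Agent.H45.W.sq eW lt; simp only; omega

lemma sq_eW_right (i y : ℤ) : Pool.Agent.H45.W.sq (eW (lt (i, y))) (lt (i, y)) := sq_eW _

lemma sq_eS_dn (x j : ℤ) : Pool.Agent.H45.W.sq (eS (lt (x, j))) (lt (x, j - 1)) := by
  unfold Pool.Agent.H45.W.sq eS lt; simp only; omega

lemma sq_eS_up (x j : ℤ) : Pool.Agent.H45.W.sq (eS (lt (x, j))) (lt (x, j)) := sq_eS _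

lemma sq_eW_pt {i j y : ℤ} (h : y = j ∨ y = j - 1) :
    Pool.Agent.H45.W.sq (eW (lt (i, y))) (pt i j) := by
  unfold Pool.Agent.H45.W.sq eW lt pt; simp only; omega

lemma sq_eS_pt {i j x : ℤ} (h : x = i ∨ x = i - 1) :
    Pool.Agent.H45.W.sq (eS (lt (x, j))) (pt i j) := by
  unfold Pool.Agent.H45.W.sq eS lt pt; simp only; omega

lemma od_lt (x y : ℤ) : od (lt (x, y)) := lt_odd _

/-- the two tiles of a vertical side -/
lemma tiles_eW {e : ℤ × ℤ} (ho : od e) (h : Pool.Agent.H45.W.sq (eW (lt (i, y))) e) :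
    e = lt (i, y) ∨ e = lt (i - 1, y) := by
  obtain ⟨a, b⟩ := e
  unfold Pool.Agent.H45.W.sq eW lt od at *
  simp only [Prod.mk.injEq] at *
  omega

lemma tiles_eS {e : ℤ × ℤ} (ho : od e) (h : Pool.Agent.H45.W.sq (eS (lt (x, j))) e) :
    e = lt (x, j) ∨ e = lt (x, j - 1) := by
  obtain ⟨a, b⟩ := e
  unfold Pool.Agent.H45.W.sq eS lt od at *
  simp only [Prod.mk.injEq] at *
  omega

lemma lt_congr {x x' y y' : ℤ} (h : x = x') (h' : y = y') : lt (x, y) = lt (x', y') := by rw [h, h']

/-- the named end in label coordinates: tiles `lt (x, y)` and `o` -/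
lemma NmT.sides {i j : ℤ} (h : NmT C n cr c0 x0 r k i j x y) : ∃ o, od o ∧ o ∉ LR C n cr ∧
    Pool.Agent.H45.W.sq (nm C c0 n k) (lt (x, y)) ∧ Pool.Agent.H45.W.sq (nm C c0 n k) o ∧
    Pool.Agent.H45.W.sq (nm C c0 n k) (pt i j) ∧
    ∀ e, od e → Pool.Agent.H45.W.sq (nm C c0 n k) e → e = lt (x, y) ∨ e = o := by
  rcases h.en with ⟨h1, h2⟩ | ⟨h1, h2⟩
  · rw [h1]
    refine ⟨lt (2 * i - 1 - x, y), od_lt _ _, fun k => h2 (mem_LR.1 k), ?_, ?_, sq_eW_pt h.hy, ?_⟩
    · rcases h.hx with e | e <;> rw [e]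
      · exact sq_eW_right _ _
      · exact sq_eW_left _ _
    · rcases h.hx with e | e <;> rw [e]
      · have e1 : 2 * i - 1 - i = i - 1 := by ring
        rw [e1]; exact sq_eW_left _ _
      · have e1 : 2 * i - 1 - (i - 1) = i := by ring
        rw [e1]; exact sq_eW_right _ _
    · intro e he hs
      rcases tiles_eW he hs with g | g <;> rcases h.hx with e' | e' <;> rw [g, e']
      · exact Or.inl rfl
      · right; exact lt_congr (by omega) (by omega)
      · right; exact lt_congr (by omega) (by omega)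
      · exact Or.inl rfl
  · rw [h1]
    refine ⟨lt (x, 2 * j - 1 - y), od_lt _ _, fun k => h2 (mem_LR.1 k), ?_, ?_, sq_eS_pt h.hx, ?_⟩
    · rcases h.hy with e | e <;> rw [e]
      · exact sq_eS_up _ _
      · exact sq_eS_dn _ _
    · rcases h.hy with e | e <;> rw [e]
      · have e1 : 2 * j - 1 - j = j - 1 := by ring
        rw [e1]; exact sq_eS_dn _ _
      · have e1 : 2 * j - 1 - (j - 1) = j := by ring
        rw [e1]; exact sq_eS_up _ _
    · intro e he hs
      rcases tiles_eS he hs with g | g <;> rcases h.hy with e' | e' <;> rw [g, e']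
      · exact Or.inl rfl
      · right; exact lt_congr (by omega) (by omega)
      · right; exact lt_congr (by omega) (by omega)
      · exact Or.inl rfl

/-- both tiles at the moving end belong to the room graph -/
lemma z_tiles (hn : 8 ≤ n) (hr0 : 0 < r) (hr1 : r + 1 < n * C.H) (hx0 : n * C.A (r / n) ≤ x0)
    (hx1 : x0 ≤ n * C.W) : RT C n cr x0 r ∧ RT C n cr (x0 - 1) r ∧
      (RP C n x0 r ∨ RP C n (x0 - 1) r) := by
  have hp : 0 < n := by omega
  have ha := a_lt (C := C) hp hr0.le (by omega)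
  rcases eq_or_lt_of_le hx1 with h | h
  · subst h
    have h1 := RP_right (C := C) hp hr0.le (by omega)
    exact ⟨RT_right hp hr0.le (by omega), Or.inl h1, Or.inr h1⟩
  · have h1 : RP C n x0 r := ⟨hr0.le, by omega, hx0, h⟩
    refine ⟨Or.inl h1, ?_, Or.inl h1⟩
    rcases eq_or_lt_of_le hx0 with h2 | h2
    · refine Or.inr (Or.inl ⟨?_, Or.inl (by rw [sub_add_cancel]; exact h1)⟩)
      unfold RP; omega
    · exact Or.inl ⟨hr0.le, by omega, by omega, by omega⟩

section facts

variable (hn : 8 ≤ n) (he : n % 2 = 0) (hc : CrOk cr c0 r) (hr0 : 0 < r) (hr1 : r + 1 < n * C.H)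
  (hx0 : n * C.A (r / n) ≤ x0) (hx1 : x0 ≤ n * C.W) {ω : Finset (ℤ × ℤ)} (hω : ω ⊆ ER C n)

variable (C n cr c0 x0 r ω) in
/-- the inner sides of the room graph -/
def Inn : Set (ℤ × ℤ) :=
  {c | AS (Qr C n) (LR C n cr) (DR x0 r) (WR0 C n cr ∪ ω) (Nm C n c0 ∪ {eW (lt (x0, r))}) c}

include hn hr0 hr1 hx0 hx1 in
lemma z_mem : eW (lt (x0, r)) ∈ Inn C n cr x0 r c0 ω := by
  left
  rcases (z_tiles (cr := cr) hn hr0 hr1 hx0 hx1).2.2 with h | h
  · exact ⟨_, mem_Qr.2 h, sq_eW_right _ _⟩
  · exact ⟨_, mem_Qr.2 h, sq_eW_left _ _⟩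

include hn he hc hr0 hr1 hx0 hω in
lemma nm_mem (h : Mk C c0 k) : nm C c0 n k ∈ Inn C n cr x0 r c0 ω := by
  have hp : 0 < n := by omega
  obtain ⟨i, j, x, y, T⟩ := nm_tiles hn hc hr0 hr1 hx0 h
  obtain ⟨o, ho, hoL, s1, s2, s3, s4⟩ := T.sides
  right
  refine ⟨pt i j, ev_pt i j, s3, ?_, ?_⟩
  · obtain ⟨x', y', h1, h2, h3, -⟩ := T.nr
    exact PB_iff.2 ⟨x', y', h1, h2, h3⟩
  · intro e he' hs
    rcases s4 e he' hs with rfl | rfl
    · left
      refine ⟨mem_LR.2 T.rt, fun g => T.nd (mem_DR.1 g), ?_⟩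
      have h1 : lt (x, y) ∉ WR0 C n cr ∪ ω := by
        rw [mem_union, mem_WR0 hp]
        rintro (g | g)
        · have := g.2.2; rw [T.cl] at this; simp at this
        · exact T.np ((mem_ER hp).1 (hω g))
      have h2 : ¬ (pt i j).1 % 2 = 1 := by
        have e1 := even_mul he (qx C k)
        have e2 := even_mul he (qy C k)
        rw [← T.hi] at e1
        rw [← T.hj] at e2
        unfold pt
        simp only
        omega
      exact iff_of_false h1 h2
    · right; right
      exact ⟨hoL, Or.inl ⟨k, h, rfl⟩⟩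

/-- an inner side with a missing tile is a named end -/
lemma F2 (hn : 8 ≤ n) (hr0 : 0 < r) (hr1 : r + 1 < n * C.H) (hx0 : n * C.A (r / n) ≤ x0)
    (hx1 : x0 ≤ n * C.W) {c e : ℤ × ℤ} (h : c ∈ Inn C n cr x0 r c0 ω) (ho : od e)
    (hs : Pool.Agent.H45.W.sq c e) (he' : e ∉ LR C n cr) : c ∈ Nm C n c0 := by
  have hp : 0 < n := by omega
  rcases h with ⟨e1, ⟨x, y, rfl, hq⟩, h2⟩ | ⟨P, -, -, -, h4⟩
  · exfalso
    rcases lab_cases' (od_lt x y) h2 ho hs with g | g
    · rw [g] at he'
      exact he' (mem_LR.2 (Or.inl hq))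
    · apply he'
      rw [g]
      have key : ∀ x' y', (x = x' + 1 ∧ y = y' ∨ x = x' - 1 ∧ y = y' ∨ x = x' ∧ y = y' + 1 ∨
          x = x' ∧ y = y' - 1) → lt (x', y') ∈ LR C n cr := by
        intro x' y' hh
        rw [mem_LR]
        by_cases h1 : RP C n x' y'
        · exact Or.inl h1
        · refine Or.inr (Or.inl ⟨h1, ?_⟩)
          rcases hh with ⟨rfl, rfl⟩ | ⟨rfl, rfl⟩ | ⟨rfl, rfl⟩ | ⟨rfl, rfl⟩
          · exact Or.inl hq
          · exact Or.inr (Or.inl hq)
          · exact Or.inr (Or.inr (Or.inl hq))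
          · exact Or.inr (Or.inr (Or.inr hq))
      rcases nbr h2 with e2 | e2 | e2 | e2 <;> rw [e2] <;> apply key <;> omega
  · rcases h4 e ho hs with ⟨g, -⟩ | ⟨g, -⟩ | ⟨-, g⟩
    · exact absurd g he'
    · exact absurd g he'
    · rcases g with g | g
      · exact g
      · exfalso
        rw [Set.mem_singleton_iff] at g
        rw [g] at hs
        obtain ⟨t1, t2, -⟩ := z_tiles (C := C) (cr := cr) hn hr0 hr1 hx0 hx1
        rcases tiles_eW ho hs with g' | g' <;> rw [g'] at he'
        · exact he' (mem_LR.2 t1)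
        · exact he' (mem_LR.2 t2)

end facts

end

end Pool.Agent.H29.W
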