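import Mathlib
import Pool.Agent.H29.W.RoomW
import Pool.Agent.H47.W.Room3

set_option autoImplicit false
open Finset

/-! # The link pattern of a room

Names: `none` = the moving end, `some k` = helper20's mark `k`. `act_room` : in the room graph every name is
joined to exactly one other name (helper47's `Act`; `sgp` is the partner function). `nm_inj` : the named ends
are different. -/

namespace Pool.Agent.H29.W

open Pool.Agent.H75.Perc hiding WL CT hh PB
open Pool.Agent.H75.TwoArm Pool.Agent.H99.W Pool.Agent.H13.W Pool.Agent.H33.Q1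
open Pool.Agent.H54.W (CD)
open Pool.Agent.H21.W Pool.Agent.H20.W
open Pool.Agent.H45.W
open Pool.Agent.H47.W (Act Act_of sgp)

section

variable {C : CD} {n : ℤ} {cr : ℤ → Bool} {x y x0 r i j k k' : ℤ} {c0 : Bool}

lemma q_inj (h : Mk C c0 k) (h' : Mk C c0 k') (h1 : qx C k = qx C k') (h2 : qy C k = qy C k') :
    k = k' := by
  have hH := C.H0
  have a0 := C.AW 0 le_rfl C.H0
  have a1 := C.AW (C.H - 1) (by omega) (by omega)
  have key : ∀ t, Mk C c0 t → (t = -1 ∧ qx C t = C.W ∧ qy C t = 0) ∨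
      (t = C.H + 1 ∧ qx C t = C.W ∧ qy C t = C.H) ∨ (0 ≤ t ∧ t ≤ C.H ∧ qy C t = t ∧
        (t = 0 → qx C t = C.A 0) ∧ (t = C.H → qx C t = C.A (C.H - 1))) := by
    intro t ht
    rcases Mk_cases ht with rfl | hk | hk | rfl
    · exact Or.inl ⟨rfl, qSE.1, qSE.2⟩
    · obtain ⟨q1, q2, q3, q4⟩ := qBL hk
      right; right
      have h5 : 0 ≤ t ∧ t < C.H := by rcases hk with hk | hk <;> omega
      exact ⟨h5.1, h5.2.le, q4, fun e => by rw [q3, e], fun e => by omega⟩
    · obtain ⟨q1, q2, q3, q4⟩ := qTL hk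
      right; right
      have h5 : 0 < t ∧ t ≤ C.H := by rcases hk with hk | hk <;> omega
      exact ⟨h5.1.le, h5.2, q4, fun e => by omega, fun e => by rw [q3, e]⟩
    · exact Or.inr (Or.inl ⟨rfl, qNE.1, qNE.2⟩)
  rcases key k h with ⟨e1, e2, e3⟩ | ⟨e1, e2, e3⟩ | ⟨e1, e2, e3, e4, e5⟩ <;>
    rcases key k' h' with ⟨g1, g2, g3⟩ | ⟨g1, g2, g3⟩ | ⟨g1, g2, g3, g4, g5⟩
  · omega
  · omega
  · exfalso
    have : k' = 0 := by omega
    have := g4 this
    omega
  · omega
  · omega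
  · exfalso
    have : k' = C.H := by omega
    have := g5 this
    omega
  · exfalso
    have : k = 0 := by omega
    have := e4 this
    omega
  · exfalso
    have : k = C.H := by omega
    have := e5 this
    omega
  · omega

lemma close_mul {a b : ℤ} (hn : 8 ≤ n) (h1 : n * a - n * b ≤ 2) (h2 : n * b - n * a ≤ 2) : a = b := by
  rcases lt_trichotomy a b with h | h | h
  · have := Pool.Agent.H54.W.CD.mul_lt (n := n) (by omega) h; omega
  · exact h
  · have := Pool.Agent.H54.W.CD.mul_lt (n := n) (by omega) h; omega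

/-- **the named ends are different** -/
theorem nm_inj (hn : 8 ≤ n) (hH : 2 < n * C.H) (h : Mk C c0 k) (h' : Mk C c0 k')
    (e : nm C c0 n k = nm C c0 n k') : k = k' := by
  have hp : 0 < n := by omega
  -- a right wall which is admissible
  have hc : CrOk (crz c0 1) c0 1 := by
    refine ⟨fun y hy => ?_, fun y hy => ?_⟩
    · unfold crz; rw [if_pos hy]
    · unfold crz; rw [if_neg (by omega)]
  obtain ⟨i, j, x, y, T⟩ := nm_tiles (x0 := n * C.A (1 / n)) hn hc one_pos (by omega) le_rfl h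
  obtain ⟨i', j', x', y', T'⟩ := nm_tiles (x0 := n * C.A (1 / n)) hn hc one_pos (by omega) le_rfl h'
  obtain ⟨-, -, -, -, -, s, -⟩ := T.sides
  obtain ⟨-, -, -, -, -, s', -⟩ := T'.sides
  rw [← e] at s'
  have hh : i - i' ≤ 2 ∧ i' - i ≤ 2 ∧ j - j' ≤ 2 ∧ j' - j ≤ 2 := by
    unfold Pool.Agent.H45.W.sq pt at s s'
    simp only at s s'
    omega
  have := T.hi; have := T.hj; have := T'.hi; have := T'.hj
  exact q_inj h h' (close_mul hn (by omega) (by omega)) (close_mul hn (by omega) (by omega))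

variable (C c0 n x0 r) in
/-- names: `none` = the moving end, `some k` = the mark `k` -/
def cn : Option ℤ → ℤ × ℤ
  | none => eW (lt (x0, r))
  | some k => nm C c0 n k

variable (C c0) in
/-- active names -/
def An : Option ℤ → Prop
  | none => True
  | some k => Mk C c0 k

lemma nm_ne_z (hn : 8 ≤ n) (hc : CrOk cr c0 r) (hr0 : 0 < r) (hr1 : r + 1 < n * C.H)
    (hx0 : n * C.A (r / n) ≤ x0) (hx1 : x0 ≤ n * C.W) (h : Mk C c0 k) :
    nm C c0 n k ≠ eW (lt (x0, r)) := by
  intro e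
  obtain ⟨i, j, x, y, T⟩ := nm_tiles hn hc hr0 hr1 hx0 h
  obtain ⟨o, ho, hoL, s1, s2, s3, s4⟩ := T.sides
  obtain ⟨t1, t2, -⟩ := z_tiles (C := C) (cr := cr) hn hr0 hr1 hx0 hx1
  rw [e] at s2
  rcases tiles_eW ho s2 with g' | g' <;> rw [g'] at hoL
  · exact hoL (mem_LR.2 t1)
  · exact hoL (mem_LR.2 t2)

/-- **The link pattern of a room**: every name is joined to exactly one other name. -/
theorem act_room (hn : 8 ≤ n) (he : n % 2 = 0) (hc : CrOk cr c0 r) (hr0 : 0 < r)
    (hr1 : r + 1 < n * C.H) (hx0 : n * C.A (r / n) ≤ x0) (hx1 : x0 ≤ n * C.W)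
    {ω : Finset (ℤ × ℤ)} (hω : ω ⊆ ER C n) :
    Act (SG (LR C n cr) (DR x0 r) (WR0 C n cr ∪ ω)) (An C c0) (cn C n x0 r c0) := by
  have hp : 0 < n := by omega
  have hW := wld_room hn he hc hr0 hr1 hx0 hx1 hω
  have hnb : ∀ a, An C c0 a → ∃ x, (SG (LR C n cr) (DR x0 r) (WR0 C n cr ∪ ω)).Adj
      (cn C n x0 r c0 a) x := by
    intro a ha
    cases a with
    | none =>
      obtain ⟨t1, t2, -⟩ := z_tiles (C := C) (cr := cr) hn hr0 hr1 hx0 hx1
      obtain ⟨d, hd⟩ := exists_nb (D := DR x0 r) (w := WR0 C n cr ∪ ω) (od_lt (x0 - 1) r)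
        (sq_eW_left x0 r) (Or.inl fun h => by have := (mem_DR.1 h).2; omega)
      exact ⟨d, lt (x0 - 1, r), mem_LR.2 t2, hd⟩
    | some k =>
      obtain ⟨i, j, x, y, T⟩ := nm_tiles hn hc hr0 hr1 hx0 ha
      obtain ⟨o, ho, hoL, s1, s2, s3, s4⟩ := T.sides
      obtain ⟨d, hd⟩ := exists_nb (D := DR x0 r) (w := WR0 C n cr ∪ ω) (od_lt x y) s1
        (Or.inl fun h => T.nd (mem_DR.1 h))
      exact ⟨d, lt (x, y), mem_LR.2 T.rt, hd⟩
  have hmem : ∀ a, An C c0 a → cn C n x0 r c0 a ∈ Inn C n cr x0 r c0 ω := by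
    intro a ha
    cases a with
    | none => exact z_mem hn hr0 hr1 hx0 hx1
    | some k => exact nm_mem hn he hc hr0 hr1 hx0 hω ha
  refine Act_of (fin_LR hp) ?_ hnb ?_ ?_
  · intro a ha
    cases a with
    | none => exact isEnd_eW (mem_DR.2 ⟨rfl, le_rfl⟩) (lt_odd _)
    | some k =>
      obtain ⟨i, j, x, y, T⟩ := nm_tiles hn hc hr0 hr1 hx0 ha
      obtain ⟨o, ho, hoL, s1, s2, s3, s4⟩ := T.sides
      apply isEnd_of_notMem
      rcases (lab_iff _ _).2 ⟨ho, s2⟩ with g | g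
      · left; show lab (nm C c0 n k) ∉ _; rw [← g]; exact hoL
      · right; show plab (nm C c0 n k) ∉ _; rw [← g]; exact hoL
  · intro a b ha hb e
    cases a with
    | none =>
      cases b with
      | none => rfl
      | some k => exact absurd e.symm (nm_ne_z hn hc hr0 hr1 hx0 hx1 hb)
    | some k =>
      cases b with
      | none => exact absurd e (nm_ne_z hn hc hr0 hr1 hx0 hx1 ha)
      | some k' => rw [nm_inj hn (by omega) ha hb e]
  · intro a ha y hy hr
    have h1 : y ∈ Inn C n cr x0 r c0 ω := hW.reach_mem (hmem a ha) hr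
    have h2 : ∃ x, (SG (LR C n cr) (DR x0 r) (WR0 C n cr ∪ ω)).Adj y x := by
      obtain ⟨p⟩ := hr.symm
      cases p with
      | nil => exact hnb a ha
      | cons h _ => exact ⟨_, h⟩
    rcases hW.end_mem h1 hy h2 with ⟨k, hk, rfl⟩ | h3
    · exact ⟨some k, hk, rfl⟩
    · rw [Set.mem_singleton_iff] at h3
      exact ⟨none, trivial, h3.symm⟩

end

end Pool.Agent.H29.W
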