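import Mathlib
import Pool.Agent.H29.W.RoomG

set_option autoImplicit false
open Finset

/-! # Room form: abstract gluing with names and leaves

`leaf` : ends which are not adjacent to each other can be removed. `glue_names` : the union of two graphs
which meet in named points; the connection from `z` to a far end is a chain of links of the two patterns,
followed by a link of the second graph. -/

namespace Pool.Agent.H29.W

open Pool.Agent.H99.W

section graph

variable {α : Type*}

/-- **Removal of leaves.** -/
theorem leaf {G : SimpleGraph α} {L : Set α} (hL : ∀ l ∈ L, IsEnd G l) {x y : α} (hx : x ∉ L)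
    (hy : y ∉ L) : G.Reachable x y ↔ (off G L).Reachable x y := by
  constructor
  · rintro ⟨p⟩
    have key : ∀ (a b : α) (_ : G.Walk a b), b ∉ L → (a ∉ L → (off G L).Reachable a b) ∧
        (a ∈ L → ∀ c, G.Adj a c → c ∉ L → (off G L).Reachable c b) := by
      intro a b p
      induction p with
      | nil => exact fun hb => ⟨fun _ => SimpleGraph.Reachable.refl _, fun ha => absurd ha hb⟩
      | @cons a v b hav _ ih =>
        intro hb
        obtain ⟨i1, i2⟩ := ih hb
        constructor
        · intro ha
          by_cases hv : v ∈ L
          · exact i2 hv a hav.symm ha
          · have h1 : (off G L).Adj a v := ⟨hav, ha, hv⟩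
            exact h1.reachable.trans (i1 hv)
        · intro ha c hc hcL
          have : v = c := hL a ha _ _ hav hc
          subst this
          exact i1 hcL
    exact (key x y p hy).1 hx
  · exact fun h => h.mono (off_le G L)

/-- **Gluing with names.** -/
theorem glue_names {G1 G2 : SimpleGraph α} {N : Type*} {p : N → α} {z y : α}
    (hS : ∀ v a b, G1.Adj v a → G2.Adj v b → v ∈ Set.range p) (hz : ∀ b, ¬ G2.Adj z b)
    (hzp : z ∉ Set.range p) (hy : (∀ b, ¬ G1.Adj y b) ∨ y ∈ Set.range p) (hyz : y ≠ z) :
    (G1 ⊔ G2).Reachable z y ↔ ∃ a : N, Relation.ReflTransGen (fun m m' : Option N =>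
      G1.Reachable (m.elim z p) (m'.elim z p) ∨ ∃ b b', m = some b ∧ m' = some b' ∧
        G2.Reachable (p b) (p b')) none (some a) ∧ G2.Reachable (p a) y := by
  set Q : Option N → Option N → Prop := fun m m' : Option N =>
      G1.Reachable (m.elim z p) (m'.elim z p) ∨ ∃ b b', m = some b ∧ m' = some b' ∧
        G2.Reachable (p b) (p b') with hQ
  set f : Option N → α := fun m => m.elim z p with hf
  have hzO : ∀ y, G2.Reachable z y → y = z := by
    rintro y ⟨q⟩
    cases q with
    | nil => rfl
    | cons h _ => exact absurd h (hz _)
  constructor
  · intro h
    set S : Set α := Set.range f ∪ {y} with hSdef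
    have hSS : ∀ v a b, G1.Adj v a → G2.Adj v b → v ∈ S := by
      intro v a b h1 h2
      obtain ⟨n, hn⟩ := hS v a b h1 h2
      exact Or.inl ⟨some n, hn⟩
    rw [reach_sup_iff (x := z) (y := y) hSS (Or.inl ⟨none, rfl⟩) (Or.inr rfl)] at h
    have hyG : y ∉ Set.range f → ∀ b, ¬ G1.Adj y b := by
      intro h1
      rcases hy with h2 | ⟨n, hn⟩
      · exact h2
      · exact absurd ⟨some n, hn⟩ h1
    have hno : ∀ b, b ∉ Set.range f → b ∈ S → ∀ c, G1.Reachable b c → c = b := by
      rintro b hb hbS c ⟨q⟩
      have hby : b = y := by
        rcases hbS with h1 | h1
        · exact absurd h1 hb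
        · exact h1
      subst hby
      cases q with
      | nil => rfl
      | cons h1 _ => exact absurd h1 (hyG hb _)
    have key : ∀ c, Relation.ReflTransGen (fun a b => a ∈ S ∧ b ∈ S ∧ (G1.Reachable a b ∨
        G2.Reachable a b)) z c → c ∈ S ∧ (∀ m, f m = c → Relation.ReflTransGen Q none m) ∧
        (c ∉ Set.range f → ∃ a : N, Relation.ReflTransGen Q none (some a) ∧
          G2.Reachable (p a) c) := by
      intro c hc
      induction hc with
      | refl =>
        refine ⟨Or.inl ⟨none, rfl⟩, fun m hm => ?_, fun h1 => absurd ⟨none, rfl⟩ h1⟩
        refine Relation.ReflTransGen.single (Or.inl ?_)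
        show G1.Reachable z (f m)
        rw [hm]
      | @tail b b' _ hs ih =>
        obtain ⟨hbS, hbS', hr⟩ := hs
        obtain ⟨-, i1, i2⟩ := ih
        refine ⟨hbS', fun m' hm' => ?_, fun hb' => ?_⟩
        · by_cases hb : b ∈ Set.range f
          · obtain ⟨m, hm⟩ := hb
            refine (i1 m hm).tail ?_
            rcases hr with hr | hr
            · left
              show G1.Reachable (f m) (f m')
              rw [hm, hm']; exact hr
            · cases m with
              | none =>
                have hm0 : z = b := hm
                have h1 := hzO b' (hm0 ▸ hr)
                left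
                show G1.Reachable z (f m')
                rw [hm', h1]
              | some a =>
                have hm0 : p a = b := hm
                cases m' with
                | none =>
                  exfalso
                  have hm1 : z = b' := hm'
                  have h1 := hzO b (hm1 ▸ hr.symm)
                  exact hzp ⟨a, by rw [hm0, h1]⟩
                | some a' =>
                  have hm1 : p a' = b' := hm'
                  right
                  exact ⟨a, a', rfl, rfl, by rw [hm0, hm1]; exact hr⟩
          · obtain ⟨a, h1, h2⟩ := i2 hb
            rcases hr with hr | hr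
            · exfalso
              have := hno b hb hbS _ hr
              exact hb ⟨m', by rw [hm', this]⟩
            · have h3 := h2.trans hr
              cases m' with
              | none =>
                exfalso
                have hm1 : z = b' := hm'
                have h4 := hzO (p a) (by rw [hm1]; exact h3.symm)
                exact hzp ⟨a, h4⟩
              | some a' =>
                have hm1 : p a' = b' := hm'
                exact h1.tail (Or.inr ⟨a, a', rfl, rfl, by rw [hm1]; exact h3⟩)
        · by_cases hb : b ∈ Set.range f
          · obtain ⟨m, hm⟩ := hb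
            rcases hr with hr | hr
            · exfalso
              have := hno b' hb' hbS' _ hr.symm
              exact hb' ⟨m, by rw [hm, this]⟩
            · cases m with
              | none =>
                exfalso
                have hm0 : z = b := hm
                have h1 := hzO b' (hm0 ▸ hr)
                exact hb' ⟨none, h1.symm⟩
              | some a =>
                have hm0 : p a = b := hm
                exact ⟨a, i1 (some a) hm, by rw [hm0]; exact hr⟩
          · obtain ⟨a, h1, h2⟩ := i2 hb
            rcases hr with hr | hr
            · have := hno b hb hbS _ hr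
              exact ⟨a, h1, by rw [this]; exact h2⟩
            · exact ⟨a, h1, h2.trans hr⟩
    obtain ⟨-, k1, k2⟩ := key y h
    by_cases hyr : y ∈ Set.range f
    · obtain ⟨m, hm⟩ := hyr
      cases m with
      | none => exact absurd hm.symm hyz
      | some a =>
        have hm0 : p a = y := hm
        exact ⟨a, k1 (some a) hm, by rw [hm0]⟩
    · exact k2 hyr
  · rintro ⟨a, h1, h2⟩
    have key : ∀ m, Relation.ReflTransGen Q none m → (G1 ⊔ G2).Reachable z (f m) := by
      intro m hm
      induction hm with
      | refl => exact SimpleGraph.Reachable.refl _
      | @tail m1 m2 _ hs ih =>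
        refine ih.trans ?_
        rcases hs with hs | ⟨b, b', rfl, rfl, hs⟩
        · exact hs.mono le_sup_left
        · exact hs.mono le_sup_right
    exact (key (some a) h1).trans (h2.mono le_sup_right)

end graph

end Pool.Agent.H29.W
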