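import Mathlib
import Pool.Agent.H29.W.RoomP
import Pool.Agent.H29.W.RoomU

set_option autoImplicit false
open Finset

/-! # A world which contains a room: the value

World `(Λ, D, w)` with `RoomIn`, `φ = tr (-s) s` the shift of the room into the world. `Ii` = inner sides of the
room in the world, `Gin` = the strands of the room, `Gout` = all other tiles and the outer strands of the wall
tiles (does not see the labels of the room), `split2` : the strand graph is `Gin ⊔ Gout`.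
`pass` : a far end is joined to the moving end iff there is a chain of links of `Gin` and `Gout`.
`value_th` : **if the links of `Gout` on the named ends are given by `θ : Th C c0`, the far end joined to the
mark `x j` is reached iff `GT θ` reaches the mark `x j`.** -/

namespace Pool.Agent.H29.W

open Pool.Agent.H75.Perc hiding WL CT hh PB
open Pool.Agent.H75.TwoArm Pool.Agent.H99.W Pool.Agent.H13.W Pool.Agent.H33.Q1
open Pool.Agent.H54.W (CD)
open Pool.Agent.H21.W Pool.Agent.H20.W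
open Pool.Agent.H45.W
open Pool.Agent.H47.W (Act Act_of sgp)

/-! ### Chains -/

section chain

variable {α N : Type*}

/-- one step of a chain: a link of the room or a link of the pattern `q` -/
def Stp (G : SimpleGraph α) (z : α) (p : N → α) (q : N → N → Prop) (m m' : Option N) : Prop :=
  G.Reachable (m.elim z p) (m'.elim z p) ∨ ∃ b b', m = some b ∧ m' = some b' ∧ q b b'

/-- chains and reachability with the pattern as edges -/
theorem chain_reach {G T : SimpleGraph α} {z : α} {p : N → α} {q : N → N → Prop}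
    (h1 : ∀ a b, T.Adj a b → ∃ m m', a = p m ∧ b = p m' ∧ q m m')
    (h2 : ∀ m m', q m m' → (G ⊔ T).Reachable (p m) (p m')) (a : N) :
    (G ⊔ T).Reachable z (p a) ↔ Relation.ReflTransGen (Stp G z p q) none (some a) := by
  constructor
  · rintro ⟨w⟩
    have key : ∀ (c d : α) (_ : (G ⊔ T).Walk c d), (∃ m, Relation.ReflTransGen (Stp G z p q) none m ∧
        G.Reachable (m.elim z p) c) → ∃ m, Relation.ReflTransGen (Stp G z p q) none m ∧
        G.Reachable (m.elim z p) d := by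
      intro c d w
      induction w with
      | nil => exact id
      | @cons c c' d h _ ih =>
        rintro ⟨m, hm, hr⟩
        apply ih
        rcases h with h | h
        · exact ⟨m, hm, hr.trans h.reachable⟩
        · obtain ⟨m1, m2, rfl, rfl, hq⟩ := h1 _ _ h
          refine ⟨some m2, (hm.tail (Or.inl hr : Stp G z p q m (some m1))).tail
            (Or.inr ⟨m1, m2, rfl, rfl, hq⟩), SimpleGraph.Reachable.refl _⟩
    obtain ⟨m, hm, hr⟩ := key _ _ w ⟨none, .refl, SimpleGraph.Reachable.refl _⟩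
    exact hm.tail (Or.inl hr)
  · intro h
    have key : ∀ m, Relation.ReflTransGen (Stp G z p q) none m →
        (G ⊔ T).Reachable z (m.elim z p) := by
      intro m hm
      induction hm with
      | refl => exact SimpleGraph.Reachable.refl _
      | @tail m1 m2 _ hs ih =>
        rcases hs with hs | ⟨b, b', rfl, rfl, hs⟩
        · exact ih.trans (hs.mono le_sup_left)
        · exact ih.trans (h2 _ _ hs)
    exact key _ h

end chain

/-! ### Closed sets of vertices -/

section closed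

variable {α : Type*} {G : SimpleGraph α} {I : Set α}

/-- no edge between `I` and its complement -/
def Clo (G : SimpleGraph α) (I : Set α) : Prop := ∀ a b, a ∈ I → G.Adj a b → b ∈ I

lemma Clo.split (h : Clo G I) : G = off G Iᶜ ⊔ off G I := by
  ext a b
  rw [SimpleGraph.sup_adj, off_adj, off_adj]
  constructor
  · intro hab
    by_cases ha : a ∈ I
    · exact Or.inl ⟨hab, fun k => k ha, fun k => k (h a b ha hab)⟩
    · exact Or.inr ⟨hab, ha, fun hb => ha (h b a hb hab.symm)⟩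
  · rintro (h | h)
    · exact h.1
    · exact h.1

lemma Clo.reach (h : Clo G I) {a b : α} (ha : a ∈ I) :
    (off G Iᶜ).Reachable a b ↔ G.Reachable a b := by
  constructor
  · exact fun k => k.mono (off_le G _)
  · rintro ⟨p⟩
    induction p with
    | nil => exact SimpleGraph.Reachable.refl _
    | @cons a c b hac _ ih =>
      have hc := h a c ha hac
      have h1 : (off G Iᶜ).Adj a c := ⟨hac, fun k => k ha, fun k => k hc⟩
      exact h1.reachable.trans (ih hc)

end closed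

section

variable {C : CD} {n s : ℤ} {cr : ℤ → Bool} {x y x0 r i j k k' : ℤ} {c0 : Bool}
  {Λ D : Set (ℤ × ℤ)} {w ω : Finset (ℤ × ℤ)}

/-- the inner sides do not depend on the labels of the room -/
lemma Inn_congr (hn : 0 < n) (hω : ω ⊆ ER C n) : Inn C n cr x0 r c0 ω = Inn C n cr x0 r c0 ∅ := by
  ext c
  have key : ∀ e P, e ∉ Qr C n → (Pass (LR C n cr) (DR x0 r) (WR0 C n cr ∪ ω)
      (Nm C n c0 ∪ {eW (lt (x0, r))}) e c P ↔ Pass (LR C n cr) (DR x0 r) (WR0 C n cr ∪ ∅)
      (Nm C n c0 ∪ {eW (lt (x0, r))}) e c P) := by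
    intro e P he
    have : e ∈ WR0 C n cr ∪ ω ↔ e ∈ WR0 C n cr ∪ ∅ := by
      rw [mem_union, mem_union, or_iff_left, or_iff_left (by simp)]
      intro h
      have h1 := hω h
      have h2 := lt_tt (odd_ER h1)
      rw [← h2] at h1 he
      exact he (mem_Qr.2 ((mem_ER hn).1 h1))
    unfold Pass
    rw [this]
  constructor
  · rintro (h | ⟨P, h1, h2, h3, h4⟩)
    · exact Or.inl h
    · by_cases hq : ∃ e ∈ Qr C n, Pool.Agent.H45.W.sq c e
      · exact Or.inl hq
      · exact Or.inr ⟨P, h1, h2, h3, fun e he hs => (key e P fun hQ => hq ⟨e, hQ, hs⟩).1 (h4 e he hs)⟩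
  · rintro (h | ⟨P, h1, h2, h3, h4⟩)
    · exact Or.inl h
    · by_cases hq : ∃ e ∈ Qr C n, Pool.Agent.H45.W.sq c e
      · exact Or.inl hq
      · exact Or.inr ⟨P, h1, h2, h3, fun e he hs => (key e P fun hQ => hq ⟨e, hQ, hs⟩).2 (h4 e he hs)⟩

variable (C n s cr x0 r c0) in
/-- the inner sides in the world -/
def Ii : Set (ℤ × ℤ) := {c | tr s (-s) c ∈ Inn C n cr x0 r c0 ∅}

lemma tr_back (c : ℤ × ℤ) : tr s (-s) (tr (-s) s c) = c := by
  have := tr_neg (-s) s c
  rwa [neg_neg] at this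

lemma tr_forth (c : ℤ × ℤ) : tr (-s) s (tr s (-s) c) = c := by
  have := tr_neg' (-s) s c
  rwa [neg_neg] at this

lemma mem_Ii {c : ℤ × ℤ} : tr (-s) s c ∈ Ii C n s cr x0 r c0 ↔ c ∈ Inn C n cr x0 r c0 ∅ := by
  show tr s (-s) (tr (-s) s c) ∈ Inn C n cr x0 r c0 ∅ ↔ c ∈ Inn C n cr x0 r c0 ∅
  rw [tr_back]

lemma sq_tr {c e : ℤ × ℤ} {a b : ℤ} :
    Pool.Agent.H45.W.sq (tr a b c) (tr a b e) ↔ Pool.Agent.H45.W.sq c e := by
  unfold Pool.Agent.H45.W.sq tr; simp only; omega

lemma od_tr {e : ℤ × ℤ} : od (tr s (-s) e) ↔ od e := by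
  unfold od tr; simp only; omega

variable (C n s cr x0 r c0 D w ω) in
/-- the strands of the room -/
noncomputable def Gin : SimpleGraph (ℤ × ℤ) :=
  off (SG (RoomIn.part C n s cr) D (w ∪ trF (-s) s ω)) (Ii C n s cr x0 r c0)ᶜ

variable (C n s cr x0 r c0 Λ D w) in
/-- everything else -/
noncomputable def Gout : SimpleGraph (ℤ × ℤ) :=
  off (SG (RoomIn.part C n s cr) D w) (Ii C n s cr x0 r c0) ⊔ SG (Λ \ RoomIn.part C n s cr) D w

/-- hypotheses on the position of the moving end -/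
structure Ok (C : CD) (n : ℤ) (cr : ℤ → Bool) (c0 : Bool) (x0 r : ℤ) : Prop where
  hc : CrOk cr c0 r
  hr0 : 0 < r
  hr1 : r + 1 < n * C.H
  hx0 : n * C.A (r / n) ≤ x0
  hx1 : x0 ≤ n * C.W

variable (h : RoomIn C n s cr x0 r Λ D w) (o : Ok C n cr c0 x0 r) (hω : ω ⊆ ER C n)

include h o hω

lemma clo_part : Clo (SG (RoomIn.part C n s cr) D (w ∪ trF (-s) s ω)) (Ii C n s cr x0 r c0) := by
  have hp : 0 < n := by have := h.hn; omega
  intro a b ha hab
  have e1 := tr_forth (s := s) a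
  have e2 := tr_forth (s := s) b
  rw [← e1, ← e2, (h.sym hω).adj] at hab
  change tr s (-s) a ∈ Inn C n cr x0 r c0 ∅ at ha
  show tr s (-s) b ∈ Inn C n cr x0 r c0 ∅
  rw [← Inn_congr hp hω] at ha ⊢
  exact (wld_room h.hn h.he o.hc o.hr0 o.hr1 o.hx0 o.hx1 hω).closed ha hab

omit o in
lemma off_part : off (SG (RoomIn.part C n s cr) D (w ∪ trF (-s) s ω)) (Ii C n s cr x0 r c0) =
    off (SG (RoomIn.part C n s cr) D w) (Ii C n s cr x0 r c0) := by
  have hp : 0 < n := by have := h.hn; omega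
  ext a b
  rw [off_adj, off_adj]
  refine and_congr_left fun hab => ?_
  rw [SG_adj, SG_adj]
  refine exists_congr fun e => and_congr_right fun he => ?_
  -- a tile of the room has inner sides
  by_cases hq : tr s (-s) e ∈ Qr C n
  · have hno : ∀ w', ¬ TJ D w' e a b := by
      intro w' hT
      obtain ⟨t1, t2, t3⟩ := TJ.sqs hT
      apply hab.1
      left
      exact ⟨_, hq, sq_tr.2 t2⟩
    exact ⟨fun k => absurd k (hno _), fun k => absurd k (hno _)⟩
  · refine TJ_congr Iff.rfl fun _ => ?_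
    rw [mem_union, or_iff_left]
    intro hm
    rw [mem_trF, neg_neg] at hm
    have h1 := hω hm
    have h2 := lt_tt (odd_ER h1)
    rw [← h2] at h1 hq
    exact hq (mem_Qr.2 ((mem_ER hp).1 h1))

/-- **The world is the room and the outside.** -/
theorem split2 : SG Λ D (w ∪ trF (-s) s ω) = Gin C n s cr x0 r c0 D w ω ⊔ Gout C n s cr x0 r c0 Λ D w := by
  unfold Gin Gout
  rw [h.split hω, ← sup_assoc]
  congr 1
  conv_lhs => rw [(clo_part h o hω).split]
  rw [off_part h hω]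

/-- strands of the room -/
theorem gin_reach {a b : ℤ × ℤ} (ha : a ∈ Inn C n cr x0 r c0 ∅) :
    (Gin C n s cr x0 r c0 D w ω).Reachable (tr (-s) s a) (tr (-s) s b) ↔
      (SG (LR C n cr) (DR x0 r) (WR0 C n cr ∪ ω)).Reachable a b := by
  unfold Gin
  rw [(clo_part h o hω).reach (mem_Ii.2 ha), h.reach hω]

omit hω in
/-- an inner side with a tile outside of the room graph is a named end -/
lemma Ii_out {c e : ℤ × ℤ} (hc : c ∈ Ii C n s cr x0 r c0) (ho : od e)
    (hs : Pool.Agent.H45.W.sq c e) (he : e ∉ RoomIn.part C n s cr) :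
    ∃ k, Mk C c0 k ∧ c = tr (-s) s (nm C c0 n k) := by
  have h1 : tr s (-s) e ∉ LR C n cr := by
    intro h2
    apply he
    unfold RoomIn.part
    rw [mem_trS, neg_neg]
    exact h2
  obtain ⟨k, hk, h3⟩ := F2 h.hn o.hr0 o.hr1 o.hx0 o.hx1 hc (od_tr.2 ho) (sq_tr.2 hs) h1
  exact ⟨k, hk, by rw [← h3, tr_forth]⟩

omit hω in
/-- the outside does not touch the moving end -/
lemma gout_z (b : ℤ × ℤ) : ¬ (Gout C n s cr x0 r c0 Λ D w).Adj (tr (-s) s (eW (lt (x0, r)))) b := by
  have hz := z_mem (C := C) (cr := cr) (c0 := c0) (ω := ∅) h.hn o.hr0 o.hr1 o.hx0 o.hx1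
  rintro (h1 | ⟨e, ⟨-, he⟩, hT⟩)
  · exact h1.2.1 (mem_Ii.2 hz)
  · obtain ⟨t1, t2, -⟩ := TJ.sqs hT
    obtain ⟨k, hk, h3⟩ := Ii_out h o (mem_Ii.2 hz) t1 t2 he
    exact nm_ne_z h.hn o.hc o.hr0 o.hr1 o.hx0 o.hx1 hk (tr_injective _ _ h3).symm

variable (C n s c0) in
omit h o hω in
/-- the named ends in the world -/
def nw (k : {k // Mk C c0 k}) : ℤ × ℤ := tr (-s) s (nm C c0 n k.1)

/-- **The far end is reached by a chain of links.** -/
theorem pass {y : ℤ × ℤ} (hy : ∃ e, od e ∧ Pool.Agent.H45.W.sq y e ∧ e ∉ Λ) :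
    (SG Λ D (w ∪ trF (-s) s ω)).Reachable (tr (-s) s (eW (lt (x0, r)))) y ↔
      ∃ a, Relation.ReflTransGen (Stp (SG (LR C n cr) (DR x0 r) (WR0 C n cr ∪ ω)) (eW (lt (x0, r)))
        (fun k : {k // Mk C c0 k} => nm C c0 n k.1) (fun b b' =>
          (Gout C n s cr x0 r c0 Λ D w).Reachable (nw C n s c0 b) (nw C n s c0 b'))) none (some a) ∧
        (Gout C n s cr x0 r c0 Λ D w).Reachable (nw C n s c0 a) y := by
  have hp : 0 < n := by have := h.hn; omega
  have hz := z_mem (C := C) (cr := cr) (c0 := c0) (ω := ∅) h.hn o.hr0 o.hr1 o.hx0 o.hx1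
  obtain ⟨e, ho, hs, he⟩ := hy
  have he' : e ∉ RoomIn.part C n s cr := fun k => he (h.part_sub k)
  rw [split2 h o hω, glue_names (N := {k // Mk C c0 k}) (p := nw C n s c0)]
  · refine exists_congr fun a => and_congr_left fun _ => ?_
    have key : ∀ m : Option {k // Mk C c0 k}, m.elim (tr (-s) s (eW (lt (x0, r)))) (nw C n s c0) =
        tr (-s) s (m.elim (eW (lt (x0, r))) fun k => nm C c0 n k.1) := by
      intro m; cases m <;> rfl
    have key2 : ∀ m : Option {k // Mk C c0 k},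
        (m.elim (eW (lt (x0, r))) fun k => nm C c0 n k.1) ∈ Inn C n cr x0 r c0 ∅ := by
      intro m
      cases m with
      | none => exact hz
      | some k => exact nm_mem h.hn h.he o.hc o.hr0 o.hr1 o.hx0 (by simp) k.2
    have e3 : (fun m m' : Option {k // Mk C c0 k} => (Gin C n s cr x0 r c0 D w ω).Reachable
        (m.elim (tr (-s) s (eW (lt (x0, r)))) (nw C n s c0))
        (m'.elim (tr (-s) s (eW (lt (x0, r)))) (nw C n s c0)) ∨
        ∃ b b', m = some b ∧ m' = some b' ∧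
          (Gout C n s cr x0 r c0 Λ D w).Reachable (nw C n s c0 b) (nw C n s c0 b')) =
        Stp (SG (LR C n cr) (DR x0 r) (WR0 C n cr ∪ ω)) (eW (lt (x0, r)))
        (fun k : {k // Mk C c0 k} => nm C c0 n k.1) (fun b b' =>
          (Gout C n s cr x0 r c0 Λ D w).Reachable (nw C n s c0 b) (nw C n s c0 b')) := by
      funext m m'
      unfold Stp
      rw [key m, key m', gin_reach h o hω (key2 m)]
    rw [e3]
  · rintro v a b h1 (h2 | ⟨e2, ⟨-, he2⟩, hT⟩)
    · exact absurd h2.2.1 fun k => h1.2.1 k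
    · obtain ⟨t1, t2, -⟩ := TJ.sqs hT
      have hv : v ∈ Ii C n s cr x0 r c0 := by
        by_contra hv; exact h1.2.1 hv
      obtain ⟨k, hk, h3⟩ := Ii_out h o hv t1 t2 he2
      exact ⟨⟨k, hk⟩, h3.symm⟩
  · exact gout_z h o
  · rintro ⟨k, hk⟩
    exact nm_ne_z h.hn o.hc o.hr0 o.hr1 o.hx0 o.hx1 k.2 (tr_injective _ _ hk)
  · by_cases hv : y ∈ Ii C n s cr x0 r c0
    · right
      obtain ⟨k, hk, h3⟩ := Ii_out h o hv ho hs he'
      exact ⟨⟨k, hk⟩, h3.symm⟩
    · left
      exact fun b hb => hb.2.1 hv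
  · rintro rfl
    obtain ⟨k, hk, h3⟩ := Ii_out h o (mem_Ii.2 hz) ho hs he'
    exact nm_ne_z h.hn o.hc o.hr0 o.hr1 o.hx0 o.hx1 hk (tr_injective _ _ h3).symm

/-- **The value of a world whose outside has the link pattern `θ`.** -/
theorem value_th (θ : Th C c0) (hθ : ∀ a b : {k // Mk C c0 k},
      (Gout C n s cr x0 r c0 Λ D w).Reachable (nw C n s c0 a) (nw C n s c0 b) →
        b.1 = a.1 ∨ b.1 = θ.m a.1)
    (hθ' : ∀ a b : {k // Mk C c0 k}, b.1 = θ.m a.1 →
      (Gout C n s cr x0 r c0 Λ D w).Reachable (nw C n s c0 a) (nw C n s c0 b))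
    {y : ℤ × ℤ} (hy : ∃ e, od e ∧ Pool.Agent.H45.W.sq y e ∧ e ∉ Λ) (j : Fin 3)
    (hj : ∀ a : {k // Mk C c0 k}, (Gout C n s cr x0 r c0 Λ D w).Reachable (nw C n s c0 a) y ↔
      a.1 = θ.x j) :
    (SG Λ D (w ∪ trF (-s) s ω)).Reachable (tr (-s) s (eW (lt (x0, r)))) y ↔
      (SG (LR C n cr) (DR x0 r) (WR0 C n cr ∪ ω) ⊔ θ.G n).Reachable (eW (lt (x0, r)))
        (nm C c0 n (θ.x j)) := by
  rw [pass h o hω hy]
  have e1 := chain_reach (N := {k // Mk C c0 k}) (p := fun k => nm C c0 n k.1)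
    (G := SG (LR C n cr) (DR x0 r) (WR0 C n cr ∪ ω)) (T := θ.G n) (z := eW (lt (x0, r)))
    (q := fun b b' => (Gout C n s cr x0 r c0 Λ D w).Reachable (nw C n s c0 b) (nw C n s c0 b'))
    ?_ ?_ ⟨θ.x j, θ.xm j⟩
  · rw [e1]
    constructor
    · rintro ⟨a, h1, h2⟩
      rw [hj a] at h2
      have : a = ⟨θ.x j, θ.xm j⟩ := Subtype.ext h2
      rw [← this]; exact h1
    · intro h1
      exact ⟨_, h1, (hj _).2 rfl⟩
  · intro a b hab
    unfold Th.G at hab
    rw [SimpleGraph.fromRel_adj] at hab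
    rcases hab.2 with ⟨k, hk, rfl, rfl⟩ | ⟨k, hk, rfl, rfl⟩
    · exact ⟨⟨k, hk⟩, ⟨θ.m k, θ.mm k hk⟩, rfl, rfl, hθ' _ _ rfl⟩
    · refine ⟨⟨θ.m k, θ.mm k hk⟩, ⟨k, hk⟩, rfl, rfl, (hθ' ⟨k, hk⟩ ⟨θ.m k, θ.mm k hk⟩ rfl).symm⟩
  · intro a b hab
    rcases hθ a b hab with e | e
    · show (_ : SimpleGraph (ℤ × ℤ)).Reachable (nm C c0 n a.1) (nm C c0 n b.1)
      rw [e]
    · show (_ : SimpleGraph (ℤ × ℤ)).Reachable (nm C c0 n a.1) (nm C c0 n b.1)
      by_cases hne : nm C c0 n a.1 = nm C c0 n b.1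
      · rw [hne]
      · refine SimpleGraph.Reachable.mono le_sup_right ?_
        apply SimpleGraph.Adj.reachable
        unfold Th.G
        rw [SimpleGraph.fromRel_adj]
        exact ⟨hne, Or.inl ⟨a.1, a.2, rfl, by rw [e]⟩⟩

end

/-! ### The colour of the right wall in the row of the moving end -/

section cr

variable {C : CD} {n : ℤ} {cr cr' : ℤ → Bool} {x y x0 r : ℤ} {c0 : Bool} {ω : Finset (ℤ × ℤ)}

lemma fill_cr (h : ∀ y, y ≠ r → cr y = cr' y) (hy : ¬ (y = r ∧ n * C.A (r / n) ≤ x)) :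
    fillC C n cr x y = fillC C n cr' x y := by
  unfold fillC
  split_ifs with h1 h2 h3
  · rfl
  · rfl
  · rfl
  · apply h
    rintro rfl
    exact hy ⟨rfl, not_lt.1 h3⟩

lemma RT_cr' (hn : 8 ≤ n) (hr0 : 0 < r) (hr1 : r + 1 < n * C.H) (h : ∀ y, y ≠ r → cr y = cr' y)
    (hT : RT C n cr x y) : RT C n cr' x y := by
  have hp : 0 < n := by omega
  rcases hT with hT | hT | hT
  · exact Or.inl hT
  · exact Or.inr (Or.inl hT)
  · obtain ⟨h1, h2, i, j, hi, hj, h3, h4, h5⟩ := hT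
    have n1 : ¬ RP C n (x + 1) y := fun k => h2 ⟨h1, Or.inl k⟩
    have n2 : ¬ RP C n (x - 1) y := fun k => h2 ⟨h1, Or.inr (Or.inl k)⟩
    have n3 : ¬ RP C n x (y + 1) := fun k => h2 ⟨h1, Or.inr (Or.inr (Or.inl k))⟩
    have n4 : ¬ RP C n x (y - 1) := fun k => h2 ⟨h1, Or.inr (Or.inr (Or.inr k))⟩
    have ni : ¬ RP C n (x + i) y := by
      rcases hi with rfl | rfl
      · exact n1
      · rw [← sub_eq_add_neg]; exact n2
    have nj : ¬ RP C n x (y + j) := by
      rcases hj with rfl | rfl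
      · exact n3
      · rw [← sub_eq_add_neg]; exact n4
    refine Or.inr (Or.inr ⟨h1, h2, i, j, hi, hj, h3, ?_, ?_⟩)
    · rw [← fill_cr h, h4]
      rintro ⟨rfl, h6⟩
      apply ni
      exact ⟨hr0.le, by omega, h6, h3.2.2.2⟩
    · rw [← fill_cr h, h5]
      rintro ⟨h6, h7⟩
      have ha := a_lt (C := C) hp hr0.le (by omega)
      have h8 := h3.2.2.1
      rw [h6] at h8
      have hxW : n * C.W ≤ x := by
        by_contra hlt
        apply nj
        rw [h6]
        exact ⟨hr0.le, by omega, h7, by omega⟩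
      have hx : x = n * C.W ∧ i = -1 := by
        have := h3.2.2.2
        rcases hi with rfl | rfl <;> omega
      obtain ⟨rfl, rfl⟩ := hx
      apply n2
      exact RP_right hp (by rcases hj with rfl | rfl <;> omega) (by rcases hj with rfl | rfl <;> omega)

lemma CrOk.eq (h : CrOk cr c0 r) (h' : CrOk cr' c0 r) : ∀ y, y ≠ r → cr y = cr' y := by
  intro y hy
  rcases lt_or_gt_of_ne hy with h1 | h1
  · rw [h.dn y h1, h'.dn y h1]
  · rw [h.up y h1, h'.up y h1]

/-- **The room graph does not see the colour of the right wall in the deleted row.** -/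
theorem room_cr (hn : 8 ≤ n) (o : Ok C n cr c0 x0 r) (o' : Ok C n cr' c0 x0 r) : SG (LR C n cr) (DR x0 r) (WR0 C n cr ∪ ω) =
      SG (LR C n cr') (DR x0 r) (WR0 C n cr' ∪ ω) := by
  have hp : 0 < n := by omega
  have e1 := o.hc.eq o'.hc
  have e2 := o'.hc.eq o.hc
  have hL : LR C n cr = LR C n cr' := by
    ext e
    constructor
    · rintro ⟨x, y, rfl, h⟩
      exact mem_LR.2 (RT_cr' hn o.hr0 o.hr1 e1 h)
    · rintro ⟨x, y, rfl, h⟩
      exact mem_LR.2 (RT_cr' hn o.hr0 o.hr1 e2 h)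
  rw [hL]
  refine SG_congr (fun e _ => Iff.rfl) ?_
  rintro e ⟨x, y, rfl, h⟩ hD
  rw [mem_DR] at hD
  rw [mem_union, mem_union, mem_WR0 hp, mem_WR0 hp]
  refine or_congr_left ?_
  constructor
  · rintro ⟨h1, h2, h3⟩
    refine ⟨h, h2, ?_⟩
    rw [← fill_cr e1, h3]
    rintro ⟨rfl, h6⟩
    apply hD
    refine ⟨rfl, ?_⟩
    have := h.box hp
    unfold RP at h2
    have := o.hx1
    have := o.hr0
    have := o.hr1
    omega
  · rintro ⟨h1, h2, h3⟩
    refine ⟨RT_cr' hn o.hr0 o.hr1 e2 h, h2, ?_⟩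
    rw [← fill_cr e2, h3]
    rintro ⟨rfl, h6⟩
    apply hD
    refine ⟨rfl, ?_⟩
    have := h.box hp
    unfold RP at h2
    have := o.hx1
    have := o.hr0
    have := o.hr1
    omega

lemma crOk_crz (c0 : Bool) (r : ℤ) : CrOk (crz c0 r) c0 r := by
  refine ⟨fun y hy => ?_, fun y hy => ?_⟩
  · unfold crz; rw [if_pos hy]
  · unfold crz; rw [if_neg (by omega)]

end cr

end Pool.Agent.H29.W
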