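import Mathlib
import Pool.Agent.H45.W.Ends

set_option autoImplicit false

/-! # Worlds with weaker local facts

`WldX` : helper45's `Wld`, two axioms are weaker. `nxt` : only if the strand comes from a tile of `Q` or from a
passed tile. `row` : nothing is said about the side of the last deleted tile if the next tile is missing.
`closed`, `reach_mem`, `end_mem`, `far_exists` : as for `Wld`. -/

namespace Pool.Agent.H29.W

open Pool.Agent.H75.TwoArm Pool.Agent.H99.W Pool.Agent.H13.W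
open Pool.Agent.H45.W

variable {Q Λ D F : Set (ℤ × ℤ)} {w : Finset (ℤ × ℤ)} {c d : ℤ × ℤ}

/-- **Local facts near the walls.** -/
structure WldX (Q Λ D : Set (ℤ × ℤ)) (w : Finset (ℤ × ℤ)) (F : Set (ℤ × ℤ)) : Prop where
  fin : Λ.Finite
  odd : ∀ e ∈ Λ, od e
  sub : Q ⊆ Λ
  /-- the tiles next to `Q` belong to `Λ` -/
  lay : ∀ e ∈ Q, ∀ c, Pool.Agent.H45.W.sq c e → ot c e ∈ Λ
  /-- the next layer tile round a point of `Q`, for a strand which comes from `Q` or from a passed tile -/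
  nxt : ∀ P e c c', Pool.Agent.H45.W.PB Q P → ev P → e ∈ Λ → e ∉ Q → e ∉ D →
    (e ∈ w ↔ P.1 % 2 = 1) → Pool.Agent.H45.W.sq c e → Pool.Agent.H45.W.sq c P →
    Pool.Agent.H45.W.sq c' e → Pool.Agent.H45.W.sq c' P → c' ≠ c →
    (ot c' e ∈ Q ∨ Pass Λ D w F (ot c' e) c' P) → ot c e ∈ Q ∨ Pass Λ D w F (ot c e) c P
  /-- a deleted row which crosses the layer -/
  del : ∀ e ∈ Λ, e ∈ D → e ∉ Q → ∀ P, Pool.Agent.H45.W.PB Q P → ev P →
    (Pool.Agent.H45.W.sq (eN e) P ∨ Pool.Agent.H45.W.sq (eS e) P) →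
    (up e ∈ Λ ∧ up e ∉ D ∧ up e ∉ Q) ∧
      (Pool.Agent.H13.W.dn e ∈ Λ ∧ Pool.Agent.H13.W.dn e ∉ D ∧ Pool.Agent.H13.W.dn e ∉ Q) ∧
      (up e ∈ w ↔ Pool.Agent.H13.W.dn e ∉ w) ∧
      (Pool.Agent.H45.W.sq (eN e) P → Pool.Agent.H45.W.PB Q (Pool.Agent.H13.W.dn P)) ∧
      (Pool.Agent.H45.W.sq (eS e) P → Pool.Agent.H45.W.PB Q (up P))
  /-- the ends of the deleted rows belong to `F` -/
  row : ∀ e ∈ Λ, e ∈ D → (eE e ∈ F ∨ rt e ∈ D ∨ rt e ∉ Λ) ∧ (eW e ∈ F ∨ lf e ∈ D ∨ lf e ∉ Λ)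

/-- a world of helper45 -/
theorem _root_.Pool.Agent.H45.W.Wld.toX (H : Wld Q Λ D w F) : WldX Q Λ D w F where
  fin := H.fin
  odd := H.odd
  sub := H.sub
  lay := H.lay
  nxt := fun P e c _ h1 h2 h3 h4 h5 h6 h7 h8 _ _ _ _ => H.nxt P e c h1 h2 h3 h4 h5 h6 h7 h8
  del := H.del
  row := fun e h1 h2 => by
    obtain ⟨a, b⟩ := H.row e h1 h2
    exact ⟨a.imp id Or.inl, b.imp id Or.inl⟩

variable (H : WldX Q Λ D w F)
include H

lemma WldX.oddQ {e : ℤ × ℤ} (he : e ∈ Q) : od e := H.odd e (H.sub he)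

/-- both sides of a tile of `Q` are visited -/
theorem WldX.closed (hc : AS Q Λ D w F c) (h : (SG Λ D w).Adj c d) : AS Q Λ D w F d := by
  classical
  obtain ⟨e, heΛ, hT⟩ := h
  obtain ⟨he, h1, h2⟩ := TJ.sqs hT
  by_cases heQ : e ∈ Q
  · exact Or.inl ⟨e, heQ, h2⟩
  by_cases heD : e ∈ D
  · -- a deleted tile of the layer
    have hcd : (c = eS e ∧ d = eN e) ∨ (d = eS e ∧ c = eN e) := by
      rcases hT with ⟨-, -, h⟩ | ⟨h, -⟩
      · exact h
      · exact absurd heD h
    rcases hcd with ⟨rfl, rfl⟩ | ⟨rfl, rfl⟩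
    · -- from the south
      rcases hc with ⟨e1, he1, hs⟩ | ⟨P, g1, g2, g3, g4⟩
      · exfalso
        obtain ⟨P, k1, k2, -⟩ := exists_pt (eS e) 0 (Or.inl rfl)
        obtain ⟨-, ⟨-, -, j⟩, -⟩ := H.del e heΛ heD heQ P ⟨e1, he1, _, hs, k2⟩ k1 (Or.inr k2)
        rcases lab_cases' he h1 (H.oddQ he1) hs with h | h
        · exact heQ (h ▸ he1)
        · rw [ot_eS] at h; exact j (h ▸ he1)
      · obtain ⟨⟨u1, u2, u3⟩, ⟨d1, d2, d3⟩, j1, -, j3⟩ := H.del e heΛ heD heQ P g3 g1 (Or.inr g2)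
        have hd0 : (Pool.Agent.H13.W.dn e ∈ w ↔ P.1 % 2 = 1) := by
          rcases g4 (Pool.Agent.H13.W.dn e) (H.odd _ d1) (by rw [← ot_eS]; exact sq_ot h1) with h | h | h
          · exact h.2.2
          · exact absurd h.2.1 d2
          · exact absurd d1 h.1
        refine Or.inr ⟨up P, ev_up g1, sq_up g2, j3 g2, fun e' o' s' => ?_⟩
        rcases lab_cases' he h2 o' s' with h | h
        · rw [h]; exact Or.inr (Or.inl ⟨heΛ, heD, Or.inr rfl⟩)
        · rw [ot_eN] at h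
          rw [h]
          refine Or.inl ⟨u1, u2, ?_⟩
          rw [j1, hd0]
          unfold up
          simp only
          omega
    · -- from the north
      rcases hc with ⟨e1, he1, hs⟩ | ⟨P, g1, g2, g3, g4⟩
      · exfalso
        obtain ⟨P, k1, k2, -⟩ := exists_pt (eN e) 0 (Or.inl rfl)
        obtain ⟨⟨-, -, j⟩, -⟩ := H.del e heΛ heD heQ P ⟨e1, he1, _, hs, k2⟩ k1 (Or.inl k2)
        rcases lab_cases' he h1 (H.oddQ he1) hs with h | h
        · exact heQ (h ▸ he1)
        · rw [ot_eN] at h; exact j (h ▸ he1)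
      · obtain ⟨⟨u1, u2, u3⟩, ⟨d1, d2, d3⟩, j1, j2, -⟩ := H.del e heΛ heD heQ P g3 g1 (Or.inl g2)
        have hd0 : (up e ∈ w ↔ P.1 % 2 = 1) := by
          rcases g4 (up e) (H.odd _ u1) (by rw [← ot_eN]; exact sq_ot h1) with h | h | h
          · exact h.2.2
          · exact absurd h.2.1 u2
          · exact absurd u1 h.1
        refine Or.inr ⟨Pool.Agent.H13.W.dn P, ev_dn g1, sq_dn g2, j2 g2, fun e' o' s' => ?_⟩
        rcases lab_cases' he h2 o' s' with h | h
        · rw [h]; exact Or.inr (Or.inl ⟨heΛ, heD, Or.inl rfl⟩)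
        · rw [ot_eS] at h
          rw [h]
          refine Or.inl ⟨d1, d2, ?_⟩
          have j1' : Pool.Agent.H13.W.dn e ∈ w ↔ up e ∉ w := by tauto
          rw [j1', hd0]
          unfold Pool.Agent.H13.W.dn
          simp only
          omega
  · -- a natural tile of the layer
    obtain ⟨P, g1, g2, g3, g4⟩ := TJ_pt heD hT
    have hP : Pool.Agent.H45.W.PB Q P ∧ (ot c e ∈ Q ∨ Pass Λ D w F (ot c e) c P) := by
      rcases hc with ⟨e1, he1, hs⟩ | ⟨P0, k1, k2, k3, k4⟩
      · refine ⟨⟨e1, he1, c, hs, g2⟩, Or.inl ?_⟩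
        rcases lab_cases' he h1 (H.oddQ he1) hs with h | h
        · exact absurd (h ▸ he1) heQ
        · rw [← h]; exact he1
      · have : P0 = P := by
          refine pt_uniq k1 g1 k2 g2 ?_
          rcases k4 e he h1 with h | h | h
          · have := h.2.2
            rw [g4] at this
            omega
          · exact absurd h.2.1 heD
          · exact absurd heΛ h.1
        subst this
        exact ⟨k3, Or.inr (k4 _ (od_ot (c := c) he) (sq_ot h1))⟩
    rcases H.nxt P e d c hP.1 g1 heΛ heQ heD g4 h2 g3 h1 g2 hT.ne hP.2 with h | h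
    · exact Or.inl ⟨_, h, sq_ot h2⟩
    · refine Or.inr ⟨P, g1, g3, hP.1, fun e' o' s' => ?_⟩
      rcases lab_cases' he h2 o' s' with k | k
      · rw [k]; exact Or.inl ⟨heΛ, heD, g4⟩
      · rw [k]; exact h

/-- the strand stays among the visited sides -/
theorem WldX.reach_mem (hc : AS Q Λ D w F c) (h : (SG Λ D w).Reachable c d) : AS Q Λ D w F d := by
  obtain ⟨p⟩ := h
  induction p with
  | nil => exact hc
  | cons ha _ ih => exact ih (H.closed hc ha)

/-- **an end of a strand from `Q` belongs to `F`** -/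
theorem WldX.end_mem (hc : AS Q Λ D w F c) (hE : IsEnd (SG Λ D w) c)
    (hn : ∃ x, (SG Λ D w).Adj c x) : c ∈ F := by
  by_contra hF
  rcases hc with ⟨e, heQ, hs⟩ | ⟨P, g1, g2, g3, g4⟩
  · have he := H.oddQ heQ
    -- a deleted tile with `c` as west or east side
    have key : ∀ e, e ∈ Λ → Pool.Agent.H45.W.sq c e → ot c e ∈ Λ → e ∈ D → c ≠ eS e → c ≠ eN e →
        False := by
      intro e heΛ hs hot heD n1 n2
      have he := H.odd e heΛ
      obtain ⟨r1, r2⟩ := H.row e heΛ heD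
      rcases (sq_iff he).1 hs with h | h | h | h
      · rw [← h] at r2
        rcases r2 with r2 | r2 | r2
        · exact hF r2
        · rw [← ot_eW, ← h] at r2
          obtain ⟨x, e', he', hT⟩ := hn
          obtain ⟨a1, a2, -⟩ := TJ.sqs hT
          rcases lab_cases' he hs a1 a2 with k | k
          · rw [k] at hT
            exact not_TJ_eW heD (h ▸ hT)
          · rw [k] at hT
            have h5 : c = eE (ot c e) := by
              rw [h, ot_eW]; unfold eW lf eE; simp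
            obtain ⟨g, hg⟩ : ∃ g, g = ot c e := ⟨_, rfl⟩
            rw [← hg] at hT r2 h5
            rw [h5] at hT
            exact not_TJ_eE r2 hT
        · rw [← ot_eW, ← h] at r2
          exact r2 hot
      · rw [← h] at r1
        rcases r1 with r1 | r1 | r1
        · exact hF r1
        · rw [← ot_eE, ← h] at r1
          obtain ⟨x, e', he', hT⟩ := hn
          obtain ⟨a1, a2, -⟩ := TJ.sqs hT
          rcases lab_cases' he hs a1 a2 with k | k
          · rw [k] at hT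
            exact not_TJ_eE heD (h ▸ hT)
          · rw [k] at hT
            have h5 : c = eW (ot c e) := by
              rw [h, ot_eE]; rfl
            obtain ⟨g, hg⟩ : ∃ g, g = ot c e := ⟨_, rfl⟩
            rw [← hg] at hT r1 h5
            rw [h5] at hT
            exact not_TJ_eW r1 hT
        · rw [← ot_eE, ← h] at r1
          exact r1 hot
      · exact n1 h
      · exact n2 h
    have hl := H.lay e heQ c hs
    by_cases k1 : e ∉ D ∨ c = eS e ∨ c = eN e
    · by_cases k2 : ot c e ∉ D ∨ c = eS (ot c e) ∨ c = eN (ot c e)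
      · exact not_isEnd he hs (H.sub heQ) hl k1 k2 hE
      · push Not at k2
        exact key (ot c e) hl (sq_ot hs) (by rw [ot_ot]; exact H.sub heQ) k2.1 k2.2.1 k2.2.2
    · push Not at k1
      exact key e (H.sub heQ) hs hl k1.1 k1.2.1 k1.2.2
  · obtain ⟨x, e, heΛ, hT⟩ := hn
    obtain ⟨a1, a2, -⟩ := TJ.sqs hT
    have h1 := g4 e a1 a2
    have h2 := g4 _ (od_ot (c := c) a1) (sq_ot a2)
    have c1 : e ∉ D ∨ c = eS e ∨ c = eN e := by
      rcases h1 with h | h | h
      · exact Or.inl h.2.1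
      · exact Or.inr h.2.2
      · exact absurd h.2 hF
    have c2 : ot c e ∈ Λ ∧ (ot c e ∉ D ∨ c = eS (ot c e) ∨ c = eN (ot c e)) := by
      rcases h2 with h | h | h
      · exact ⟨h.1, Or.inl h.2.1⟩
      · exact ⟨h.1, Or.inr h.2.2⟩
      · exact absurd h.2 hF
    exact not_isEnd a1 a2 heΛ c2.1 c1 c2.2 hE

/-- **existence of the far end** -/
theorem WldX.far_exists (hc : AS Q Λ D w F c) (hE : IsEnd (SG Λ D w) c)
    (hn : ∃ x, (SG Λ D w).Adj c x) :
    ∃ y ∈ F, y ≠ c ∧ IsEnd (SG Λ D w) y ∧ AS Q Λ D w F y ∧ (SG Λ D w).Reachable c y := by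
  obtain ⟨y, h1, h2, h3⟩ := Pool.Agent.H47.W.sg_partner H.fin hE hn
  have h4 := H.reach_mem hc h3
  refine ⟨y, H.end_mem h4 h2 ?_, h1, h2, h4, h3⟩
  obtain ⟨p⟩ := h3.symm
  cases p with
  | nil => exact absurd rfl h1
  | cons h _ => exact ⟨_, h⟩

end Pool.Agent.H29.W
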