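import Mathlib
import Pool.Agent.H29.W.RoomV
import Pool.Agent.H29.W.WldX

set_option autoImplicit false
open Finset

/-! # The outside of a room

`Wo` : the world is a world of helper45 with three far ends `y 0, y 1, y 2`. Outside of the room (`Gout`) every
named end is joined to exactly one other named end or to exactly one far end (`out_cases`, `out_uniq`, ..). The
number of named ends joined to a far end is `1` or `3` (`out_card`). In the first case the far end of the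
moving end is always the same (`value_const`), in the second case planarity (`Pln`) gives the pattern
`θ : Th C c0` (`exists_th`). -/

namespace Pool.Agent.H29.W

open Pool.Agent.H75.Perc hiding WL CT hh PB
open Pool.Agent.H75.TwoArm Pool.Agent.H99.W Pool.Agent.H13.W Pool.Agent.H33.Q1
open Pool.Agent.H54.W (CD)
open Pool.Agent.H21.W Pool.Agent.H20.W
open Pool.Agent.H45.W
open Pool.Agent.H47.W (exists_partner' SG_finite)

section mono

variable {α : Type*} {G G' : SimpleGraph α}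

lemma Deg2.mono' (h : Deg2 G') (hl : G ≤ G') : Deg2 G :=
  fun v a b c h1 h2 h3 => h v a b c (hl h1) (hl h2) (hl h3)

lemma IsEnd.mono' {v : α} (h : IsEnd G' v) (hl : G ≤ G') : IsEnd G v :=
  fun a b h1 h2 => h a b (hl h1) (hl h2)

lemma adj_of_reach' {a b : α} (h : G.Reachable a b) (hne : a ≠ b) : ∃ c, G.Adj a c := by
  obtain ⟨p⟩ := h
  cases p with
  | nil => exact absurd rfl hne
  | cons h _ => exact ⟨_, h⟩

end mono

/-- **World with a room and three far ends.** -/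
structure Wo (C : CD) (n s : ℤ) (cr : ℤ → Bool) (c0 : Bool) (x0 r : ℤ) (Q Λ D : Set (ℤ × ℤ))
    (w : Finset (ℤ × ℤ)) (y : Fin 3 → ℤ × ℤ) : Prop where
  rm : RoomIn C n s cr x0 r Λ D w
  ok : Ok C n cr c0 x0 r
  wld : ∀ ω ⊆ ER C n, WldX Q Λ D (w ∪ trF (-s) s ω)
    ({tr (-s) s (eW (lt (x0, r)))} ∪ Set.range y)
  sub : ∀ x y, RP C n x y → lt (x, y + s) ∈ Q
  yo : ∀ j, ∃ e, od e ∧ Pool.Agent.H45.W.sq (y j) e ∧ e ∉ Λ
  yi : Function.Injective y
  del : ∀ e ∈ Λ, e ∈ D → e ∈ RoomIn.part C n s cr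

namespace Wo

variable {C : CD} {n s : ℤ} {cr : ℤ → Bool} {x0 r i j k k' : ℤ} {c0 : Bool}
  {Q Λ D : Set (ℤ × ℤ)} {w ω : Finset (ℤ × ℤ)} {y : Fin 3 → ℤ × ℤ}
  (H : Wo C n s cr c0 x0 r Q Λ D w y)

include H


lemma wld0 : WldX Q Λ D w ({tr (-s) s (eW (lt (x0, r)))} ∪ Set.range y) := by
  have := H.wld ∅ (by simp)
  have e : w ∪ trF (-s) s ∅ = w := by
    ext e
    rw [mem_union, mem_trF]
    simp
  rwa [e] at this

lemma split0 : SG Λ D w = Gin C n s cr x0 r c0 D w ∅ ⊔ (Gout C n s cr x0 r c0 Λ D w) := by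
  have := split2 H.rm H.ok (show (∅ : Finset (ℤ × ℤ)) ⊆ ER C n by simp)
  have e : w ∪ trF (-s) s ∅ = w := by
    ext e
    rw [mem_union, mem_trF]
    simp
  rwa [e] at this

lemma go_le : (Gout C n s cr x0 r c0 Λ D w) ≤ SG Λ D w := by rw [H.split0]; exact le_sup_right

lemma go_deg : Deg2 (Gout C n s cr x0 r c0 Λ D w) := Deg2.mono' SG_deg2 H.go_le

omit H in
lemma ot_tr {c e : ℤ × ℤ} {a b : ℤ} : ot (tr a b c) (tr a b e) = tr a b (ot c e) := by
  unfold ot tr
  refine Prod.ext ?_ ?_ <;> simp only <;> ring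

/-- tiles at a named end in the world, and the side of the closed wall tile next to the room -/
lemma tilesX (k : {k // Mk C c0 k}) : ∃ e o P : ℤ × ℤ, e ∈ RoomIn.part C n s cr ∧ e ∉ D ∧ od e ∧
    od o ∧ o ∉ RoomIn.part C n s cr ∧ Pool.Agent.H45.W.sq (nw C n s c0 k) e ∧
    Pool.Agent.H45.W.sq (nw C n s c0 k) o ∧ ev P ∧ Pool.Agent.H45.W.sq (nw C n s c0 k) P ∧
    (e ∈ w ↔ P.1 % 2 = 1) ∧ Pool.Agent.H45.W.PB Q P ∧
    (∀ e', od e' → Pool.Agent.H45.W.sq (nw C n s c0 k) e' → e' = e ∨ e' = o) ∧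
    ∃ c', c' ≠ nw C n s c0 k ∧ Pool.Agent.H45.W.sq c' e ∧ Pool.Agent.H45.W.sq c' P ∧ ot c' e ∈ Q := by
  have hn := H.rm.hn
  have he := H.rm.he
  have hs := H.rm.hs
  obtain ⟨i, j, x, y', T⟩ := nm_tiles hn H.ok.hc H.ok.hr0 H.ok.hr1 H.ok.hx0 k.2
  obtain ⟨o, ho, hoL, s1, s2, s3, s4⟩ := T.sides
  have ho' : od (tr (-s) s o) := by unfold od tr at *; simp only; omega
  refine ⟨tr (-s) s (lt (x, y')), tr (-s) s o, tr (-s) s (pt i j), ?_, ?_, ?_, ho', ?_,
    sq_tr.2 s1, sq_tr.2 s2, ?_, sq_tr.2 s3, ?_, ?_, ?_, ?_⟩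
  · unfold RoomIn.part
    rw [tr_mem_trS]
    exact mem_LR.2 T.rt
  · rw [tr_lt, H.rm.del x y' T.rt]
    exact T.nd
  · have := od_lt x y'
    unfold od tr at *; simp only; omega
  · unfold RoomIn.part
    rw [tr_mem_trS]
    exact hoL
  · unfold ev tr pt; simp only; omega
  · rw [tr_lt, H.rm.col x y' T.rt T.np, T.cl]
    have e1 := even_mul he (qx C k.1)
    have e2 := even_mul he (qy C k.1)
    rw [← T.hi] at e1
    rw [← T.hj] at e2
    refine iff_of_false (by simp) ?_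
    unfold tr pt
    simp only
    omega
  · obtain ⟨x', y'', h1, h2, h3, -⟩ := T.nr
    refine ⟨lt (x', y'' + s), H.sub _ _ h3, eS (lt (x', j + s)), ?_, ?_⟩
    · unfold Pool.Agent.H45.W.sq eS lt; simp only; omega
    · unfold Pool.Agent.H45.W.sq eS lt tr pt; simp only; omega
  · intro e' he' hs'
    have h1 : Pool.Agent.H45.W.sq (nm C c0 n k.1) (tr s (-s) e') := by
      rw [← sq_tr (a := -s) (b := s), tr_forth]
      exact hs'
    have h2 : od (tr s (-s) e') := od_tr.2 he'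
    rcases s4 _ h2 h1 with g | g
    · left; rw [← g, tr_forth]
    · right; rw [← g, tr_forth]
  · obtain ⟨x', y'', n1, n2, n3, n4⟩ := T.nr
    have hx := T.hx
    have hy := T.hy
    have key : ∀ c, c ≠ nm C c0 n k.1 → Pool.Agent.H45.W.sq c (lt (x, y')) →
        Pool.Agent.H45.W.sq c (pt i j) → (∃ a b, ot c (lt (x, y')) = lt (a, b) ∧ RP C n a b) →
        ∃ c', c' ≠ nw C n s c0 k ∧ Pool.Agent.H45.W.sq c' (tr (-s) s (lt (x, y'))) ∧
        Pool.Agent.H45.W.sq c' (tr (-s) s (pt i j)) ∧ ot c' (tr (-s) s (lt (x, y'))) ∈ Q := by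
      rintro c g1 g2 g3 ⟨a, b, g4, g5⟩
      refine ⟨tr (-s) s c, fun e => g1 (tr_injective _ _ e), sq_tr.2 g2, sq_tr.2 g3, ?_⟩
      rw [ot_tr, g4, tr_lt]
      exact H.sub _ _ g5
    rcases T.en with ⟨g1, g2⟩ | ⟨g1, g2⟩
    · have hR : RP C n x (2 * j - 1 - y') := by
        rcases n4 with e | e
        · subst e
          have : y'' = 2 * j - 1 - y' := by
            by_contra hne
            have : y'' = y' := by omega
            rw [this] at n3; exact T.np n3
          rw [← this]; exact n3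
        · exfalso
          subst e
          have hx' : x' = 2 * i - 1 - x := by
            by_contra hne
            have : x' = x := by omega
            rw [this] at n3; exact T.np n3
          apply g2; rw [← hx']; exact Or.inl n3
      refine key (eS (lt (x, j))) ?_ ?_ (sq_eS_pt hx) ⟨x, 2 * j - 1 - y', ?_, hR⟩
      · rw [g1]
        unfold eW eS lt
        simp only [ne_eq, Prod.mk.injEq]
        omega
      · rcases hy with e | e <;> rw [e]
        · exact sq_eS_up _ _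
        · exact sq_eS_dn _ _
      · unfold ot eS lt
        refine Prod.ext ?_ ?_ <;> simp only <;> ring
    · have hR : RP C n (2 * i - 1 - x) y' := by
        rcases n4 with e | e
        · exfalso
          subst e
          have hy' : y'' = 2 * j - 1 - y' := by
            by_contra hne
            have : y'' = y' := by omega
            rw [this] at n3; exact T.np n3
          apply g2; rw [← hy']; exact Or.inl n3
        · subst e
          have : x' = 2 * i - 1 - x := by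
            by_contra hne
            have : x' = x := by omega
            rw [this] at n3; exact T.np n3
          rw [← this]; exact n3
      refine key (eW (lt (i, y'))) ?_ ?_ (sq_eW_pt hy) ⟨2 * i - 1 - x, y', ?_, hR⟩
      · rw [g1]
        unfold eW eS lt
        simp only [ne_eq, Prod.mk.injEq]
        omega
      · rcases hx with e | e <;> rw [e]
        · exact sq_eW_right _ _
        · exact sq_eW_left _ _
      · unfold ot eW lt
        refine Prod.ext ?_ ?_ <;> simp only <;> ring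

/-- tiles at a named end in the world -/
lemma tiles (k : {k // Mk C c0 k}) : ∃ e o P : ℤ × ℤ, e ∈ RoomIn.part C n s cr ∧ e ∉ D ∧ od e ∧
    od o ∧ o ∉ RoomIn.part C n s cr ∧ Pool.Agent.H45.W.sq (nw C n s c0 k) e ∧
    Pool.Agent.H45.W.sq (nw C n s c0 k) o ∧ ev P ∧ Pool.Agent.H45.W.sq (nw C n s c0 k) P ∧
    (e ∈ w ↔ P.1 % 2 = 1) ∧ Pool.Agent.H45.W.PB Q P ∧
    ∀ e', od e' → Pool.Agent.H45.W.sq (nw C n s c0 k) e' → e' = e ∨ e' = o := by
  obtain ⟨e, o, P, h1, h2, h3, h4, h5, h6, h7, h8, h9, h10, h11, h12, -⟩ := H.tilesX k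
  exact ⟨e, o, P, h1, h2, h3, h4, h5, h6, h7, h8, h9, h10, h11, h12⟩

lemma nw_Ii (k : {k // Mk C c0 k}) : nw C n s c0 k ∈ Ii C n s cr x0 r c0 :=
  mem_Ii.2 (nm_mem H.rm.hn H.rm.he H.ok.hc H.ok.hr0 H.ok.hr1 H.ok.hx0 (by simp) k.2)

/-- an outer link at a named end uses the tile outside of the room graph -/
lemma go_end (k : {k // Mk C c0 k}) : IsEnd (Gout C n s cr x0 r c0 Λ D w) (nw C n s c0 k) := by
  obtain ⟨e, o, P, h1, h2, h3, h4, h5, h6, h7, h8, h9, h10, h11, h12⟩ := H.tiles k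
  rintro a b (ha | ⟨e1, ⟨-, g1⟩, ha⟩) (hb | ⟨e2, ⟨-, g2⟩, hb⟩)
  · exact absurd (H.nw_Ii k) ha.2.1
  · exact absurd (H.nw_Ii k) ha.2.1
  · exact absurd (H.nw_Ii k) hb.2.1
  · obtain ⟨t1, t2, -⟩ := TJ.sqs ha
    obtain ⟨u1, u2, -⟩ := TJ.sqs hb
    have e1o : e1 = o := by
      rcases h12 e1 t1 t2 with g | g
      · exact absurd (g ▸ h1) g1
      · exact g
    have e2o : e2 = o := by
      rcases h12 e2 u1 u2 with g | g
      · exact absurd (g ▸ h1) g2
      · exact g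
    subst e1o e2o
    exact ha.unique hb

/-- a named end which is a far end has no outer link -/
lemma no_out (k : {k // Mk C c0 k}) (hy : ∃ e, od e ∧ Pool.Agent.H45.W.sq (nw C n s c0 k) e ∧ e ∉ Λ)
    (b : ℤ × ℤ) : ¬ (Gout C n s cr x0 r c0 Λ D w).Adj (nw C n s c0 k) b := by
  obtain ⟨e, o, P, h1, h2, h3, h4, h5, h6, h7, h8, h9, h10, h11, h12⟩ := H.tiles k
  obtain ⟨e', g1, g2, g3⟩ := hy
  have he' : e' = o := by
    rcases h12 e' g1 g2 with g | g
    · exact absurd (H.rm.part_sub (g ▸ h1)) g3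
    · exact g
  rintro (ha | ⟨e1, ⟨k1, k2⟩, ha⟩)
  · exact absurd (H.nw_Ii k) ha.2.1
  · obtain ⟨t1, t2, -⟩ := TJ.sqs ha
    rcases h12 e1 t1 t2 with g | g
    · exact absurd (g ▸ h1) k2
    · rw [g, ← he'] at k1; exact g3 k1

/-- the named ends are visited by strands of the world -/
lemma nw_AS (k : {k // Mk C c0 k}) :
    AS Q Λ D w ({tr (-s) s (eW (lt (x0, r)))} ∪ Set.range y) (nw C n s c0 k) := by
  obtain ⟨e, o, P, h1, h2, h3, h4, h5, h6, h7, h8, h9, h10, h11, h12, c', k1, k2, k3, k4⟩ :=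
    H.tilesX k
  by_cases hQ : e ∈ Q
  · exact Or.inl ⟨e, hQ, h6⟩
  have heΛ := H.rm.part_sub h1
  have ho : o = ot (nw C n s c0 k) e := by
    rcases lab_cases' h3 h6 h4 h7 with g | g
    · rw [g] at h5; exact absurd h1 h5
    · exact g
  rcases H.wld0.nxt P e _ c' h11 h8 heΛ hQ h2 h10 h6 h9 k2 k3 k1 (Or.inl k4) with g | g
  · exact Or.inl ⟨_, g, sq_ot h6⟩
  · refine Or.inr ⟨P, h8, h9, h11, fun e' he' hs' => ?_⟩
    rcases h12 e' he' hs' with rfl | rfl
    · exact Or.inl ⟨heΛ, h2, h10⟩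
    · rw [ho]; exact g

/-- an outer link at a side different from the named ends: no link of the room -/
lemma named {v a b : ℤ × ℤ} (h1 : (Gin C n s cr x0 r c0 D w ∅).Adj v a) (h2 : (Gout C n s cr x0 r c0 Λ D w).Adj v b) :
    ∃ k : {k // Mk C c0 k}, v = nw C n s c0 k := by
  have hv : v ∈ Ii C n s cr x0 r c0 := by
    by_contra hv; exact h1.2.1 hv
  rcases h2 with h2 | ⟨e2, ⟨-, he2⟩, hT⟩
  · exact absurd hv h2.2.1
  · obtain ⟨t1, t2, -⟩ := TJ.sqs hT
    obtain ⟨k, hk, h3⟩ := Ii_out H.rm H.ok hv t1 t2 he2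
    exact ⟨⟨k, hk⟩, h3⟩

/-- **(O1)** -/
theorem out_cases (a : {k // Mk C c0 k}) :
    (∃ b : {k // Mk C c0 k}, b ≠ a ∧ (Gout C n s cr x0 r c0 Λ D w).Reachable (nw C n s c0 a) (nw C n s c0 b)) ∨
      ∃ j, (Gout C n s cr x0 r c0 Λ D w).Reachable (nw C n s c0 a) (y j) := by
  have hW := H.wld0
  have hzne : nw C n s c0 a ≠ tr (-s) s (eW (lt (x0, r))) := fun e =>
    nm_ne_z H.rm.hn H.ok.hc H.ok.hr0 H.ok.hr1 H.ok.hx0 H.ok.hx1 a.2 (tr_injective _ _ e)
  by_cases hn : ∃ x, (Gout C n s cr x0 r c0 Λ D w).Adj (nw C n s c0 a) x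
  · obtain ⟨F, hF, hG⟩ := SG_finite (D := D) (w := w) hW.fin
    obtain ⟨v, h1, h2, h3⟩ := exists_partner' H.go_deg hF (fun x y hxy => hG x y (H.go_le hxy))
      (H.go_end a) hn
    have hv := hW.reach_mem (H.nw_AS a) (h3.mono H.go_le)
    obtain ⟨c, hc⟩ := adj_of_reach' h3.symm h1
    by_cases hE : IsEnd (SG Λ D w) v
    · rcases hW.end_mem hv hE ⟨c, H.go_le hc⟩ with h4 | ⟨j, rfl⟩
      · rw [Set.mem_singleton_iff] at h4
        rw [h4] at hc
        exact absurd hc (gout_z H.rm H.ok c)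
      · exact Or.inr ⟨j, h3⟩
    · left
      unfold IsEnd at hE
      push Not at hE
      obtain ⟨p, q, hp, hq, hpq⟩ := hE
      rw [H.split0] at hp hq
      have : ∃ t, (Gin C n s cr x0 r c0 D w ∅).Adj v t := by
        rcases hp with hp | hp
        · exact ⟨p, hp⟩
        · rcases hq with hq | hq
          · exact ⟨q, hq⟩
          · exact absurd (h2 p q hp hq) hpq
      obtain ⟨t, ht⟩ := this
      obtain ⟨b, rfl⟩ := H.named ht hc
      exact ⟨b, fun e => h1 (by rw [e]), h3⟩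
  · right
    obtain ⟨e, o, P, h1, h2, h3, h4, h5, h6, h7, h8, h9, h10, h11, h12⟩ := H.tiles a
    have heΛ := H.rm.part_sub h1
    have hoΛ : o ∉ Λ := by
      intro hoΛ
      apply hn
      have hD : o ∉ D := fun k => h5 (H.del o hoΛ k)
      obtain ⟨d, hd⟩ := exists_nb (w := w) h4 h7 (Or.inl hD)
      exact ⟨d, Or.inr ⟨o, ⟨hoΛ, h5⟩, hd⟩⟩
    have hE : IsEnd (SG Λ D w) (nw C n s c0 a) := by
      apply isEnd_of_notMem
      rcases (lab_iff _ _).2 ⟨h4, h7⟩ with g | g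
      · left; rw [← g]; exact hoΛ
      · right; rw [← g]; exact hoΛ
    obtain ⟨d, hd⟩ := exists_nb (w := w) h3 h6 (Or.inl h2)
    rcases hW.end_mem (H.nw_AS a) hE ⟨d, e, heΛ, hd⟩ with h13 | ⟨j, h13⟩
    · rw [Set.mem_singleton_iff] at h13
      exact absurd h13 hzne
    · exact ⟨j, by rw [h13]⟩

lemma y_end (j : Fin 3) : IsEnd (Gout C n s cr x0 r c0 Λ D w) (y j) := by
  obtain ⟨e, h1, h2, h3⟩ := H.yo j
  refine IsEnd.mono' ?_ H.go_le
  apply isEnd_of_notMem
  rcases (lab_iff _ _).2 ⟨h1, h2⟩ with g | g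
  · left; rw [← g]; exact h3
  · right; rw [← g]; exact h3

/-- **(O2)** the partner is unique -/
theorem out_uniq {a b b' : {k // Mk C c0 k}} (h1 : (Gout C n s cr x0 r c0 Λ D w).Reachable (nw C n s c0 a) (nw C n s c0 b))
    (h2 : (Gout C n s cr x0 r c0 Λ D w).Reachable (nw C n s c0 a) (nw C n s c0 b')) (hb : b ≠ a) (hb' : b' ≠ a) : b = b' := by
  have inj : ∀ u v : {k // Mk C c0 k}, nw C n s c0 u = nw C n s c0 v → u = v := fun u v e =>
    Subtype.ext (nm_inj H.rm.hn (by have := H.ok.hr0; have := H.ok.hr1; omega) u.2 v.2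
      (tr_injective _ _ e))
  rcases ends_two H.go_deg (H.go_end a) (H.go_end b) (H.go_end b') h1 h2
    (fun e => hb (inj _ _ e).symm) with g | g
  · exact absurd (inj _ _ g) hb'
  · exact (inj _ _ g).symm

/-- **(O3)** not both a named end and a far end -/
theorem out_excl {a b : {k // Mk C c0 k}} (h1 : (Gout C n s cr x0 r c0 Λ D w).Reachable (nw C n s c0 a) (nw C n s c0 b))
    (hb : b ≠ a) (j : Fin 3) : ¬ (Gout C n s cr x0 r c0 Λ D w).Reachable (nw C n s c0 a) (y j) := by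
  intro h2
  have inj : ∀ u v : {k // Mk C c0 k}, nw C n s c0 u = nw C n s c0 v → u = v := fun u v e =>
    Subtype.ext (nm_inj H.rm.hn (by have := H.ok.hr0; have := H.ok.hr1; omega) u.2 v.2
      (tr_injective _ _ e))
  have hne : nw C n s c0 a ≠ nw C n s c0 b := fun e => hb (inj _ _ e).symm
  rcases ends_two H.go_deg (H.go_end a) (H.go_end b) (H.y_end j) h1 h2 hne with g | g
  · obtain ⟨c, hc⟩ := adj_of_reach' h1 hne
    exact H.no_out a (g ▸ H.yo j) c hc
  · obtain ⟨c, hc⟩ := adj_of_reach' h1.symm hne.symm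
    exact H.no_out b (g ▸ H.yo j) c hc

/-- **(O4)** the far end is unique -/
theorem far_uniq {a : {k // Mk C c0 k}} {j j' : Fin 3} (h1 : (Gout C n s cr x0 r c0 Λ D w).Reachable (nw C n s c0 a) (y j))
    (h2 : (Gout C n s cr x0 r c0 Λ D w).Reachable (nw C n s c0 a) (y j')) : j = j' := by
  by_cases hne : nw C n s c0 a = y j
  · by_contra hj
    have h3 : nw C n s c0 a ≠ y j' := fun e => hj (H.yi (hne.symm.trans e))
    obtain ⟨c, hc⟩ := adj_of_reach' h2 h3
    exact H.no_out a (hne ▸ H.yo j) c hc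
  · rcases ends_two H.go_deg (H.go_end a) (H.y_end j) (H.y_end j') h1 h2 hne with g | g
    · obtain ⟨c, hc⟩ := adj_of_reach' h1 hne
      exact absurd hc (H.no_out a (g ▸ H.yo j') c)
    · exact (H.yi g).symm

/-- **(O5)** different named ends have different far ends -/
theorem far_inj {a b : {k // Mk C c0 k}} {j : Fin 3} (h1 : (Gout C n s cr x0 r c0 Λ D w).Reachable (nw C n s c0 a) (y j))
    (h2 : (Gout C n s cr x0 r c0 Λ D w).Reachable (nw C n s c0 b) (y j)) : a = b := by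
  by_contra hab
  exact H.out_excl (h1.trans h2.symm) (Ne.symm hab) j h1

/-- the moving end has a far end -/
theorem far_ex (hω : ω ⊆ ER C n) :
    ∃ j, (SG Λ D (w ∪ trF (-s) s ω)).Reachable (tr (-s) s (eW (lt (x0, r)))) (y j) := by
  have hW := H.wld ω hω
  obtain ⟨t1, t2, t3⟩ := z_tiles (C := C) (cr := cr) H.rm.hn H.ok.hr0 H.ok.hr1 H.ok.hx0 H.ok.hx1
  have e0 : tr (-s) s (eW (lt (x0, r))) = eW (lt (x0, r + s)) := by rw [← tr_lt, eW_tr]
  have hD : lt (x0, r + s) ∈ D := (H.rm.del x0 r t1).2 ⟨rfl, le_rfl⟩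
  have hE : IsEnd (SG Λ D (w ∪ trF (-s) s ω)) (tr (-s) s (eW (lt (x0, r)))) := by
    rw [e0]; exact isEnd_eW hD (lt_odd _)
  have hA : AS Q Λ D (w ∪ trF (-s) s ω) ({tr (-s) s (eW (lt (x0, r)))} ∪ Set.range y)
      (tr (-s) s (eW (lt (x0, r)))) := by
    left
    rw [e0]
    rcases t3 with t3 | t3
    · exact ⟨_, H.sub _ _ t3, sq_eW_right _ _⟩
    · exact ⟨_, H.sub _ _ t3, sq_eW_left _ _⟩
  have hL : lt (x0 - 1, r + s) ∉ D := by
    rw [H.rm.del _ _ t2]; omega
  obtain ⟨d, hd⟩ := exists_nb (D := D) (w := w ∪ trF (-s) s ω) (od_lt (x0 - 1) (r + s))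
    (sq_eW_left x0 (r + s)) (Or.inl hL)
  obtain ⟨v, h1, h2, -, -, h5⟩ := hW.far_exists hA hE
    ⟨d, lt (x0 - 1, r + s), H.rm.tile _ _ t2, by rw [e0]; exact hd⟩
  rcases h1 with h1 | ⟨j, rfl⟩
  · exact absurd h1 h2
  · exact ⟨j, h5⟩

end Wo

end Pool.Agent.H29.W
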