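import Mathlib
import Pool.Agent.H29.W.RoomO

set_option autoImplicit false
open Finset

/-! # The pattern of the outside of a room

`pm` : partner of a named end outside of the room. `out_card` : `1` or `3` named ends are joined to a far end.
`Pln` : planarity of the outside. `exists_th` : three named ends joined to the far ends: the pattern is a
`θ : Th C c0` and the mark `x j` is joined to the far end `y j`. `value_const` : otherwise the far end of the
moving end is always the same. `pattern_cases` : summary. -/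

namespace Pool.Agent.H29.W

open Pool.Agent.H75.Perc hiding WL CT hh PB
open Pool.Agent.H75.TwoArm Pool.Agent.H99.W Pool.Agent.H13.W Pool.Agent.H33.Q1
open Pool.Agent.H54.W (CD)
open Pool.Agent.H21.W Pool.Agent.H20.W
open Pool.Agent.H45.W

/-! ### Number of colour changes -/

lemma changes (f : ℤ → Bool) (a : ℤ) (m : ℕ) :
    (((Finset.Ico a (a + m)).filter fun k => f k ≠ f (k + 1)).card : ZMod 2) =
      if f a = f (a + m) then 0 else 1 := by
  induction m with
  | zero => simp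
  | succ m ih =>
    have e : Finset.Ico a (a + ((m + 1 : ℕ) : ℤ)) = insert (a + (m : ℤ)) (Finset.Ico a (a + m)) := by
      ext t
      rw [Finset.mem_insert, Finset.mem_Ico, Finset.mem_Ico]
      push_cast
      omega
    rw [e, Finset.filter_insert]
    have e2 : a + ((m + 1 : ℕ) : ℤ) = a + m + 1 := by push_cast; ring
    rw [e2]
    by_cases h : f (a + m) ≠ f (a + m + 1)
    · rw [if_pos h, Finset.card_insert_of_notMem (by simp)]
      push_cast
      rw [ih]
      by_cases h1 : f a = f (a + m)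
      · rw [if_pos h1, if_neg (by rw [h1]; exact h)]; ring
      · have h2 : f a = f (a + m + 1) := by
          cases h3 : f a <;> cases h4 : f (a + m) <;> cases h5 : f (a + m + 1) <;> simp_all
        rw [if_neg h1, if_pos h2]; decide
    · rw [if_neg h, ih]
      push Not at h
      rw [h]

section

variable {C : CD} {c0 : Bool}

variable (C c0) in
/-- the marks -/
noncomputable def MS : Finset ℤ := (Finset.Icc (-1) (C.H + 1)).filter fun k => col C c0 k ≠ col C c0 (k + 1)

lemma mem_MS {k : ℤ} : k ∈ MS C c0 ↔ Mk C c0 k := by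
  unfold MS Mk
  rw [Finset.mem_filter, Finset.mem_Icc]
  tauto

/-- the number of marks is odd -/
lemma odd_MS : ((MS C c0).card : ZMod 2) = 1 := by
  have hH := C.H0
  have h := changes (col C c0) (-1) (C.H + 3).toNat
  have e : (-1 : ℤ) + ((C.H + 3).toNat : ℤ) = C.H + 2 := by omega
  rw [e] at h
  have e2 : Finset.Ico (-1) (C.H + 2) = Finset.Icc (-1) (C.H + 1) := by
    ext t; rw [Finset.mem_Ico, Finset.mem_Icc]; omega
  rw [e2] at h
  unfold MS
  rw [h]
  have h1 : col C c0 (-1) = c0 := by unfold col; rw [if_pos (by omega)]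
  have h2 : col C c0 (C.H + 2) = !c0 := by
    unfold col
    rw [if_neg (by omega), if_neg (by omega), if_neg (by omega), if_neg (by omega)]
  rw [h1, h2]
  cases c0 <;> simp

end

/-! ### Patterns -/

section patterns

variable {C : CD} {c0 : Bool} (G : SimpleGraph (ℤ × ℤ)) (f : {k // Mk C c0 k} → ℤ × ℤ)
  (y : Fin 3 → ℤ × ℤ)

/-- **Planarity of the outside.** -/
structure Pln : Prop where
  p1 : ∀ a b c d : {k // Mk C c0 k}, a.1 < b.1 → b.1 < c.1 → c.1 < d.1 →
    G.Reachable (f a) (f c) → G.Reachable (f b) (f d) → False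
  p2 : ∀ a b c : {k // Mk C c0 k}, a.1 < b.1 → b.1 < c.1 → G.Reachable (f a) (f c) → ∀ j,
    G.Reachable (f b) (y j) → False
  p3 : ∀ a b : {k // Mk C c0 k}, a.1 < b.1 → ∀ i j, i < j → G.Reachable (f a) (y i) →
    G.Reachable (f b) (y j) → False

/-- the pattern of the outside is `θ` -/
structure IsTh (θ : Th C c0) : Prop where
  t1 : ∀ a b : {k // Mk C c0 k}, G.Reachable (f a) (f b) → b.1 = a.1 ∨ b.1 = θ.m a.1
  t2 : ∀ a b : {k // Mk C c0 k}, b.1 = θ.m a.1 → G.Reachable (f a) (f b)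
  t3 : ∀ j, ∀ a : {k // Mk C c0 k}, G.Reachable (f a) (y j) ↔ a.1 = θ.x j

open Classical in
/-- partner outside of the room -/
noncomputable def pm (a : {k // Mk C c0 k}) : {k // Mk C c0 k} :=
  if h : ∃ b, b ≠ a ∧ G.Reachable (f a) (f b) then h.choose else a

variable {G f} in
lemma pm_spec (a : {k // Mk C c0 k}) : pm G f a = a ∨ (pm G f a ≠ a ∧
    G.Reachable (f a) (f (pm G f a))) := by
  by_cases h1 : ∃ b, b ≠ a ∧ G.Reachable (f a) (f b)
  · right
    unfold pm
    rw [dif_pos h1]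
    exact h1.choose_spec
  · left
    unfold pm
    rw [dif_neg h1]

open Classical in
/-- marks joined to a far end -/
noncomputable def YS : Finset ℤ :=
  (MS C c0).filter fun k => ∃ (hk : Mk C c0 k) (j : Fin 3), G.Reachable (f ⟨k, hk⟩) (y j)

variable {G f y} in
lemma mem_YS {k : ℤ} : k ∈ YS G f y ↔ ∃ (hk : Mk C c0 k) (j : Fin 3),
    G.Reachable (f ⟨k, hk⟩) (y j) := by
  classical
  unfold YS
  rw [Finset.mem_filter, mem_MS]
  constructor
  · exact fun h => h.2
  · exact fun h => ⟨h.1, h⟩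

end patterns

namespace Wo

variable {C : CD} {n s : ℤ} {cr : ℤ → Bool} {x0 r i j k k' : ℤ} {c0 : Bool}
  {Q Λ D : Set (ℤ × ℤ)} {w ω : Finset (ℤ × ℤ)} {y : Fin 3 → ℤ × ℤ}

variable (H : Wo C n s cr c0 x0 r Q Λ D w y)

include H


lemma pm_of {a b : {k // Mk C c0 k}} (hb : b ≠ a) (h : (Gout C n s cr x0 r c0 Λ D w).Reachable ((nw C n s c0) a) ((nw C n s c0) b)) :
    pm (Gout C n s cr x0 r c0 Λ D w) (nw C n s c0) a = b := by
  have h1 : ∃ b, b ≠ a ∧ (Gout C n s cr x0 r c0 Λ D w).Reachable ((nw C n s c0) a) ((nw C n s c0) b) := ⟨b, hb, h⟩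
  unfold pm
  rw [dif_pos h1]
  exact H.out_uniq h1.choose_spec.2 h h1.choose_spec.1 hb

lemma pm_inv (a : {k // Mk C c0 k}) : pm (Gout C n s cr x0 r c0 Λ D w) (nw C n s c0) (pm (Gout C n s cr x0 r c0 Λ D w) (nw C n s c0) a) = a := by
  rcases pm_spec (G := (Gout C n s cr x0 r c0 Λ D w)) (f := (nw C n s c0)) a with h | ⟨h1, h2⟩
  · rw [h, h]
  · exact H.pm_of h1.symm (SimpleGraph.Reachable.symm h2)

lemma pm_far (a : {k // Mk C c0 k}) : pm (Gout C n s cr x0 r c0 Λ D w) (nw C n s c0) a = a ↔ ∃ j, (Gout C n s cr x0 r c0 Λ D w).Reachable ((nw C n s c0) a) (y j) := by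
  constructor
  · intro h
    rcases H.out_cases a with ⟨b, hb, h1⟩ | h1
    · rw [H.pm_of hb h1] at h; exact absurd h hb
    · exact h1
  · rintro ⟨j, hj⟩
    rcases pm_spec (G := (Gout C n s cr x0 r c0 Λ D w)) (f := (nw C n s c0)) a with h | ⟨h1, h2⟩
    · exact h
    · exact absurd hj (H.out_excl h2 h1 j)

/-- **`1` or `3` marks are joined to a far end.** -/
theorem out_card : (YS (Gout C n s cr x0 r c0 Λ D w) (nw C n s c0) y).card = 1 ∨ (YS (Gout C n s cr x0 r c0 Λ D w) (nw C n s c0) y).card = 3 := by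
  classical
  set YS0 := YS (Gout C n s cr x0 r c0 Λ D w) (nw C n s c0) y with hYS
  have hsub : YS0 ⊆ MS C c0 := by
    intro k hk
    rw [hYS, mem_YS] at hk
    exact mem_MS.2 hk.1
  -- at most three
  have h3 : YS0.card ≤ 3 := by
    have : YS0.card ≤ (Finset.univ : Finset (Fin 3)).card := by
      refine Finset.card_le_card_of_injOn (fun k => if h : ∃ (hk : Mk C c0 k) (j : Fin 3), (Gout C n s cr x0 r c0 Λ D w).Reachable ((nw C n s c0) ⟨k, hk⟩) (y j)
        then h.choose_spec.choose else 0) (fun _ _ => Finset.mem_coe.2 (Finset.mem_univ _)) ?_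
      intro a ha b hb hab
      rw [Finset.mem_coe, hYS, mem_YS] at ha hb
      simp only [dif_pos ha, dif_pos hb] at hab
      have h1 := ha.choose_spec.choose_spec
      have h2 := hb.choose_spec.choose_spec
      rw [hab] at h1
      exact congrArg Subtype.val (H.far_inj h1 h2)
    simpa using this
  -- parity
  have hpar : ((MS C c0 \ YS0).card : ZMod 2) = 0 := by
    have h1 : ∑ k ∈ MS C c0 \ YS0, (1 : ZMod 2) = 0 := by
      refine Finset.sum_involution
        (fun k hk => (pm (Gout C n s cr x0 r c0 Λ D w) (nw C n s c0) ⟨k, mem_MS.1 (Finset.mem_sdiff.1 hk).1⟩).1) ?_ ?_ ?_ ?_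
      · intro k hk; decide
      · intro k hk _ he
        rw [Finset.mem_sdiff] at hk
        have h4 : pm (Gout C n s cr x0 r c0 Λ D w) (nw C n s c0) ⟨k, mem_MS.1 hk.1⟩ = ⟨k, mem_MS.1 hk.1⟩ := Subtype.ext he
        rw [H.pm_far] at h4
        exact hk.2 (by rw [hYS, mem_YS]; exact ⟨_, h4⟩)
      · intro k hk
        rw [Finset.mem_sdiff]
        rw [Finset.mem_sdiff] at hk
        refine ⟨mem_MS.2 (pm (Gout C n s cr x0 r c0 Λ D w) (nw C n s c0) ⟨k, mem_MS.1 hk.1⟩).2, fun h4 => hk.2 ?_⟩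
        obtain ⟨hk', j, hj⟩ := mem_YS.1 h4
        refine mem_YS.2 ?_
        have h5 : pm (Gout C n s cr x0 r c0 Λ D w) (nw C n s c0) (pm (Gout C n s cr x0 r c0 Λ D w) (nw C n s c0) ⟨k, mem_MS.1 hk.1⟩) = pm (Gout C n s cr x0 r c0 Λ D w) (nw C n s c0) ⟨k, mem_MS.1 hk.1⟩ := (H.pm_far _).2 ⟨j, hj⟩
        rw [H.pm_inv] at h5
        exact ⟨mem_MS.1 hk.1, (H.pm_far _).1 h5.symm⟩
      · intro k hk
        have := H.pm_inv ⟨k, mem_MS.1 (Finset.mem_sdiff.1 hk).1⟩
        exact congrArg Subtype.val this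
    rwa [Finset.sum_const, nsmul_eq_mul, mul_one] at h1
  have hodd := odd_MS (C := C) (c0 := c0)
  have hcard := Finset.card_sdiff_add_card_eq_card hsub
  rw [← hcard] at hodd
  push_cast at hodd
  rw [hpar, zero_add] at hodd
  have : YS0.card ≠ 0 := fun h => by rw [h] at hodd; simp at hodd
  have : YS0.card ≠ 2 := fun h => by rw [h] at hodd; exact absurd hodd (by decide)
  omega

/-- **One far end.** -/
theorem value_const (h1 : (YS (Gout C n s cr x0 r c0 Λ D w) (nw C n s c0) y).card = 1) : ∃ j0, ∀ (a : {k // Mk C c0 k}) (j),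
    (Gout C n s cr x0 r c0 Λ D w).Reachable ((nw C n s c0) a) (y j) → j = j0 := by
  rw [Finset.card_eq_one] at h1
  obtain ⟨k, hk⟩ := h1
  have hk1 : k ∈ YS (Gout C n s cr x0 r c0 Λ D w) (nw C n s c0) y := by rw [hk]; exact Finset.mem_singleton_self k
  rw [mem_YS] at hk1
  obtain ⟨hk2, j0, hj0⟩ := hk1
  refine ⟨j0, fun a j hj => ?_⟩
  have ha : a.1 ∈ YS (Gout C n s cr x0 r c0 Λ D w) (nw C n s c0) y := mem_YS.2 ⟨a.2, j, hj⟩
  rw [hk, Finset.mem_singleton] at ha
  have : a = ⟨k, hk2⟩ := Subtype.ext ha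
  rw [this] at hj
  exact H.far_uniq hj hj0

/-- **Three far ends.** -/
theorem exists_th (hP : Pln (Gout C n s cr x0 r c0 Λ D w) (nw C n s c0) y)
    (h3 : (YS (Gout C n s cr x0 r c0 Λ D w) (nw C n s c0) y).card = 3) :
    ∃ θ : Th C c0, IsTh (Gout C n s cr x0 r c0 Λ D w) (nw C n s c0) y θ := by
  classical
  set e := (YS (Gout C n s cr x0 r c0 Λ D w) (nw C n s c0) y).orderEmbOfFin h3 with he
  have hmem : ∀ i, ∃ (hk : Mk C c0 (e i)) (j : Fin 3), (Gout C n s cr x0 r c0 Λ D w).Reachable ((nw C n s c0) ⟨e i, hk⟩) (y j) := fun i =>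
    mem_YS.1 (Finset.orderEmbOfFin_mem _ h3 i)
  have hrng : ∀ k, (∃ (hk : Mk C c0 k) (j : Fin 3), (Gout C n s cr x0 r c0 Λ D w).Reachable ((nw C n s c0) ⟨k, hk⟩) (y j)) → ∃ i, e i = k := by
    intro k hk
    have h4 := Finset.range_orderEmbOfFin _ h3
    have h5 : k ∈ Set.range e := by rw [he, h4]; exact Finset.mem_coe.2 (mem_YS.2 hk)
    exact h5
  choose hM t ht using hmem
  -- the far ends are in the opposite order
  have hanti : ∀ i j, i < j → t j < t i := by
    intro i j hij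
    rcases lt_trichotomy (t i) (t j) with h | h | h
    · exact absurd (hP.p3 _ _ (e.strictMono hij) _ _ h (ht i) (ht j)) id
    · exfalso
      have h6 := ht i
      rw [h] at h6
      have := congrArg Subtype.val (H.far_inj h6 (ht j))
      exact absurd (e.injective this) hij.ne
    · exact h
  have ht0 : ∀ i : Fin 3, t i = Fin.rev i := by
    have a1 := hanti 0 1 (by decide)
    have a2 := hanti 1 2 (by decide)
    have b0 := (t 0).2
    have b1 := (t 1).2
    have b2 := (t 2).2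
    rw [Fin.lt_def] at a1 a2
    intro i
    apply Fin.ext
    fin_cases i
    · show (t 0).1 = 2; omega
    · show (t 1).1 = 1; omega
    · show (t 2).1 = 0; omega
  set m : ℤ → ℤ := fun k => if hk : Mk C c0 k then (pm (Gout C n s cr x0 r c0 Λ D w) (nw C n s c0) ⟨k, hk⟩).1 else k with hm
  have hmk : ∀ k (hk : Mk C c0 k), m k = (pm (Gout C n s cr x0 r c0 Λ D w) (nw C n s c0) ⟨k, hk⟩).1 := fun k hk => by
    rw [hm]; simp only; rw [dif_pos hk]
  have hlink : ∀ k (hk : Mk C c0 k), m k ≠ k → (Gout C n s cr x0 r c0 Λ D w).Reachable ((nw C n s c0) ⟨k, hk⟩) ((nw C n s c0) (pm (Gout C n s cr x0 r c0 Λ D w) (nw C n s c0) ⟨k, hk⟩)) := by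
    intro k hk hne
    rw [hmk k hk] at hne
    rcases pm_spec (G := (Gout C n s cr x0 r c0 Λ D w)) (f := (nw C n s c0)) ⟨k, hk⟩ with h | ⟨-, h2⟩
    · exact absurd (congrArg Subtype.val h) hne
    · exact h2
  have hmm : ∀ k, Mk C c0 k → Mk C c0 (m k) := fun k hk => by rw [hmk k hk]; exact (pm (Gout C n s cr x0 r c0 Λ D w) (nw C n s c0) ⟨k, hk⟩).2
  have hinv : ∀ k, Mk C c0 k → m (m k) = k := fun k hk => by
    rw [hmk _ (hmm k hk)]
    have : (⟨m k, hmm k hk⟩ : {k // Mk C c0 k}) = pm (Gout C n s cr x0 r c0 Λ D w) (nw C n s c0) ⟨k, hk⟩ := Subtype.ext (hmk k hk)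
    rw [this, H.pm_inv]
  have hfx : ∀ k, Mk C c0 k → (m k = k ↔ ∃ j : Fin 3, k = e (Fin.rev j)) := by
    intro k hk
    have h7 : m k = k ↔ ∃ j, (Gout C n s cr x0 r c0 Λ D w).Reachable ((nw C n s c0) ⟨k, hk⟩) (y j) := by
      rw [hmk k hk, ← H.pm_far]
      constructor
      · exact fun h => Subtype.ext h
      · exact fun h => congrArg Subtype.val h
    rw [h7]
    constructor
    · intro h
      obtain ⟨i, hi⟩ := hrng k ⟨hk, h⟩
      exact ⟨Fin.rev i, by rw [Fin.rev_rev, hi]⟩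
    · rintro ⟨j, rfl⟩
      exact ⟨_, ht _⟩
  refine ⟨⟨m, fun j => e (Fin.rev j), hmm, hinv, fun j => hM _, hfx, ?_, ?_, ?_⟩, ?_, ?_, ?_⟩
  · exact ⟨e.strictMono (by decide), e.strictMono (by decide)⟩
  · -- two arcs do not cross
    intro a b ha hb hab hbm
    have hra := hlink a ha (by intro h; omega)
    have ea : (pm (Gout C n s cr x0 r c0 Λ D w) (nw C n s c0) ⟨a, ha⟩).1 = m a := (hmk a ha).symm
    by_cases hb' : m b = b
    · exfalso
      obtain ⟨j, hj⟩ := (H.pm_far ⟨b, hb⟩).1 (Subtype.ext ((hmk b hb).symm.trans hb'))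
      exact hP.p2 ⟨a, ha⟩ ⟨b, hb⟩ (pm (Gout C n s cr x0 r c0 Λ D w) (nw C n s c0) ⟨a, ha⟩) hab (by rw [ea]; exact hbm) hra j hj
    · have hrb := hlink b hb hb'
      have eb : (pm (Gout C n s cr x0 r c0 Λ D w) (nw C n s c0) ⟨b, hb⟩).1 = m b := (hmk b hb).symm
      rcases lt_trichotomy (m b) a with h | h | h
      · exfalso
        exact hP.p1 (pm (Gout C n s cr x0 r c0 Λ D w) (nw C n s c0) ⟨b, hb⟩) ⟨a, ha⟩ ⟨b, hb⟩ (pm (Gout C n s cr x0 r c0 Λ D w) (nw C n s c0) ⟨a, ha⟩) (by rw [eb]; exact h) hab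
          (by rw [ea]; exact hbm) (SimpleGraph.Reachable.symm hrb) hra
      · exfalso
        have := hinv b hb
        rw [h] at this
        omega
      · refine ⟨h, ?_⟩
        rcases lt_trichotomy (m b) (m a) with h' | h' | h'
        · exact h'
        · exfalso
          have h8 := hinv b hb
          rw [h', hinv a ha] at h8
          omega
        · exfalso
          exact hP.p1 ⟨a, ha⟩ ⟨b, hb⟩ (pm (Gout C n s cr x0 r c0 Λ D w) (nw C n s c0) ⟨a, ha⟩) (pm (Gout C n s cr x0 r c0 Λ D w) (nw C n s c0) ⟨b, hb⟩) hab (by rw [ea]; exact hbm)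
            (by rw [ea, eb]; exact h') hra hrb
  · -- no arc over an unmatched mark
    rintro a j ha ⟨h1, h2⟩
    have hra := hlink a ha (by intro h; omega)
    have ea : (pm (Gout C n s cr x0 r c0 Λ D w) (nw C n s c0) ⟨a, ha⟩).1 = m a := (hmk a ha).symm
    exact hP.p2 ⟨a, ha⟩ ⟨_, hM (Fin.rev j)⟩ (pm (Gout C n s cr x0 r c0 Λ D w) (nw C n s c0) ⟨a, ha⟩) h1 (by rw [ea]; exact h2) hra _ (ht _)
  · intro a b hab
    by_cases hba : b = a
    · left; rw [hba]
    · right
      show b.1 = m a.1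
      rw [hmk a.1 a.2, H.pm_of hba hab]
  · intro a b hab
    change b.1 = m a.1 at hab
    by_cases hba : b = a
    · rw [hba]
    · have h9 := hlink a.1 a.2 (by rw [← hab]; exact fun h => hba (Subtype.ext h))
      have e9 : pm (Gout C n s cr x0 r c0 Λ D w) (nw C n s c0) ⟨a.1, a.2⟩ = b := Subtype.ext (by rw [hab, hmk a.1 a.2])
      rw [e9] at h9
      exact h9
  · intro j a
    show (Gout C n s cr x0 r c0 Λ D w).Reachable ((nw C n s c0) a) (y j) ↔ a.1 = e (Fin.rev j)
    have hj : t (Fin.rev j) = j := by rw [ht0, Fin.rev_rev]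
    constructor
    · intro h
      have h10 := ht (Fin.rev j)
      rw [hj] at h10
      have := congrArg Subtype.val (H.far_inj h h10)
      exact this
    · intro h
      have h10 := ht (Fin.rev j)
      rw [hj] at h10
      have : a = ⟨e (Fin.rev j), hM _⟩ := Subtype.ext h
      rw [this]; exact h10

/-- **Summary.** -/
theorem pattern_cases (hP : Pln (Gout C n s cr x0 r c0 Λ D w) (nw C n s c0) y) :
    (∃ j0, ∀ (a : {k // Mk C c0 k}) (j), (Gout C n s cr x0 r c0 Λ D w).Reachable ((nw C n s c0) a) (y j) → j = j0) ∨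
      ∃ θ : Th C c0, IsTh (Gout C n s cr x0 r c0 Λ D w) (nw C n s c0) y θ := by
  rcases H.out_card with h | h
  · exact Or.inl (H.value_const h)
  · exact Or.inr (H.exists_th hP h)

/-- the value in the first case -/
theorem reach_const (hω : ω ⊆ ER C n) {j0 : Fin 3}
    (h0 : ∀ (a : {k // Mk C c0 k}) (j), (Gout C n s cr x0 r c0 Λ D w).Reachable ((nw C n s c0) a) (y j) → j = j0) (j : Fin 3) :
    (SG Λ D (w ∪ trF (-s) s ω)).Reachable (tr (-s) s (eW (lt (x0, r)))) (y j) ↔ j = j0 := by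
  have key : ∀ j, (SG Λ D (w ∪ trF (-s) s ω)).Reachable (tr (-s) s (eW (lt (x0, r)))) (y j) →
      j = j0 := by
    intro j hj
    rw [pass H.rm H.ok hω (H.yo j)] at hj
    obtain ⟨a, -, h2⟩ := hj
    exact h0 a j h2
  constructor
  · exact key j
  · rintro rfl
    obtain ⟨j', hj'⟩ := H.far_ex hω
    have := key j' hj'
    rwa [this] at hj'

/-- the value in the second case -/
theorem reach_th (hω : ω ⊆ ER C n) {θ : Th C c0} (h0 : IsTh (Gout C n s cr x0 r c0 Λ D w) (nw C n s c0) y θ) (j : Fin 3) :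
    (SG Λ D (w ∪ trF (-s) s ω)).Reachable (tr (-s) s (eW (lt (x0, r)))) (y j) ↔
      (GT θ n (x0, r) ω).Reachable (eW (lt (x0, r))) (nm C c0 n (θ.x j)) := by
  rw [value_th H.rm H.ok hω θ h0.t1 h0.t2 (H.yo j) j (fun a => h0.t3 j a)]
  unfold GT GR
  rw [room_cr H.rm.hn H.ok ⟨crOk_crz c0 r, H.ok.hr0, H.ok.hr1, H.ok.hx0, H.ok.hx1⟩]

end Wo

end Pool.Agent.H29.W
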