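import Mathlib
import Pool.Agent.H29.W.RoomX

set_option autoImplicit false
open Finset

/-! # The outside of a room and the cut region

`Lc` : the tiles of the world except the tiles of the room and the layer tiles of its right wall. `trans` : an
outer link which starts at a named end is a strand of `SG Lc D w`. `sn` : the side between the room and the
closed wall tile at a named end, `sn_link` : it is joined to the named end in `SG Lc D w` (if the right wall is
closed: `sn` is the named end). `pln_of` : planarity of `SG Lc D w` gives `Pln`. -/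

namespace Pool.Agent.H29.W

open Pool.Agent.H75.Perc hiding WL CT hh PB
open Pool.Agent.H75.TwoArm Pool.Agent.H99.W Pool.Agent.H13.W Pool.Agent.H33.Q1
open Pool.Agent.H54.W (CD)
open Pool.Agent.H21.W Pool.Agent.H20.W
open Pool.Agent.H45.W

/-- the cut region -/
def Lc (C : CD) (n s : ℤ) (Λ : Set (ℤ × ℤ)) : Set (ℤ × ℤ) :=
  {e | e ∈ Λ ∧ ∀ x y, e = lt (x, y + s) → ¬ RP C n x y ∧ ¬ (x = n * C.W ∧ 0 ≤ y ∧ y < n * C.H)}

/-- the right wall is thin -/
structure ThinR (C : CD) (n s : ℤ) (Q Λ : Set (ℤ × ℤ)) : Prop where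
  q : ∀ x y, n * C.W ≤ x → x ≤ n * C.W + 1 → -1 ≤ y → y ≤ n * C.H → lt (x, y + s) ∉ Q
  l : ∀ y, 0 ≤ y → y < n * C.H → lt (n * C.W + 1, y + s) ∉ Λ

namespace Wo

variable {C : CD} {n s : ℤ} {cr : ℤ → Bool} {x0 r i j k k' : ℤ} {c0 : Bool}
  {Q Λ D : Set (ℤ × ℤ)} {w ω : Finset (ℤ × ℤ)} {y : Fin 3 → ℤ × ℤ}
  (H : Wo C n s cr c0 x0 r Q Λ D w y) (T : ThinR C n s Q Λ)

include H


/-- coordinates of a label -/
lemma coord {e : ℤ × ℤ} (he : e ∈ Λ) : ∃ x v, e = lt (x, v + s) := by
  have h1 := lt_tt (H.wld0.odd e he)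
  exact ⟨(tt e).1, (tt e).2 - s, by rw [sub_add_cancel]; exact h1.symm⟩

/-- a side of the right layer away from the room is not visited -/
lemma not_AS (T : ThinR C n s Q Λ) {v : ℤ} (h0 : 0 ≤ v) (h1 : v < n * C.H) :
    ¬ (AS Q Λ D w ({tr (-s) s (eW (lt (x0, r)))} ∪ Set.range y)) (eE (lt (n * C.W, v + s))) := by
  have hp := H.rm.hn
  rw [eE_lt]
  rintro (⟨e, he, hs⟩ | ⟨P, hP, hs, hB, -⟩)
  · rcases tiles_eW (H.wld0.oddQ he) hs with rfl | rfl
    · exact T.q _ _ (by omega) (by omega) (by omega) (by omega) he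
    · rw [add_sub_cancel_right] at he
      exact T.q _ _ (by omega) (by omega) (by omega) (by omega) he
  · obtain ⟨i, j, rfl⟩ := exists_pt' hP
    obtain ⟨e, he, c, h2, h3⟩ := hB
    obtain ⟨x, v', rfl⟩ := H.coord (H.wld0.sub he)
    obtain ⟨g1, g2, -⟩ := geo h2 h3
    have hh : i = n * C.W + 1 ∧ (j = v + s ∨ j = v + s + 1) := by
      unfold Pool.Agent.H45.W.sq eW lt pt at hs
      simp only at hs
      omega
    exact T.q x v' (by omega) (by omega) (by omega) (by omega) he

/-- the exit sides -/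
lemma exit_tiles {v : ℤ × ℤ} (hv : v = eS (lt (n * C.W, r + s)) ∨ v = eN (lt (n * C.W, r + s)))
    {e : ℤ × ℤ} (ho : od e) (hs : Pool.Agent.H45.W.sq v e) :
    ∃ u, 0 ≤ u ∧ u < n * C.H ∧ e = lt (n * C.W, u + s) := by
  have h0 := H.ok.hr0
  have h1 := H.ok.hr1
  rcases hv with rfl | rfl
  · rcases tiles_eS ho hs with rfl | rfl
    · exact ⟨r, by omega, by omega, rfl⟩
    · exact ⟨r - 1, by omega, by omega, lt_congr rfl (by ring)⟩
  · rw [eN_lt] at hs
    rcases tiles_eS ho hs with rfl | rfl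
    · exact ⟨r + 1, by omega, by omega, lt_congr rfl (by ring)⟩
    · exact ⟨r, by omega, by omega, lt_congr rfl (by ring)⟩

/-- a tile of an outer link -/
lemma go_tile {v v' : ℤ × ℤ} (h : (Gout C n s cr x0 r c0 Λ D w).Adj v v') : (SG (Lc C n s Λ) D w).Adj v v' ∨
    (∃ u, 0 ≤ u ∧ u < n * C.H ∧ (v = eE (lt (n * C.W, u + s)) ∨ v' = eE (lt (n * C.W, u + s)))) ∨
    (v = eS (lt (n * C.W, r + s)) ∧ v' = eN (lt (n * C.W, r + s))) ∨
    (v = eN (lt (n * C.W, r + s)) ∧ v' = eS (lt (n * C.W, r + s))) := by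
  have hp : 0 < n := by have := H.rm.hn; omega
  rcases h with ⟨⟨e, he, hT⟩, hv, hv'⟩ | ⟨e, ⟨heΛ, he⟩, hT⟩
  · obtain ⟨t1, t2, t3⟩ := TJ.sqs hT
    obtain ⟨x, u, rfl⟩ := H.coord (H.rm.part_sub he)
    rw [RoomIn.mem_part] at he
    -- room tiles have inner sides
    have inn : ∀ v x u, RP C n x u → Pool.Agent.H45.W.sq v (lt (x, u + s)) →
        v ∈ Ii C n s cr x0 r c0 := by
      intro v x u hq hs
      left
      refine ⟨lt (x, u), mem_Qr.2 hq, ?_⟩
      rw [← sq_tr (a := -s) (b := s), tr_forth, tr_lt]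
      exact hs
    have hq : ¬ RP C n x u := fun hq => hv (inn v x u hq t2)
    by_cases hR : x = n * C.W ∧ 0 ≤ u ∧ u < n * C.H
    · obtain ⟨rfl, hu0, hu1⟩ := hR
      right
      have hqW := RP_right (C := C) hp hu0 hu1
      have hnW : ∀ v, v ∉ Ii C n s cr x0 r c0 → v ≠ eW (lt (n * C.W, u + s)) := by
        rintro v hv rfl
        exact hv (inn _ _ _ hqW (sq_eW_left _ _))
      by_cases hD : lt (n * C.W, u + s) ∈ D
      · have hur : u = r := by
          rw [H.rm.del _ _ he] at hD; exact hD.1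
        subst hur
        right
        exact (Pool.Agent.H21.W.TJ_iff_del hD).1 hT
      · left
        refine ⟨u, hu0, hu1, ?_⟩
        by_cases hal : Al w (n * C.W) (u + s)
        · rcases (TJ_iff_al hD hal).1 hT with g | g | g | g
          · exact absurd g.1 (hnW v hv)
          · exact absurd g.2 (hnW v' hv')
          · exact Or.inr g.2
          · exact Or.inl g.1
        · rcases (TJ_iff_be hD hal).1 hT with g | g | g | g
          · exact absurd g.1 (hnW v hv)
          · exact absurd g.2 (hnW v' hv')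
          · exact Or.inr g.2
          · exact Or.inl g.1
    · left
      refine ⟨lt (x, u + s), ⟨H.rm.tile _ _ he, ?_⟩, hT⟩
      intro x' u' e
      have := lt_inj e
      simp only [Prod.mk.injEq] at this
      obtain ⟨rfl, h2⟩ := this
      have : u = u' := by omega
      subst this
      exact ⟨hq, hR⟩
  · left
    obtain ⟨x, u, rfl⟩ := H.coord heΛ
    rw [RoomIn.mem_part] at he
    refine ⟨_, ⟨heΛ, ?_⟩, hT⟩
    intro x' u' e
    have := lt_inj e
    simp only [Prod.mk.injEq] at this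
    obtain ⟨rfl, h2⟩ := this
    have : u = u' := by omega
    subst this
    refine ⟨fun hq => he (Or.inl hq), ?_⟩
    rintro ⟨rfl, h3, h4⟩
    exact he (RT_right hp h3 h4)

lemma nw_not_exit (a : {k // Mk C c0 k}) :
    (nw C n s c0) a ≠ eS (lt (n * C.W, r + s)) ∧ (nw C n s c0) a ≠ eN (lt (n * C.W, r + s)) := by
  have hp : 0 < n := by have := H.rm.hn; omega
  obtain ⟨e, o, P, h1, h2, h3, h4, h5, h6, h7, h8, h9, h10, h11, h12⟩ := H.tiles a
  constructor
  · intro hv
    rw [hv] at h7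
    obtain ⟨u, u0, u1, rfl⟩ := H.exit_tiles (Or.inl rfl) h4 h7
    exact h5 (RoomIn.mem_part.2 (RT_right hp u0 u1))
  · intro hv
    rw [hv] at h7
    obtain ⟨u, u0, u1, rfl⟩ := H.exit_tiles (Or.inr rfl) h4 h7
    exact h5 (RoomIn.mem_part.2 (RT_right hp u0 u1))

/-- **An outer link of a named end is a strand of the cut region.** -/
theorem trans (T : ThinR C n s Q Λ) (a : {k // Mk C c0 k}) {v : ℤ × ℤ}
    (h : (Gout C n s cr x0 r c0 Λ D w).Reachable ((nw C n s c0) a) v) : (SG (Lc C n s Λ) D w).Reachable ((nw C n s c0) a) v := by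
  have hW := H.wld0
  set L : Set (ℤ × ℤ) := {c | ∃ u, 0 ≤ u ∧ u < n * C.H ∧ c = eE (lt (n * C.W, u + s))} with hL
  have hLA : ∀ c, (AS Q Λ D w ({tr (-s) s (eW (lt (x0, r)))} ∪ Set.range y)) c → c ∉ L := by
    rintro c hc ⟨u, u0, u1, rfl⟩
    exact H.not_AS T u0 u1 hc
  have hEnd : ∀ l ∈ L, IsEnd (Gout C n s cr x0 r c0 Λ D w) l := by
    rintro l ⟨u, u0, u1, rfl⟩
    refine IsEnd.mono' ?_ H.go_le
    apply isEnd_of_notMem
    have h2 := T.l u u0 u1
    have h3 : od (lt (n * C.W + 1, u + s)) := od_lt _ _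
    have h4 : Pool.Agent.H45.W.sq (eE (lt (n * C.W, u + s))) (lt (n * C.W + 1, u + s)) := by
      rw [eE_lt]; exact sq_eW_right _ _
    rcases (lab_iff _ _).2 ⟨h3, h4⟩ with g | g
    · left; rw [← g]; exact h2
    · right; rw [← g]; exact h2
  have ha := H.nw_AS a
  have hv := hW.reach_mem ha (h.mono H.go_le)
  rw [leaf hEnd (hLA _ ha) (hLA _ hv)] at h
  obtain ⟨p⟩ := h
  have key : ∀ (u v : ℤ × ℤ) (_ : (off (Gout C n s cr x0 r c0 Λ D w) L).Walk u v),
      (u ≠ eS (lt (n * C.W, r + s)) ∧ u ≠ eN (lt (n * C.W, r + s))) →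
      (SG (Lc C n s Λ) D w).Reachable u v := by
    intro u v p
    induction p with
    | nil => exact fun _ => SimpleGraph.Reachable.refl _
    | @cons u c v huc _ ih =>
      intro hu
      rcases H.go_tile huc.1 with h1 | ⟨t, t0, t1, h1⟩ | h1 | h1
      · refine h1.reachable.trans (ih ?_)
        obtain ⟨e, ⟨-, he⟩, hT⟩ := h1
        obtain ⟨t1, t2, t3⟩ := TJ.sqs hT
        constructor
        · intro hc
          obtain ⟨q, q0, q1, rfl⟩ := H.exit_tiles (Or.inl hc) t1 t3
          exact (he _ _ rfl).2 ⟨rfl, q0, q1⟩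
        · intro hc
          obtain ⟨q, q0, q1, rfl⟩ := H.exit_tiles (Or.inr hc) t1 t3
          exact (he _ _ rfl).2 ⟨rfl, q0, q1⟩
      · exfalso
        rcases h1 with h1 | h1
        · exact huc.2.1 ⟨t, t0, t1, h1⟩
        · exact huc.2.2 ⟨t, t0, t1, h1⟩
      · exact absurd h1.1 hu.1
      · exact absurd h1.1 hu.2
  exact key _ _ p (H.nw_not_exit a)

/-- the side between the room and the closed wall tile, in the world -/
noncomputable def _root_.Pool.Agent.H29.W.sw (C : CD) (n s : ℤ) (c0 : Bool) (k : {k // Mk C c0 k}) :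
    ℤ × ℤ := tr (-s) s (sn C n c0 k.1)

/-- **link in the cut region** -/
theorem sn_link (a : {k // Mk C c0 k}) :
    (SG (Lc C n s Λ) D w).Reachable ((nw C n s c0) a) (sw C n s c0 a) := by
  have hn := H.rm.hn
  have he := H.rm.he
  have hs := H.rm.hs
  obtain ⟨i, j, x, v, T⟩ := nm_tiles hn H.ok.hc H.ok.hr0 H.ok.hr1 H.ok.hx0 a.2
  rcases T.sl with ⟨-, hxW, h1⟩ | ⟨-, -, -, -, h1⟩
  · have hT : TJ D w (lt (x, v + s)) ((nw C n s c0) a) (sw C n s c0 a) := by
      have hcl : lt (x, v + s) ∉ w := by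
        rw [H.rm.col x v T.rt T.np, T.cl]; simp
      have hD : lt (x, v + s) ∉ D := by
        rw [H.rm.del x v T.rt]; exact T.nd
      have e1 := even_mul he (qx C a.1)
      have e2 := even_mul he (qy C a.1)
      rw [← T.hi] at e1
      rw [← T.hj] at e2
      have hP : ev (tr (-s) s (pt i j)) := by unfold ev tr pt; simp only; omega
      have hst : lt (x, v + s) ∈ w ↔ (tr (-s) s (pt i j)).1 % 2 = 1 := by
        refine iff_of_false hcl ?_
        unfold tr pt; simp only; omega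
      have s1 : Pool.Agent.H45.W.sq (eW (lt (i, v))) (lt (x, v)) := by
        rcases T.hx with e | e <;> rw [e]
        · exact sq_eW_right _ _
        · exact sq_eW_left _ _
      have s2 : Pool.Agent.H45.W.sq (eS (lt (x, j))) (lt (x, v)) := by
        rcases T.hy with e | e <;> rw [e]
        · exact sq_eS_up _ _
        · exact sq_eS_dn _ _
      have hne : eW (lt (i, v)) ≠ eS (lt (x, j)) := by
        intro e
        unfold eW eS lt at e
        simp only [Prod.mk.injEq] at e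
        omega
      have key : ∀ c d, Pool.Agent.H45.W.sq c (lt (x, v)) → Pool.Agent.H45.W.sq c (pt i j) →
          Pool.Agent.H45.W.sq d (lt (x, v)) → Pool.Agent.H45.W.sq d (pt i j) → c ≠ d →
          TJ D w (lt (x, v + s)) (tr (-s) s c) (tr (-s) s d) := by
        intro c d h2 h3 h4 h5 h6
        refine TJ_turn (od_lt _ _) hD hP hst ?_ (sq_tr.2 h3) ?_ (sq_tr.2 h5)
          (fun e => h6 (tr_injective _ _ e))
        · rw [← tr_lt]; exact sq_tr.2 h2
        · rw [← tr_lt]; exact sq_tr.2 h4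
      unfold nw sw
      rcases h1 with ⟨g1, g2⟩ | ⟨g1, g2⟩
      · rw [g1, g2]
        exact key _ _ s1 (sq_eW_pt T.hy) s2 (sq_eS_pt T.hx) hne
      · rw [g1, g2]
        exact key _ _ s2 (sq_eS_pt T.hx) s1 (sq_eW_pt T.hy) hne.symm
    refine SimpleGraph.Adj.reachable ⟨_, ⟨H.rm.tile _ _ T.rt, ?_⟩, hT⟩
    intro x' u' e
    have := lt_inj e
    simp only [Prod.mk.injEq] at this
    obtain ⟨rfl, h2⟩ := this
    have : v = u' := by omega
    subst this
    exact ⟨T.np, by omega⟩
  · unfold nw sw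
    rw [h1]

/-- a degenerate mark: the right wall is closed and the diagonal tile is missing -/
def _root_.Pool.Agent.H29.W.Dgn (C : CD) (n s : ℤ) (c0 : Bool) (Λ : Set (ℤ × ℤ))
    (a : {k // Mk C c0 k}) : Prop :=
  wd C c0 a.1 = 2 ∧ ∃ e, od e ∧ Pool.Agent.H45.W.sq (nw C n s c0 a) e ∧ e ∉ Λ

omit H in
lemma wd_two {k : ℤ} (h : Mk C c0 k) (h2 : wd C c0 k = 2) : k = -1 ∨ k = C.H + 1 := by
  have hn : (8 : ℤ) ≤ 8 := le_rfl
  rcases Mk_cases h with rfl | hk | hk | rfl
  · exact Or.inl rfl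
  · exfalso
    have := (fBL (n := 8) (cr := fun _ => true) (c0 := c0) hn hk).2.2
    rw [this] at h2
    split_ifs at h2
    · exact absurd h2 (by decide)
    · exact absurd h2 (by decide)
  · exfalso
    have := (fTL (n := 8) (cr := fun _ => true) (c0 := c0) hn hk).2.2
    rw [this] at h2
    split_ifs at h2
    · exact absurd h2 (by decide)
    · exact absurd h2 (by decide)
  · exact Or.inr rfl

/-- **Planarity of the cut region.** -/
structure _root_.Pool.Agent.H29.W.PlnC (C : CD) (n s : ℤ) (c0 : Bool) (Λ D : Set (ℤ × ℤ))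
    (w : Finset (ℤ × ℤ)) (y : Fin 3 → ℤ × ℤ) : Prop where
  n1 : ∀ a b c d : {k // Mk C c0 k}, a.1 < b.1 → b.1 < c.1 → c.1 < d.1 →
    ¬ Dgn C n s c0 Λ a → ¬ Dgn C n s c0 Λ d →
    (SG (Lc C n s Λ) D w).Reachable (sw C n s c0 a) (sw C n s c0 c) →
    (SG (Lc C n s Λ) D w).Reachable (sw C n s c0 b) (sw C n s c0 d) → False
  n2 : ∀ a b c : {k // Mk C c0 k}, a.1 < b.1 → b.1 < c.1 → ∀ j,
    ¬ Dgn C n s c0 Λ a → ¬ Dgn C n s c0 Λ c →
    (SG (Lc C n s Λ) D w).Reachable (sw C n s c0 a) (sw C n s c0 c) →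
    (SG (Lc C n s Λ) D w).Reachable (sw C n s c0 b) (y j) → False
  n3 : ∀ a b : {k // Mk C c0 k}, a.1 < b.1 → ∀ i j, i < j →
    ¬ Dgn C n s c0 Λ a → ¬ Dgn C n s c0 Λ b →
    (SG (Lc C n s Λ) D w).Reachable (sw C n s c0 a) (y i) →
    (SG (Lc C n s Λ) D w).Reachable (sw C n s c0 b) (y j) → False
  d1 : ∀ a : {k // Mk C c0 k}, a.1 = -1 → ∀ i, y i = nw C n s c0 a → i = 2
  d2 : ∀ a : {k // Mk C c0 k}, a.1 = C.H + 1 → ∀ i, y i = nw C n s c0 a → i = 0

/-- **Planarity of the outside from planarity of the cut region.** -/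
theorem pln_of (T : ThinR C n s Q Λ) (P : PlnC C n s c0 Λ D w y) : Pln (Gout C n s cr x0 r c0 Λ D w) (nw C n s c0) y := by
  have nd : ∀ (a : {k // Mk C c0 k}) (v : ℤ × ℤ), (nw C n s c0) a ≠ v → (Gout C n s cr x0 r c0 Λ D w).Reachable ((nw C n s c0) a) v →
      ¬ Dgn C n s c0 Λ a := by
    intro a v hne hr hd
    obtain ⟨c, hc⟩ := adj_of_reach' hr hne
    exact H.no_out a hd.2 c hc
  have inj : ∀ u v : {k // Mk C c0 k}, u.1 < v.1 → nw C n s c0 u ≠ nw C n s c0 v := fun u v hl e => by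
    have := nm_inj H.rm.hn (by have := H.ok.hr0; have := H.ok.hr1; omega) u.2 v.2
      (tr_injective _ _ e)
    omega
  have tr2 : ∀ (a : {k // Mk C c0 k}) (v : ℤ × ℤ), (Gout C n s cr x0 r c0 Λ D w).Reachable ((nw C n s c0) a) v →
      (SG (Lc C n s Λ) D w).Reachable (sw C n s c0 a) v := fun a v h =>
    (H.sn_link a).symm.trans (H.trans T a h)
  refine ⟨?_, ?_, ?_⟩
  · intro a b c d hab hbc hcd h1 h2
    exact P.n1 a b c d hab hbc hcd (nd a _ (inj a c (by omega)) h1)
      (nd d _ (inj b d (by omega)).symm h2.symm) ((tr2 a _ h1).trans (H.sn_link c))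
      ((tr2 b _ h2).trans (H.sn_link d))
  · intro a b c hab hbc h1 j h2
    exact P.n2 a b c hab hbc j (nd a _ (inj a c (by omega)) h1)
      (nd c _ (inj a c (by omega)).symm h1.symm) ((tr2 a _ h1).trans (H.sn_link c)) (tr2 b _ h2)
  · intro a b hab i j hij h1 h2
    by_cases hda : Dgn C n s c0 Λ a
    · have e : (nw C n s c0) a = y i := by
        by_contra hne
        exact nd a _ hne h1 hda
      have ha1 : a.1 = -1 := by
        rcases wd_two a.2 hda.1 with g | g
        · exact g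
        · exfalso
          have := b.2.2.1
          omega
      have := P.d1 a ha1 i e.symm
      subst this
      exact absurd hij (by have := j.2; simp only [Fin.lt_def, Fin.val_two]; omega)
    by_cases hdb : Dgn C n s c0 Λ b
    · have e : (nw C n s c0) b = y j := by
        by_contra hne
        exact nd b _ hne h2 hdb
      have hb1 : b.1 = C.H + 1 := by
        rcases wd_two b.2 hdb.1 with g | g
        · exfalso
          have := a.2.1
          omega
        · exact g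
      have := P.d2 b hb1 j e.symm
      subst this
      exact absurd hij (by simp)
    exact P.n3 a b hab i j hij hda hdb (tr2 a _ h1) (tr2 b _ h2)

end Wo

end Pool.Agent.H29.W
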