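import Mathlib
import Pool.Agent.H29.W.RoomY

set_option autoImplicit false
open Finset

/-! # The pattern of the outside in the cut region

`R_iff`, `Y_iff` : outer links of the marks are the strands of `SG Lc D w` between the sides `sw`. `isTh_iff` : the
pattern of the outside is a property of `SG Lc D w`, which does not depend on the moving end. -/

namespace Pool.Agent.H29.W

open Pool.Agent.H75.Perc hiding WL CT hh PB
open Pool.Agent.H75.TwoArm Pool.Agent.H99.W Pool.Agent.H13.W Pool.Agent.H33.Q1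
open Pool.Agent.H54.W (CD)
open Pool.Agent.H21.W Pool.Agent.H20.W
open Pool.Agent.H45.W

lemma dead_end {Λ D : Set (ℤ × ℤ)} {w : Finset (ℤ × ℤ)} {c e : ℤ × ℤ} (he : od e)
    (h1 : Pool.Agent.H45.W.sq c e) (hΛ : e ∉ Λ) : IsEnd (SG Λ D w) c := by
  apply isEnd_of_notMem
  rcases (lab_iff c e).2 ⟨he, h1⟩ with h | h
  · exact Or.inl (h ▸ hΛ)
  · exact Or.inr (h ▸ hΛ)

namespace Wo

variable {C : CD} {n s : ℤ} {cr : ℤ → Bool} {x0 r i j k k' : ℤ} {c0 : Bool}
  {Q Λ D : Set (ℤ × ℤ)} {w ω : Finset (ℤ × ℤ)} {y : Fin 3 → ℤ × ℤ}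
  (H : Wo C n s cr c0 x0 r Q Λ D w y)

include H


/-- the corner of a mark in the world -/
lemma sw_pt (a : {k // Mk C c0 k}) : Pool.Agent.H45.W.sq ((sw C n s c0) a)
    (tr (-s) s (pt (n * qx C a.1) (n * qy C a.1))) := by
  have hn := H.rm.hn
  obtain ⟨i, j, x, v, T⟩ := nm_tiles hn H.ok.hc H.ok.hr0 H.ok.hr1 H.ok.hx0 a.2
  unfold sw
  rw [sq_tr, ← T.hi, ← T.hj]
  rcases T.sl with ⟨-, -, ⟨-, g⟩ | ⟨-, g⟩⟩ | ⟨-, -, -, -, g⟩
  · rw [g]; exact sq_eS_pt T.hx
  · rw [g]; exact sq_eW_pt T.hy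
  · rw [g]
    obtain ⟨o, ho, hoL, s1, s2, s3, s4⟩ := T.sides
    exact s3

/-- **the sides are different** -/
lemma sw_inj {a b : {k // Mk C c0 k}} (e : (sw C n s c0) a = (sw C n s c0) b) : a = b := by
  have s1 := H.sw_pt a
  have s2 := H.sw_pt b
  rw [e] at s1
  have hn := H.rm.hn
  have hh : n * qx C a.1 - n * qx C b.1 ≤ 2 ∧ n * qx C b.1 - n * qx C a.1 ≤ 2 ∧
      n * qy C a.1 - n * qy C b.1 ≤ 2 ∧ n * qy C b.1 - n * qy C a.1 ≤ 2 := by
    unfold Pool.Agent.H45.W.sq pt tr at s1 s2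
    simp only at s1 s2
    omega
  exact Subtype.ext (q_inj a.2 b.2 (close_mul hn (by omega) (by omega))
    (close_mul hn (by omega) (by omega)))

/-- **the tiles at `sw`** -/
lemma sw_tiles (a : {k // Mk C c0 k}) : (∃ e, od e ∧ Pool.Agent.H45.W.sq ((sw C n s c0) a) e ∧
    e ∉ Lc C n s Λ) ∧ ((∀ e, od e → Pool.Agent.H45.W.sq ((sw C n s c0) a) e → e ∈ Λ) ∨
      ((sw C n s c0) a = (nw C n s c0) a ∧ ∃ e o, e ∈ Λ ∧ e ∉ Lc C n s Λ ∧
        ∀ e', od e' → Pool.Agent.H45.W.sq ((sw C n s c0) a) e' → e' = e ∨ e' = o)) := by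
  have hn := H.rm.hn
  obtain ⟨i, j, x, v, T⟩ := nm_tiles hn H.ok.hc H.ok.hr0 H.ok.hr1 H.ok.hx0 a.2
  obtain ⟨x', v', n1, n2, n3, n4⟩ := T.nr
  have hx := T.hx
  have hy := T.hy
  -- a tile of the room
  have room : ∀ x v, RP C n x v → lt (x, v + s) ∈ Λ ∧ lt (x, v + s) ∉ Lc C n s Λ := by
    intro x v h
    refine ⟨H.rm.tile _ _ (Or.inl h), ?_⟩
    rintro ⟨-, h2⟩
    exact (h2 _ _ rfl).1 h
  have hwl := H.rm.tile _ _ T.rt
  have pull : ∀ c e, od e → Pool.Agent.H45.W.sq (tr (-s) s c) e →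
      Pool.Agent.H45.W.sq c (tr s (-s) e) ∧ od (tr s (-s) e) := by
    intro c e ho hs
    refine ⟨?_, od_tr.2 ho⟩
    rw [← sq_tr (a := -s) (b := s), tr_forth]
    exact hs
  rcases T.sl with ⟨-, -, ⟨g1, g⟩ | ⟨g1, g⟩⟩ | ⟨-, g1, g2, g3, g⟩
  · -- `sn` is horizontal
    have hR : RP C n x (2 * j - 1 - v) := by
      rcases n4 with e | e
      · subst e
        have : v' = 2 * j - 1 - v := by
          by_contra hne
          have : v' = v := by omega
          rw [this] at n3; exact T.np n3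
        rw [← this]; exact n3
      · exfalso
        subst e
        have hx' : x' = 2 * i - 1 - x := by
          by_contra hne
          have : x' = x := by omega
          rw [this] at n3; exact T.np n3
        rcases T.en with ⟨-, h2⟩ | ⟨h1, -⟩
        · apply h2; rw [← hx']; exact Or.inl n3
        · rw [g1] at h1
          unfold eW eS lt at h1
          simp only [Prod.mk.injEq] at h1
          omega
    have t1 : Pool.Agent.H45.W.sq (eS (lt (x, j))) (lt (x, 2 * j - 1 - v)) := by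
      rcases T.hy with e | e <;> rw [e]
      · have e1 : 2 * j - 1 - j = j - 1 := by ring
        rw [e1]; exact sq_eS_dn _ _
      · have e1 : 2 * j - 1 - (j - 1) = j := by ring
        rw [e1]; exact sq_eS_up _ _
    refine ⟨⟨lt (x, 2 * j - 1 - v + s), od_lt _ _, ?_, (room _ _ hR).2⟩, Or.inl ?_⟩
    · unfold sw; rw [g, ← tr_lt]; exact sq_tr.2 t1
    · intro e ho hs
      unfold sw at hs
      rw [g] at hs
      obtain ⟨p1, p2⟩ := pull _ _ ho hs
      have key : tr s (-s) e = lt (x, v) ∨ tr s (-s) e = lt (x, 2 * j - 1 - v) := by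
        rcases tiles_eS p2 p1 with q | q <;> rw [q] <;> rcases T.hy with e' | e'
        · left; rw [e']
        · right; exact lt_congr rfl (by omega)
        · right; exact lt_congr rfl (by omega)
        · left; rw [e']
      rw [← tr_forth (s := s) e]
      rcases key with q | q <;> rw [q, tr_lt]
      · exact hwl
      · exact (room _ _ hR).1
  · -- `sn` is vertical
    have hR : RP C n (2 * i - 1 - x) v := by
      rcases n4 with e | e
      · exfalso
        subst e
        have hy' : v' = 2 * j - 1 - v := by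
          by_contra hne
          have : v' = v := by omega
          rw [this] at n3; exact T.np n3
        rcases T.en with ⟨h1, -⟩ | ⟨-, h2⟩
        · rw [g1] at h1
          unfold eW eS lt at h1
          simp only [Prod.mk.injEq] at h1
          omega
        · apply h2; rw [← hy']; exact Or.inl n3
      · subst e
        have : x' = 2 * i - 1 - x := by
          by_contra hne
          have : x' = x := by omega
          rw [this] at n3; exact T.np n3
        rw [← this]; exact n3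
    have t1 : Pool.Agent.H45.W.sq (eW (lt (i, v))) (lt (2 * i - 1 - x, v)) := by
      rcases T.hx with e | e <;> rw [e]
      · have e1 : 2 * i - 1 - i = i - 1 := by ring
        rw [e1]; exact sq_eW_left _ _
      · have e1 : 2 * i - 1 - (i - 1) = i := by ring
        rw [e1]; exact sq_eW_right _ _
    refine ⟨⟨lt (2 * i - 1 - x, v + s), od_lt _ _, ?_, (room _ _ hR).2⟩, Or.inl ?_⟩
    · unfold sw; rw [g, ← tr_lt]; exact sq_tr.2 t1
    · intro e ho hs
      unfold sw at hs
      rw [g] at hs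
      obtain ⟨p1, p2⟩ := pull _ _ ho hs
      have key : tr s (-s) e = lt (x, v) ∨ tr s (-s) e = lt (2 * i - 1 - x, v) := by
        rcases tiles_eW p2 p1 with q | q <;> rw [q] <;> rcases T.hx with e' | e'
        · left; rw [e']
        · right; exact lt_congr (by omega) rfl
        · right; exact lt_congr (by omega) rfl
        · left; rw [e']
      rw [← tr_forth (s := s) e]
      rcases key with q | q <;> rw [q, tr_lt]
      · exact hwl
      · exact (room _ _ hR).1
  · -- right wall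
    obtain ⟨o, ho, hoL, s1, s2, s3, s4⟩ := T.sides
    have hnL : lt (x, v + s) ∉ Lc C n s Λ := by
      rintro ⟨-, h2⟩
      exact (h2 _ _ rfl).2 ⟨g1, g2, g3⟩
    refine ⟨⟨lt (x, v + s), od_lt _ _, ?_, hnL⟩, Or.inr ⟨?_, lt (x, v + s), tr (-s) s o, hwl, hnL, ?_⟩⟩
    · unfold sw; rw [g, ← tr_lt]; exact sq_tr.2 s1
    · unfold sw nw; rw [g]
    · intro e' ho' hs'
      unfold sw at hs'
      rw [g] at hs'
      obtain ⟨p1, p2⟩ := pull _ _ ho' hs'
      rcases s4 _ p2 p1 with q | q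
      · left; rw [← tr_forth (s := s) e', q, tr_lt]
      · right; rw [← tr_forth (s := s) e', q]

lemma sw_end (a : {k // Mk C c0 k}) : IsEnd (SG (Lc C n s Λ) D w) ((sw C n s c0) a) := by
  obtain ⟨⟨e, h1, h2, h3⟩, -⟩ := H.sw_tiles a
  exact dead_end h1 h2 h3

lemma y_end' (j : Fin 3) : IsEnd (SG (Lc C n s Λ) D w) (y j) := by
  obtain ⟨e, h1, h2, h3⟩ := H.yo j
  exact dead_end h1 h2 fun h => h3 h.1

/-- a side `sw` with a missing tile: the right wall is closed, no strand -/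
lemma sw_dead {a : {k // Mk C c0 k}} (h : ∃ e, od e ∧ Pool.Agent.H45.W.sq ((sw C n s c0) a) e ∧ e ∉ Λ) :
    (sw C n s c0) a = (nw C n s c0) a ∧ ∀ c, ¬ (SG (Lc C n s Λ) D w).Adj ((sw C n s c0) a) c := by
  obtain ⟨e, h1, h2, h3⟩ := h
  obtain ⟨-, g | ⟨g1, e1, o, g2, g3, g4⟩⟩ := H.sw_tiles a
  · exact absurd (g e h1 h2) h3
  · refine ⟨g1, ?_⟩
    rintro c ⟨e2, ⟨q1, q2⟩, hT⟩
    obtain ⟨t1, t2, -⟩ := TJ.sqs hT
    have ho : e = o := by
      rcases g4 e h1 h2 with q | q
      · rw [q] at h3; exact absurd g2 h3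
      · exact q
    rcases g4 e2 t1 t2 with q | q
    · exact g3 (q ▸ ⟨q1, q2⟩)
    · rw [← ho] at q; exact h3 (q ▸ q1)

lemma sw_y {a : {k // Mk C c0 k}} {j : Fin 3} (h : y j = (sw C n s c0) a) :
    (nw C n s c0) a = y j ∧ ∀ c, ¬ (SG (Lc C n s Λ) D w).Adj ((sw C n s c0) a) c := by
  have h1 := H.sw_dead (a := a) (h ▸ H.yo j)
  exact ⟨by rw [h, h1.1], h1.2⟩

variable (T : ThinR C n s Q Λ)
include T

lemma to_L {a b : {k // Mk C c0 k}} (h : (Gout C n s cr x0 r c0 Λ D w).Reachable ((nw C n s c0) a) ((nw C n s c0) b)) :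
    (SG (Lc C n s Λ) D w).Reachable ((sw C n s c0) a) ((sw C n s c0) b) :=
  ((H.sn_link a).symm.trans (H.trans T a h)).trans (H.sn_link b)

lemma to_Y {a : {k // Mk C c0 k}} {v : ℤ × ℤ} (h : (Gout C n s cr x0 r c0 Λ D w).Reachable ((nw C n s c0) a) v) :
    (SG (Lc C n s Λ) D w).Reachable ((sw C n s c0) a) v := (H.sn_link a).symm.trans (H.trans T a h)

/-- **outer links of two marks** -/
theorem R_iff (a b : {k // Mk C c0 k}) :
    (Gout C n s cr x0 r c0 Λ D w).Reachable ((nw C n s c0) a) ((nw C n s c0) b) ↔ (SG (Lc C n s Λ) D w).Reachable ((sw C n s c0) a) ((sw C n s c0) b) := by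
  refine ⟨H.to_L T, fun h => ?_⟩
  by_cases hab : a = b
  · subst hab; exact SimpleGraph.Reachable.refl _
  have hne : (sw C n s c0) a ≠ (sw C n s c0) b := fun e => hab (H.sw_inj e)
  rcases H.out_cases a with ⟨b', hb, h1⟩ | ⟨j, h1⟩
  · have h2 := H.to_L T h1
    rcases ends_two SG_deg2 (H.sw_end a) (H.sw_end b) (H.sw_end b') h h2 hne with g | g
    · exact absurd (H.sw_inj g) hb
    · rw [← H.sw_inj g]; exact h1
  · have h2 := H.to_Y T h1
    rcases ends_two SG_deg2 (H.sw_end a) (H.sw_end b) (H.y_end' j) h h2 hne with g | g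
    · obtain ⟨c, hc⟩ := adj_of_reach' h hne
      exact absurd hc ((H.sw_y g).2 c)
    · rw [(H.sw_y g).1]; exact h1

/-- **outer links of a mark and a far end** -/
theorem Y_iff (a : {k // Mk C c0 k}) (j : Fin 3) :
    (Gout C n s cr x0 r c0 Λ D w).Reachable ((nw C n s c0) a) (y j) ↔ (SG (Lc C n s Λ) D w).Reachable ((sw C n s c0) a) (y j) := by
  refine ⟨H.to_Y T, fun h => ?_⟩
  by_cases hne : (sw C n s c0) a = y j
  · rw [(H.sw_y hne.symm).1]
  rcases H.out_cases a with ⟨b', hb, h1⟩ | ⟨j', h1⟩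
  · have h2 := H.to_L T h1
    rcases ends_two SG_deg2 (H.sw_end a) (H.y_end' j) (H.sw_end b') h h2 hne with g | g
    · exact absurd (H.sw_inj g) hb
    · rw [← (H.sw_y g.symm).1]; exact h1
  · have h2 := H.to_Y T h1
    rcases ends_two SG_deg2 (H.sw_end a) (H.y_end' j) (H.y_end' j') h h2 hne with g | g
    · obtain ⟨c, hc⟩ := adj_of_reach' h hne
      exact absurd hc ((H.sw_y g).2 c)
    · rw [← g]; exact h1

/-- **The pattern of the outside in the cut region.** -/
theorem isTh_iff (θ : Th C c0) : IsTh (Gout C n s cr x0 r c0 Λ D w) (nw C n s c0) y θ ↔ IsTh (SG (Lc C n s Λ) D w) (sw C n s c0) y θ := by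
  constructor
  · rintro ⟨t1, t2, t3⟩
    exact ⟨fun a b h => t1 a b ((H.R_iff T a b).2 h), fun a b h => (H.R_iff T a b).1 (t2 a b h),
      fun j a => by rw [← H.Y_iff T a j]; exact t3 j a⟩
  · rintro ⟨t1, t2, t3⟩
    exact ⟨fun a b h => t1 a b ((H.R_iff T a b).1 h), fun a b h => (H.R_iff T a b).2 (t2 a b h),
      fun j a => by rw [H.Y_iff T a j]; exact t3 j a⟩

theorem const_iff (j0 : Fin 3) :
    (∀ (a : {k // Mk C c0 k}) (j), (Gout C n s cr x0 r c0 Λ D w).Reachable ((nw C n s c0) a) (y j) → j = j0) ↔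
      ∀ (a : {k // Mk C c0 k}) (j), (SG (Lc C n s Λ) D w).Reachable ((sw C n s c0) a) (y j) → j = j0 := by
  constructor
  · exact fun h a j h1 => h a j ((H.Y_iff T a j).2 h1)
  · exact fun h a j h1 => h a j ((H.Y_iff T a j).1 h1)

end Wo

end Pool.Agent.H29.W
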