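import Mathlib
import Pool.Agent.H29.W.RoomZ
import Pool.Agent.H68.W.RoomS
import Pool.Agent.H74.W.WorldRf

set_option autoImplicit false
open Finset

/-! # A room in the world of a shape

`InR` : the moving end is in the room. `thinR` : the right wall is thin. `wo_of` : the world of a shape which
contains helper78's fine room is a world `Wo` (input: helper72's `Wld`). `cut_eq` : the cut region does not
depend on the moving end. -/

namespace Pool.Agent.H29.W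

open Pool.Agent.H75.Perc hiding WL CT hh PB EE
open Pool.Agent.H75.TwoArm Pool.Agent.H99.W Pool.Agent.H13.W Pool.Agent.H33.Q1
open Pool.Agent.H54.W (CD)
open Pool.Agent.H21.W Pool.Agent.H20.W
open Pool.Agent.H45.W
open Pool.Agent.Q1.M4 (Cell tail)
open Pool.Agent.H21.FM (Shape EE)
open Pool.Agent.H78.W (FRm)
open Pool.Agent.H68.W (cdR crR tR TOK InS roomIn_of del_room wp_off yy_eq v_div le_div_iff' div_lt_iff'
  ly_iff dg_lt dq)
open Pool.Agent.H74.W (Del Lam3 Wp yy GW Ex)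
open Pool.Agent.H37.W (dg)

/-- the moving end is in the room -/
structure InR (C : CD) (n x0 r : ℤ) : Prop where
  r0 : 0 < r
  r1 : r + 1 < n * C.H
  a0 : n * C.A (r / n) ≤ x0
  a1 : x0 ≤ n * C.W

/-- the colour below the exit -/
noncomputable def c0R (S : Shape) (W y0 : ℤ) : Bool := decide (S.m2 ≤ tR S W y0 ∧ tR S W y0 < S.m3)

/-- rotation of the far ends: counterclockwise order from the exit -/
noncomputable def sgR (S : Shape) (W y0 : ℤ) : Fin 3 :=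
  if tR S W y0 < S.m2 then 1 else if tR S W y0 < S.m3 then 2 else 0

lemma crOk_crR (S : Shape) (W y0 r : ℤ) : CrOk (crR S W y0 r) (c0R S W y0) r := by
  refine ⟨fun y hy => ?_, fun y hy => ?_⟩
  · unfold crR c0R
    have : ¬ r < y := by omega
    simp [this]
  · unfold crR c0R
    simp [hy]

section

variable {κ : Type*} {S : Shape} {pl : Cell → Option κ} {W y0 y1 : ℤ} {A : ℤ → ℤ}
  (R : FRm S.P.Q pl W y0 y1 A) (cp : κ → Bool) {h : ℕ} {x0 r x0' r' : ℤ} {T : Finset (ℤ × ℤ)}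

lemma inR_congr (cp' : κ → Bool) (hI : InR (cdR R cp) (2 * h) x0 r) : InR (cdR R cp') (2 * h) x0 r :=
  ⟨hI.r0, hI.r1, hI.a0, hI.a1⟩

lemma ok_of (hI : InR (cdR R cp) (2 * h) x0 r) :
    Ok (cdR R cp) (2 * h) (crR S W y0 r) (c0R S W y0) x0 r :=
  ⟨crOk_crR S W y0 r, hI.r0, hI.r1, hI.a0, hI.a1⟩

lemma inS_of (h4 : 4 ≤ h) (hI : InR (cdR R cp) (2 * h) x0 r) :
    InS W y0 y1 A (2 * h) (x0, r + 2 * h * y0) := by
  have h1 := hI.r0
  have h2 : r + 1 < 2 * h * (y1 - y0) := hI.r1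
  have hm : 2 * (h : ℤ) * (y1 - y0) = 2 * h * y1 - 2 * h * y0 := by ring
  have h3 : 2 * h * A (y0 + r / (2 * h)) ≤ x0 := hI.a0
  have h4' : x0 ≤ 2 * h * W := hI.a1
  refine ⟨by simp only; omega, by simp only; omega, ?_, h4'⟩
  simp only
  rw [v_div (by omega)]
  exact h3

include R in
/-- the cells of the right layer -/
lemma right_cell (h4 : 4 ≤ h) {x y : ℤ} (hx : 2 * h * W ≤ x) (hx' : x < 2 * h * W + 2 * h)
    (hy : -1 ≤ y) (hy' : y ≤ 2 * h * (y1 - y0)) :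
    (x / (2 * (h : ℤ)), (y + 2 * h * y0) / (2 * h)) ∉ S.P.Q := by
  have hn0 : (0 : ℤ) < 2 * (h : ℤ) := by omega
  have hm : 2 * (h : ℤ) * (y1 - y0) = 2 * h * y1 - 2 * h * y0 := by ring
  rw [dq hn0 hx hx']
  refine R.rt _ ?_ ?_
  · rw [le_div_iff' hn0]
    have : 2 * (h : ℤ) * (y0 - 1) = 2 * h * y0 - 2 * h := by ring
    omega
  · have : (y + 2 * h * y0) / (2 * (h : ℤ)) < y1 + 1 := by
      rw [div_lt_iff' hn0]
      have : 2 * (h : ℤ) * (y1 + 1) = 2 * h * y1 + 2 * h := by ring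
      omega
    omega

/-- **the right wall is thin** -/
theorem thinR (h4 : 4 ≤ h) : ThinR (cdR R cp) (2 * h) (2 * h * y0) (EE S h : Set (ℤ × ℤ))
    (Lam3 S h : Set (ℤ × ℤ)) := by
  have hn0 : (0 : ℤ) < 2 * (h : ℤ) := by omega
  have hn2 : (2 : ℤ) ≤ 2 * (h : ℤ) := by omega
  have key : ∀ x y : ℤ, 2 * h * W ≤ x → x < 2 * h * W + 2 * h → -1 ≤ y → y ≤ 2 * h * (y1 - y0) →
      lt (x, y + 2 * h * y0) ∉ EE S h := by
    intro x y h1 h2 h3 h5 h6
    unfold EE at h6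
    rw [lt_mem_TL hn0] at h6
    exact right_cell R h4 h1 h2 h3 h5 h6
  refine ⟨fun x y h1 h2 h3 h5 h6 => ?_, fun y h1 h2 h3 => ?_⟩
  · have h1' : 2 * h * W ≤ x := h1
    have h2' : x ≤ 2 * h * W + 1 := h2
    have h5' : y ≤ 2 * h * (y1 - y0) := h5
    exact key x y h1' (by omega) h3 h5' (Finset.mem_coe.1 h6)
  · have h2' : y < 2 * h * (y1 - y0) := h2
    rw [Finset.mem_coe, Pool.Agent.H74.W.mem_Lam3] at h3
    have hWe : (cdR R cp).W = W := rfl
    rw [hWe] at h3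
    rcases h3 with h3 | ⟨i, hi, h3⟩ | ⟨i, hi, -, h3⟩
    · exact key _ y (by omega) (by omega) (by omega) (by omega) h3
    · rw [ly_iff hn2 hi] at h3
      obtain ⟨-, h3⟩ := h3
      rcases h3 with ⟨h3, -⟩ | ⟨h3, -⟩ | ⟨h3, -⟩ | ⟨h3, -⟩
      · have e : y + 2 * h * y0 + 1 = (y + 1) + 2 * h * y0 := by ring
        rw [e] at h3
        exact right_cell R h4 (by omega) (by omega) (by omega) (by omega) h3
      · exact right_cell R h4 (by omega) (by omega) (by omega) (by omega) h3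
      · have e : y + 2 * h * y0 - 1 = (y - 1) + 2 * h * y0 := by ring
        rw [e] at h3
        exact right_cell R h4 (by omega) (by omega) (by omega) (by omega) h3
      · exact right_cell R h4 (by omega) (by omega) (by omega) (by omega) h3
    · obtain ⟨d0, d1, d2, d3⟩ := dg_lt (S := S) (h := h) (i := i) rfl
      set Tx := (tail (S.P.side (i + 1))).1
      have hk : S.k i % 4 = 0 ∨ S.k i % 4 = 1 ∨ S.k i % 4 = 2 ∨ S.k i % 4 = 3 := by omega
      have hx : (2 * (h : ℤ) * Tx = 2 * h * W + 1 ∨ 2 * (h : ℤ) * Tx - 1 = 2 * h * W + 1) := by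
        rcases hk with hk | hk | hk | hk
        · rw [d0 hk] at h3
          have := lt_inj h3
          simp only [Prod.mk.injEq] at this
          exact Or.inl this.1
        · rw [d1 hk] at h3
          have := lt_inj h3
          simp only [Prod.mk.injEq] at this
          exact Or.inl this.1
        · rw [d2 hk] at h3
          have := lt_inj h3
          simp only [Prod.mk.injEq] at this
          exact Or.inr this.1
        · rw [d3 hk] at h3
          have := lt_inj h3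
          simp only [Prod.mk.injEq] at this
          exact Or.inr this.1
      rcases lt_trichotomy Tx W with e2 | e2 | e2
      · have := Pool.Agent.H68.W.ml hn0 e2; omega
      · rw [e2] at hx; omega
      · have := Pool.Agent.H68.W.ml hn0 e2; omega

/-- the tiles of the room belong to the polygon -/
lemma room_EE (h4 : 4 ≤ h) {x y : ℤ} (hR : RP (cdR R cp) (2 * h) x y) :
    lt (x, y + 2 * h * y0) ∈ EE S h := by
  have hn0 : (0 : ℤ) < 2 * (h : ℤ) := by omega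
  have hI := (Pool.Agent.H68.W.rp_iff R hn0).1 hR
  unfold EE
  rw [lt_mem_TL hn0]
  exact (R.nat _ _ hI.1.1 hI.1.2 hI.2.1 hI.2.2).1

lemma trF_EE (h4 : 4 ≤ h) {ω : Finset (ℤ × ℤ)} (hω : ω ⊆ ER (cdR R cp) (2 * h)) :
    trF (-(2 * h * y0)) (2 * h * y0) ω ⊆ EE S h := by
  intro e he
  rw [mem_trF, neg_neg] at he
  have h1 := hω he
  have h2 := lt_tt (odd_ER h1)
  rw [← h2, mem_ER (by omega)] at h1
  have h3 := room_EE R cp h4 h1
  have e1 : e = tr (-(2 * h * y0)) (2 * h * y0) (tr (2 * h * y0) (-(2 * h * y0)) e) :=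
    (tr_forth e).symm
  rw [e1, ← h2, tr_lt]
  exact h3

/-- the rotated far ends -/
noncomputable def yR (S : Shape) (W y0 : ℤ) (h : ℕ) (p : ℤ × ℤ) (i : Fin 3) : ℤ × ℤ :=
  yy S h p (i + sgR S W y0)

lemma range_yR (p : ℤ × ℤ) : Set.range (yR S W y0 h p) = Set.range (yy S h p) := by
  ext c
  constructor
  · rintro ⟨i, rfl⟩; exact ⟨_, rfl⟩
  · rintro ⟨i, rfl⟩
    refine ⟨i - sgR S W y0, ?_⟩
    unfold yR
    rw [sub_add_cancel]

/-- the input of helper72 for the tile `p` -/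
structure InW (S : Shape) (h : ℕ) (p : ℤ × ℤ) : Prop where
  wld : ∀ T ⊆ EE S h, WldX (EE S h : Set (ℤ × ℤ)) (Lam3 S h : Set (ℤ × ℤ)) (Del S.P.Q (2 * h) p)
    (T ∪ Wp S h p) ({eW (lt p)} ∪ Set.range (yy S h p))
  yo : ∀ j, ∃ e, od e ∧ Pool.Agent.H45.W.sq (yy S h p j) e ∧ e ∉ (Lam3 S h : Set (ℤ × ℤ))
  yi : Function.Injective (yy S h p)

/-- **The world of a shape with a fine room.** -/
theorem wo_of (h4 : 4 ≤ h) (hT : TOK S pl cp W y0 y1 A h T) (hTE : T ⊆ EE S h)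
    (hI : InR (cdR R cp) (2 * h) x0 r) (hW : InW S h (x0, r + 2 * h * y0)) :
    Wo (cdR R cp) (2 * h) (2 * h * y0) (crR S W y0 r) (c0R S W y0) x0 r (EE S h : Set (ℤ × ℤ))
      (Lam3 S h : Set (ℤ × ℤ)) (Del S.P.Q (2 * h) (x0, r + 2 * h * y0))
      (T ∪ Wp S h (x0, r + 2 * h * y0)) (yR S W y0 h (x0, r + 2 * h * y0)) where
  rm := roomIn_of R cp h4 hT hI.r0 hI.r1 hI.a0 hI.a1
  ok := ok_of R cp hI
  wld := by
    intro ω hω
    have e : T ∪ Wp S h (x0, r + 2 * h * y0) ∪ trF (-(2 * h * y0)) (2 * h * y0) ω =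
        (T ∪ trF (-(2 * h * y0)) (2 * h * y0) ω) ∪ Wp S h (x0, r + 2 * h * y0) := by
      rw [union_right_comm]
    have e0 : tr (-(2 * h * y0)) (2 * h * y0) (eW (lt (x0, r))) = eW (lt (x0, r + 2 * h * y0)) := by
      rw [← tr_lt, eW_tr]
    rw [e, range_yR, e0]
    exact hW.wld _ (union_subset hTE (trF_EE R cp h4 hω))
  sub := fun x y hR => Finset.mem_coe.2 (room_EE R cp h4 hR)
  yo := fun j => hW.yo _
  yi := fun a b e => by
    have := hW.yi e
    exact add_right_cancel this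
  del := by
    rintro e - heD
    have h1 := lt_tt (show od e from heD.1)
    obtain ⟨x, v, rfl⟩ : ∃ x v, e = lt (x, v + 2 * h * y0) :=
      ⟨(tt e).1, (tt e).2 - 2 * h * y0, by rw [sub_add_cancel]; exact h1.symm⟩
    rw [del_room R (by omega) (inS_of R cp h4 hI)] at heD
    rw [RoomIn.mem_part]
    obtain ⟨h2, h3, h5⟩ := heD
    simp only at h2 h3 h5
    have hv : v = r := by omega
    subst hv
    have h5' : x ≤ 2 * h * (cdR R cp).W := h5
    rcases lt_or_eq_of_le h5' with h6 | h6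
    · exact Or.inl ⟨hI.r0.le, by have := hI.r1; omega, hI.a0.trans h3, h6⟩
    · rw [h6]
      exact RT_right (by omega) hI.r0.le (by have := hI.r1; omega)

/-! ### The pattern does not depend on the moving end -/

/-- the cut region does not meet the deleted tiles -/
lemma cut_del (h4 : 4 ≤ h) (hI : InR (cdR R cp) (2 * h) x0 r) {x v : ℤ}
    (he : lt (x, v + 2 * h * y0) ∈ Lc (cdR R cp) (2 * h) (2 * h * y0) (Lam3 S h : Set (ℤ × ℤ))) :
    lt (x, v + 2 * h * y0) ∉ Del S.P.Q (2 * h) (x0, r + 2 * h * y0) := by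
  intro heD
  rw [del_room R (by omega) (inS_of R cp h4 hI)] at heD
  obtain ⟨h2, h3, h5⟩ := heD
  simp only at h2 h3 h5
  have hv : v = r := by omega
  subst hv
  obtain ⟨-, h6⟩ := he
  obtain ⟨g1, g2⟩ := h6 _ _ rfl
  have h5' : x ≤ 2 * h * (cdR R cp).W := h5
  rcases lt_or_eq_of_le h5' with h7 | h7
  · exact g1 ⟨hI.r0.le, by have := hI.r1; omega, hI.a0.trans h3, h7⟩
  · exact g2 ⟨h7, hI.r0.le, by have := hI.r1; omega⟩

/-- **the strands of the cut region do not depend on the moving end** -/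
theorem cut_eq (h4 : 4 ≤ h) (hod : ∀ e ∈ Lam3 S h, od e) (hI : InR (cdR R cp) (2 * h) x0 r)
    (hI' : InR (cdR R cp) (2 * h) x0' r') :
    SG (Lc (cdR R cp) (2 * h) (2 * h * y0) (Lam3 S h : Set (ℤ × ℤ)))
      (Del S.P.Q (2 * h) (x0, r + 2 * h * y0)) (T ∪ Wp S h (x0, r + 2 * h * y0)) =
    SG (Lc (cdR R cp) (2 * h) (2 * h * y0) (Lam3 S h : Set (ℤ × ℤ)))
      (Del S.P.Q (2 * h) (x0', r' + 2 * h * y0)) (T ∪ Wp S h (x0', r' + 2 * h * y0)) := by
  have hn0 : (0 : ℤ) < 2 * (h : ℤ) := by omega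
  have co : ∀ e ∈ Lc (cdR R cp) (2 * h) (2 * h * y0) (Lam3 S h : Set (ℤ × ℤ)),
      ∃ x v, e = lt (x, v + 2 * h * y0) := by
    intro e he
    have h1 := lt_tt (hod e (Finset.mem_coe.1 he.1))
    exact ⟨(tt e).1, (tt e).2 - 2 * h * y0, by rw [sub_add_cancel]; exact h1.symm⟩
  refine SG_congr (fun e he => ?_) (fun e he _ => ?_)
  · obtain ⟨x, v, rfl⟩ := co e he
    exact iff_of_false (cut_del R cp h4 hI he) (cut_del R cp h4 hI' he)
  · obtain ⟨x, v, rfl⟩ := co e he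
    obtain ⟨g1, g2⟩ := he.2 _ _ rfl
    rw [mem_union, mem_union, wp_off R (by omega) (inS_of R cp h4 hI) (inS_of R cp h4 hI')]
    rintro ⟨k1, k2, k3⟩
    refine g2 ⟨k1, ?_, ?_⟩
    · rw [le_div_iff' hn0] at k2; omega
    · rw [div_lt_iff' hn0] at k3
      show v < 2 * h * (y1 - y0)
      have hm : 2 * (h : ℤ) * (y1 - y0) = 2 * h * y1 - 2 * h * y0 := by ring
      omega

lemma yR_eq (h4 : 4 ≤ h) (hI : InR (cdR R cp) (2 * h) x0 r) (hI' : InR (cdR R cp) (2 * h) x0' r') :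
    yR S W y0 h (x0, r + 2 * h * y0) = yR S W y0 h (x0', r' + 2 * h * y0) := by
  funext i
  exact yy_eq R (by omega) (inS_of R cp h4 hI) (inS_of R cp h4 hI') _

/-- strands of the cut region -/
noncomputable def Gc (R : FRm S.P.Q pl W y0 y1 A) (cp : κ → Bool) (h : ℕ) (T : Finset (ℤ × ℤ))
    (x0 r : ℤ) : SimpleGraph (ℤ × ℤ) :=
  SG (Lc (cdR R cp) (2 * h) (2 * h * y0) (Lam3 S h : Set (ℤ × ℤ)))
      (Del S.P.Q (2 * h) (x0, r + 2 * h * y0)) (T ∪ Wp S h (x0, r + 2 * h * y0))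

/-- **the outside has the pattern `θ`** -/
def PT (h : ℕ) (T : Finset (ℤ × ℤ)) (θ : Th (cdR R cp) (c0R S W y0)) : Prop :=
  ∃ x0 r, InR (cdR R cp) (2 * h) x0 r ∧ IsTh (Gc R cp h T x0 r)
    (sw (cdR R cp) (2 * h) (2 * h * y0) (c0R S W y0)) (yR S W y0 h (x0, r + 2 * h * y0)) θ

/-- **only the far end `j0` is joined to the room** -/
def CT (h : ℕ) (T : Finset (ℤ × ℤ)) (j0 : Fin 3) : Prop :=
  ∃ x0 r, InR (cdR R cp) (2 * h) x0 r ∧ ∀ (a : {k // Mk (cdR R cp) (c0R S W y0) k}) (j : Fin 3),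
    (Gc R cp h T x0 r).Reachable (sw (cdR R cp) (2 * h) (2 * h * y0) (c0R S W y0) a)
      (yR S W y0 h (x0, r + 2 * h * y0) j) → j = j0

lemma PT.at (h4 : 4 ≤ h) (hod : ∀ e ∈ Lam3 S h, od e) {θ : Th (cdR R cp) (c0R S W y0)}
    (hθ : PT R cp h T θ) (hI : InR (cdR R cp) (2 * h) x0 r) : IsTh (Gc R cp h T x0 r)
    (sw (cdR R cp) (2 * h) (2 * h * y0) (c0R S W y0)) (yR S W y0 h (x0, r + 2 * h * y0)) θ := by
  obtain ⟨x0', r', hI', h1⟩ := hθ
  rw [yR_eq R cp h4 hI hI']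
  unfold Gc at *
  rw [cut_eq R cp h4 hod hI hI']
  exact h1

lemma CT.at (h4 : 4 ≤ h) (hod : ∀ e ∈ Lam3 S h, od e) {j0 : Fin 3}
    (hj : CT R cp h T j0) (hI : InR (cdR R cp) (2 * h) x0 r) :
    ∀ (a : {k // Mk (cdR R cp) (c0R S W y0) k}) (j : Fin 3),
    (Gc R cp h T x0 r).Reachable (sw (cdR R cp) (2 * h) (2 * h * y0) (c0R S W y0) a)
      (yR S W y0 h (x0, r + 2 * h * y0) j) → j = j0 := by
  obtain ⟨x0', r', hI', h1⟩ := hj
  rw [yR_eq R cp h4 hI hI']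
  unfold Gc at *
  rw [cut_eq R cp h4 hod hI hI']
  exact h1

section value

variable (h4 : 4 ≤ h) (hT : TOK S pl cp W y0 y1 A h T) (hTE : T ⊆ EE S h)
  (hI : InR (cdR R cp) (2 * h) x0 r) (hW : InW S h (x0, r + 2 * h * y0))
include h4 hT hTE hI hW

omit hT in
lemma od_Lam {e : ℤ × ℤ} (he : e ∈ Lam3 S h) : od e :=
  (hW.wld _ hTE).odd e (Finset.mem_coe.2 he)

/-- **The two cases.** -/
theorem cases_T (hP : PlnC (cdR R cp) (2 * h) (2 * h * y0) (c0R S W y0) (Lam3 S h : Set (ℤ × ℤ))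
    (Del S.P.Q (2 * h) (x0, r + 2 * h * y0)) (T ∪ Wp S h (x0, r + 2 * h * y0))
    (yR S W y0 h (x0, r + 2 * h * y0))) : (∃ j0, CT R cp h T j0) ∨ ∃ θ, PT R cp h T θ := by
  have H := wo_of R cp h4 hT hTE hI hW
  have Th := thinR R cp h4
  rcases H.pattern_cases (H.pln_of Th hP) with ⟨j0, h1⟩ | ⟨θ, h1⟩
  · exact Or.inl ⟨j0, x0, r, hI, (H.const_iff Th j0).1 h1⟩
  · exact Or.inr ⟨θ, x0, r, hI, (H.isTh_iff Th θ).1 h1⟩

omit R hT hTE hI hW h4 in
lemma GW_eq (p : ℤ × ℤ) (ω' : Finset (ℤ × ℤ)) : GW S h p (ω' ∪ T) =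
    SG (Lam3 S h : Set (ℤ × ℤ)) (Del S.P.Q (2 * h) p) (T ∪ Wp S h p ∪ ω') := by
  unfold GW
  rw [union_comm ω' T, union_right_comm]

/-- **The value of a state with the pattern `θ`.** -/
theorem val_T {θ : Th (cdR R cp) (c0R S W y0)} (hθ : PT R cp h T θ) {ω : Finset (ℤ × ℤ)}
    (hω : ω ⊆ ER (cdR R cp) (2 * h)) (j : Fin 3) :
    (GW S h (x0, r + 2 * h * y0) (trF (-(2 * h * y0)) (2 * h * y0) ω ∪ T)).Reachable
      (eW (lt (x0, r + 2 * h * y0))) (yR S W y0 h (x0, r + 2 * h * y0) j) ↔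
      (GT θ (2 * h) (x0, r) ω).Reachable (eW (lt (x0, r)))
        (nm (cdR R cp) (c0R S W y0) (2 * h) (θ.x j)) := by
  have H := wo_of R cp h4 hT hTE hI hW
  have Th := thinR R cp h4
  have h1 := (H.isTh_iff Th θ).2 (hθ.at R cp h4 (fun e he => od_Lam R cp h4 hTE hI hW he) hI)
  have h2 := H.reach_th hω h1 j
  rw [← h2, GW_eq, ← tr_lt, eW_tr]

/-- **The value of a constant state.** -/
theorem val_C {j0 : Fin 3} (hj : CT R cp h T j0) {ω : Finset (ℤ × ℤ)}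
    (hω : ω ⊆ ER (cdR R cp) (2 * h)) (j : Fin 3) :
    (GW S h (x0, r + 2 * h * y0) (trF (-(2 * h * y0)) (2 * h * y0) ω ∪ T)).Reachable
      (eW (lt (x0, r + 2 * h * y0))) (yR S W y0 h (x0, r + 2 * h * y0) j) ↔ j = j0 := by
  have H := wo_of R cp h4 hT hTE hI hW
  have Th := thinR R cp h4
  have h1 := (H.const_iff Th j0).2 (hj.at R cp h4 (fun e he => od_Lam R cp h4 hTE hI hW he) hI)
  have h2 := H.reach_const hω h1 j
  rw [← h2, GW_eq, ← tr_lt, eW_tr]

end value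

end

end Pool.Agent.H29.W
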