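import Mathlib
import Pool.Agent.H29.W.RoomA
import Pool.Agent.H29.W.RoomLim
import Pool.Agent.H50.W.Plates

set_option autoImplicit false
open Finset

/-! # Classes of the states outside of a room

`Cls` : finite type of classes: colours of the plates and the pattern of the outside. `Hc` : value of a class.
`hf_eq` : the observable is the mean of the values of the classes, the weights do not depend on the moving
end. -/

namespace Pool.Agent.H29.W

open Pool.Agent.H75.Perc hiding WL CT hh PB EE tau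
open Pool.Agent.H75.TwoArm Pool.Agent.H99.W Pool.Agent.H13.W Pool.Agent.H33.Q1
open Pool.Agent.H54.W (CD)
open Pool.Agent.H21.W Pool.Agent.H20.W
open Pool.Agent.H45.W
open Pool.Agent.Q1.M4 (Cell tail)
open Pool.Agent.H21.FM (Shape EE)
open Pool.Agent.H78.W (FRm)
open Pool.Agent.H68.W (cdR crR tR TOK InS roomIn_of del_room wp_off yy_eq v_div le_div_iff' div_lt_iff'
  ly_iff dg_lt dq)
open Pool.Agent.H74.W (Del Lam3 Wp yy GW Ex tau hf pj)
open Pool.Agent.H58.W (Sep PB)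
open Pool.Agent.H50.W (bk bk_none bk_some)

/-! ### Codes -/

section code

variable (C : CD) (c0 : Bool)

noncomputable instance fintypeMk : Fintype {k // Mk C c0 k} :=
  Fintype.subtype (MS C c0) fun _ => mem_MS

/-- codes of the patterns -/
abbrev Cod : Type := ({k // Mk C c0 k} → {k // Mk C c0 k}) × (Fin 3 → {k // Mk C c0 k})

variable {C c0}

/-- the code of a pattern -/
def code (θ : Th C c0) : Cod C c0 := (fun k => ⟨θ.m k.1, θ.mm k.1 k.2⟩, fun j => ⟨θ.x j, θ.xm j⟩)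

lemma IsTh.of_code {G : SimpleGraph (ℤ × ℤ)} {f : {k // Mk C c0 k} → ℤ × ℤ} {y : Fin 3 → ℤ × ℤ}
    {θ θ' : Th C c0} (e : code θ = code θ') (h : IsTh G f y θ) : IsTh G f y θ' := by
  have e1 : ∀ a : {k // Mk C c0 k}, θ.m a.1 = θ'.m a.1 := fun a =>
    congrArg Subtype.val (congrFun (congrArg Prod.fst e) a)
  have e2 : ∀ j, θ.x j = θ'.x j := fun j =>
    congrArg Subtype.val (congrFun (congrArg Prod.snd e) j)
  refine ⟨fun a b hr => ?_, fun a b hb => h.t2 a b (hb.trans (e1 a).symm), fun j a => ?_⟩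
  · rw [← e1]; exact h.t1 a b hr
  · rw [← e2]; exact h.t3 j a

end code

/-! ### Values -/

lemma Pr_true {α : Type*} [DecidableEq α] (E : Finset α) {A : Finset α → Prop}
    (h : ∀ ω ⊆ E, A ω) : Pr E A = 1 := by
  classical
  rw [Pr_congr (B := fun _ => True) (fun ω hω => by simp [h ω hω]), Pr_eq]
  rw [filter_true, card_powerset]
  simp

lemma Pr_false {α : Type*} [DecidableEq α] (E : Finset α) {A : Finset α → Prop}
    (h : ∀ ω ⊆ E, ¬ A ω) : Pr E A = 0 := by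
  classical
  rw [Pr_congr (B := fun _ => False) (fun ω hω => by simp [h ω hω]), Pr_eq]
  rw [filter_false]
  simp

lemma tau_pow_add (i j : Fin 3) : tau ^ ((i + j : Fin 3) : ℕ) = tau ^ (j : ℕ) * tau ^ (i : ℕ) := by
  have h3 : tau ^ 3 = 1 := Pool.Agent.H74.W.tau_cube
  rw [Fin.val_add, ← pow_add]
  have : (i : ℕ) + j = 3 * (((i : ℕ) + j) / 3) + ((i : ℕ) + j) % 3 := (Nat.div_add_mod _ _).symm
  conv_rhs => rw [add_comm, this, pow_add, pow_mul, h3, one_pow, one_mul]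

/-- rotation of the far ends -/
lemma rot (σ : Fin 3) (P : Fin 3 → ℝ) : hval univ (fun j : Fin 3 => tau ^ (j : ℕ)) P =
    tau ^ (σ : ℕ) * ∑ i : Fin 3, tau ^ (i : ℕ) * (P (i + σ) : ℂ) := by
  unfold hval
  rw [mul_sum, ← Equiv.sum_comp (Equiv.addRight σ)]
  refine sum_congr rfl fun i _ => ?_
  show tau ^ ((i + σ : Fin 3) : ℕ) * (P (i + σ) : ℂ) = _
  rw [tau_pow_add, mul_assoc]

section

variable {κ : Type*} [DecidableEq κ] {S : Shape} {pl : Cell → Option κ} {W y0 y1 : ℤ} {A : ℤ → ℤ}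

/-- plates of the polygon -/
def KP (S : Shape) (pl : Cell → Option κ) : Finset κ := S.P.Q.biUnion fun c => (pl c).toFinset

lemma mem_KP {c : Cell} {a : κ} (hc : c ∈ S.P.Q) (h : pl c = some a) : a ∈ KP S pl := by
  unfold KP
  rw [mem_biUnion]
  exact ⟨c, hc, by rw [h]; simp⟩

/-- colours of the plates -/
def cpo (c : Finset κ) (a : κ) : Bool := decide (a ∈ c)

variable (R : FRm S.P.Q pl W y0 y1 A) {h : ℕ} {x0 r : ℤ} {T : Finset ((ℤ × ℤ) ⊕ κ)}

omit [DecidableEq κ] in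
/-- labels of the room -/
lemma ER_cp (cp cp' : κ → Bool) (n : ℤ) : ER (cdR R cp) n = ER (cdR R cp') n := rfl

/-- labels of the room in the world -/
noncomputable def E1 (R : FRm S.P.Q pl W y0 y1 A) (h : ℕ) : Finset (ℤ × ℤ) :=
  trF (-(2 * h * y0)) (2 * h * y0) (ER (cdR R fun _ => false) (2 * h))

/-- labels of the other tiles -/
noncomputable def E2 (R : FRm S.P.Q pl W y0 y1 A) (h : ℕ) : Finset (ℤ × ℤ) := EE S h \ E1 R h

omit [DecidableEq κ] in
lemma E12 (h4 : 4 ≤ h) : E1 R h ∪ E2 R h = EE S h := by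
  unfold E2 E1
  rw [union_sdiff_of_subset]
  exact trF_EE R _ h4 (Subset.refl _)

omit [DecidableEq κ] in
lemma mem_E1 (h4 : 4 ≤ h) {x v : ℤ} : lt (x, v) ∈ E1 R h ↔
    y0 ≤ v / (2 * h) ∧ v / (2 * h) < y1 ∧ A (v / (2 * h)) ≤ x / (2 * h) ∧ x / (2 * h) < W := by
  have hn0 : (0 : ℤ) < 2 * (h : ℤ) := by omega
  unfold E1
  have e : lt (x, v) = tr (-(2 * h * y0)) (2 * h * y0) (lt (x, v - 2 * h * y0)) := by
    rw [tr_lt, sub_add_cancel]
  rw [mem_trF, neg_neg, e, tr_back, mem_ER hn0, Pool.Agent.H68.W.rp_iff R hn0, sub_add_cancel]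
  unfold Pool.Agent.H68.W.IR
  tauto

omit [DecidableEq κ] in
/-- the labels of the room are natural -/
lemma bk_E1 (h4 : 4 ≤ h) {e : ℤ × ℤ} (he : e ∈ E1 R h) : bk (2 * h) pl e = Sum.inl e := by
  apply bk_none
  have ho : od e := by
    unfold E1 at he
    rw [mem_trF, neg_neg] at he
    exact od_tr.1 (odd_ER he)
  have h1 := lt_tt ho
  rw [← h1] at he
  obtain ⟨g1, g2, g3, g4⟩ := (mem_E1 R h4).1 he
  exact (R.nat _ _ g1 g2 g3 g4).2

omit [DecidableEq κ] in
lemma sep_E (h4 : 4 ≤ h) : Sep (bk (2 * h) pl) (E1 R h) (E2 R h) := by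
  intro l hl l' hl' e
  rw [bk_E1 R h4 hl] at e
  unfold E2 at hl'
  rw [mem_sdiff] at hl'
  unfold bk at e
  cases hp : pl (ct (2 * h) (tt l')) with
  | none =>
    rw [hp] at e
    simp only [Sum.inl.injEq] at e
    rw [e] at hl
    exact hl'.2 hl
  | some k =>
    rw [hp] at e
    simp at e

omit [DecidableEq κ] in
lemma inj_E (h4 : 4 ≤ h) : ∀ l ∈ E1 R h, ∀ l' ∈ E1 R h, bk (2 * h) pl l = bk (2 * h) pl l' →
    l = l' := by
  intro l hl l' hl' e
  rw [bk_E1 R h4 hl, bk_E1 R h4 hl'] at e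
  simpa using e

/-- the colours of the plates in the state `T` -/
def cT (pl : Cell → Option κ) (S : Shape) (T : Finset ((ℤ × ℤ) ⊕ κ)) : Finset κ :=
  (KP S pl).filter fun a => Sum.inr a ∈ T

/-- the tiles of the state `T` -/
noncomputable def uT (R : FRm S.P.Q pl W y0 y1 A) (h : ℕ) (T : Finset ((ℤ × ℤ) ⊕ κ)) :
    Finset (ℤ × ℤ) := Pool.Agent.H58.W.up (E2 R h) (bk (2 * h) pl) T

lemma uT_EE : uT R h T ⊆ EE S h := fun e he => by
  unfold uT at he
  rw [Pool.Agent.H58.W.mem_up] at he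
  unfold E2 at he
  exact (mem_sdiff.1 he.1).1

/-- **the tiles of the state are admissible** -/
lemma tok_T (h4 : 4 ≤ h) : TOK S pl (cpo (cT pl S T)) W y0 y1 A h (uT R h T) := by
  have hn0 : (0 : ℤ) < 2 * (h : ℤ) := by omega
  refine ⟨fun x v hq he => ?_, fun x v a ha => ?_, fun x v h1 h2 h3 h5 he => ?_⟩
  · have h1 := uT_EE R he
    unfold EE at h1
    rw [lt_mem_TL hn0] at h1
    exact hq h1
  · have hQ : (x / (2 * (h : ℤ)), v / (2 * h)) ∈ S.P.Q := R.plQ _ (by rw [ha]; simp)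
    have hb : bk (2 * h) pl (lt (x, v)) = Sum.inr a := bk_some (by rw [tt_lt]; exact ha)
    unfold uT
    rw [Pool.Agent.H58.W.mem_up, hb]
    unfold cpo cT
    rw [decide_eq_true_iff, mem_filter]
    have hE : lt (x, v) ∈ E2 R h := by
      unfold E2
      rw [mem_sdiff]
      refine ⟨by unfold EE; rw [lt_mem_TL hn0]; exact hQ, fun h1 => ?_⟩
      obtain ⟨g1, g2, g3, g4⟩ := (mem_E1 R h4).1 h1
      rw [(R.nat _ _ g1 g2 g3 g4).2] at ha
      simp at ha
    have hK := mem_KP hQ ha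
    tauto
  · unfold uT at he
    rw [Pool.Agent.H58.W.mem_up] at he
    unfold E2 at he
    exact (mem_sdiff.1 he.1).2 ((mem_E1 R h4).2 ⟨h1, h2, h3, h5⟩)

/-! ### Classes -/

/-- **Classes of the states.** -/
abbrev Cls (R : FRm S.P.Q pl W y0 y1 A) : Type _ :=
  Σ c : {c // c ∈ (KP S pl).powerset}, Fin 3 ⊕ Cod (cdR R (cpo c.1)) (c0R S W y0)

open Classical in
/-- **Value of a class.** -/
noncomputable def Hc (R : FRm S.P.Q pl W y0 y1 A) (q : Cls R) (h : ℕ) (v : ℤ × ℤ) : ℂ :=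
  match q with
  | ⟨_, Sum.inl j⟩ => tau ^ (sgR S W y0 : ℕ) * tau ^ (j : ℕ)
  | ⟨c, Sum.inr q⟩ => if hq : ∃ θ : Th (cdR R (cpo c.1)) (c0R S W y0), code θ = q then
      tau ^ (sgR S W y0 : ℕ) * FT hq.choose (2 * h) (v.1, v.2 - 2 * h * y0) else 0

open Classical in
/-- **Class of a state.** -/
noncomputable def cls (R : FRm S.P.Q pl W y0 y1 A) (h : ℕ) (T : Finset ((ℤ × ℤ) ⊕ κ)) : Cls R :=
  if h1 : ∃ θ, PT R (cpo (cT pl S T)) h (uT R h T) θ then
    ⟨⟨cT pl S T, mem_powerset.2 (filter_subset _ _)⟩, Sum.inr (code h1.choose)⟩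
  else if h2 : ∃ j0, CT R (cpo (cT pl S T)) h (uT R h T) j0 then
    ⟨⟨cT pl S T, mem_powerset.2 (filter_subset _ _)⟩, Sum.inl h2.choose⟩
  else ⟨⟨cT pl S T, mem_powerset.2 (filter_subset _ _)⟩, Sum.inl 0⟩

/-- the planarity input -/
def InP (R : FRm S.P.Q pl W y0 y1 A) (h : ℕ) (x0 r : ℤ) : Prop :=
  ∀ (cp : κ → Bool) (T : Finset (ℤ × ℤ)), TOK S pl cp W y0 y1 A h T → T ⊆ EE S h →
    PlnC (cdR R cp) (2 * h) (2 * h * y0) (c0R S W y0) (Lam3 S h : Set (ℤ × ℤ))
    (Del S.P.Q (2 * h) (x0, r + 2 * h * y0)) (T ∪ Wp S h (x0, r + 2 * h * y0))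
    (yR S W y0 h (x0, r + 2 * h * y0))

/-- **The value of a state is the value of its class.** -/
theorem val_cls (h4 : 4 ≤ h) (hI : InR (cdR R fun _ => false) (2 * h) x0 r)
    (hW : InW S h (x0, r + 2 * h * y0)) (hP : InP R h x0 r) :
    hval univ (fun j : Fin 3 => tau ^ (j : ℕ)) (fun j => Pr (E1 R h) (fun ω =>
      (GW S h (x0, r + 2 * h * y0) (ω ∪ uT R h T)).Reachable (eW (lt (x0, r + 2 * h * y0)))
        (yy S h (x0, r + 2 * h * y0) j))) = Hc R (cls R h T) h (x0, r + 2 * h * y0) := by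
  classical
  set cp := cpo (cT pl S T) with hcp
  have hI' : InR (cdR R cp) (2 * h) x0 r := inR_congr R _ _ hI
  have hT := tok_T R (T := T) h4
  have hTE := uT_EE R (h := h) (T := T)
  rw [rot (sgR S W y0)]
  have hPr : ∀ B : Finset (ℤ × ℤ) → Prop, Pr (E1 R h) B =
      Pr (ER (cdR R cp) (2 * h)) (fun ω => B (trF (-(2 * h * y0)) (2 * h * y0) ω)) := fun B =>
    Pr_map _ _ _
  simp only [hPr]
  unfold cls
  by_cases h1 : ∃ θ, PT R (cpo (cT pl S T)) h (uT R h T) θ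
  · rw [dif_pos h1]
    have hex : ∃ θ : Th (cdR R (cpo (cT pl S T))) (c0R S W y0), code θ = code h1.choose := ⟨_, rfl⟩
    show _ = if hq : ∃ θ : Th (cdR R (cpo (cT pl S T))) (c0R S W y0), code θ = code h1.choose then
      tau ^ (sgR S W y0 : ℕ) * FT hq.choose (2 * h) (x0, r + 2 * h * y0 - 2 * h * y0) else 0
    rw [dif_pos hex]
    have hp0 := h1.choose_spec
    have hp1 : PT R (cpo (cT pl S T)) h (uT R h T) hex.choose := by
      obtain ⟨a, b, k1, k2⟩ := hp0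
      exact ⟨a, b, k1, k2.of_code hex.choose_spec.symm⟩
    congr 1
    unfold FT
    refine sum_congr rfl fun i _ => ?_
    rw [add_sub_cancel_right]
    congr 2
    exact Pr_congr fun ω hω => val_T R cp h4 hT hTE hI' hW hp1 hω i
  · rw [dif_neg h1]
    have h2 : ∃ j0, CT R (cpo (cT pl S T)) h (uT R h T) j0 := by
      rcases cases_T R cp h4 hT hTE hI' hW (hP cp _ hT hTE) with k | k
      · exact k
      · exact absurd k h1
    rw [dif_pos h2]
    show _ = tau ^ (sgR S W y0 : ℕ) * tau ^ (h2.choose : ℕ)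
    congr 1
    have hv := fun (ω : Finset (ℤ × ℤ)) (hω : ω ⊆ ER (cdR R cp) (2 * h)) (j : Fin 3) =>
      val_C R cp h4 hT hTE hI' hW h2.choose_spec hω j
    unfold yR at hv
    rw [Finset.sum_eq_single h2.choose]
    · rw [Pr_true _ (fun ω hω => (hv ω hω _).2 rfl)]
      simp
    · intro j _ hj
      rw [Pr_false _ (fun ω hω k => hj ((hv ω hω _).1 k))]
      simp
    · simp

/-- **Room form of the observable.** -/
theorem hf_eq (h4 : 4 ≤ h) (hI : InR (cdR R fun _ => false) (2 * h) x0 r)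
    (hW : InW S h (x0, r + 2 * h * y0)) (hP : InP R h x0 r) :
    hf S h pl (x0, r + 2 * h * y0) = ∑ q : Cls R, (wt ((E2 R h).image (bk (2 * h) pl)) (cls R h) q : ℂ) *
      Hc R q h (x0, r + 2 * h * y0) := by
  classical
  have := hval_room_group (univ : Finset (Fin 3)) (fun j : Fin 3 => tau ^ (j : ℕ)) (sep_E R h4)
    (inj_E R h4) (fun (j : Fin 3) (ω : Finset (ℤ × ℤ)) =>
      (GW S h (x0, r + 2 * h * y0) ω).Reachable (eW (lt (x0, r + 2 * h * y0)))
        (yy S h (x0, r + 2 * h * y0) j)) (cls R h) (fun q => Hc R q h (x0, r + 2 * h * y0))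
    (fun T _ => val_cls R h4 hI hW hP)
  rw [← this, E12 R h4]
  rfl

end

end Pool.Agent.H29.W
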