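import Mathlib
import Pool.Agent.H29.W.RoomB
import Pool.Agent.H68.W.RoomB
import Pool.Agent.H61.W.WAff

set_option autoImplicit false
open Finset

/-! # The limit of the observable in a room

`inR_ev` : a tile whose position is in a compact subset of `OmC` is in the room. `hol_room` : the S-theorem
of the room gives the analyticity of the limit of the observable. -/

namespace Pool.Agent.H29.W

open Pool.Agent.H75.Perc hiding WL CT hh PB EE tau
open Pool.Agent.H75.TwoArm Pool.Agent.H99.W Pool.Agent.H13.W Pool.Agent.H33.Q1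
open Pool.Agent.H54.W (CD)
open Pool.Agent.H21.W Pool.Agent.H20.W
open Pool.Agent.H45.W
open Pool.Agent.Q1.M4 (Cell tail lat)
open Pool.Agent.H21.FM (Shape EE)
open Pool.Agent.H78.W (FRm)
open Pool.Agent.H68.W (cdR crR tR TOK dq omC_cell)
open Pool.Agent.H74.W (Del Lam3 Wp yy GW Ex tau hf pj)
open Pool.Agent.H44.W (WLim)
open Pool.Agent.H61.W
open Pool.Agent.H50.W (bk)
open Filter Metric

/-- **a tile over a compact set is in the room** -/
theorem inR_ev {C : CD} {K : Set ℂ} (hK : K ⊆ OmC C) (hKc : IsCompact K) : ∀ᶠ h : ℕ in atTop,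
    ∀ x r : ℤ, lat (x, r) / ((2 * h : ℝ) : ℂ) ∈ K → InR C (2 * h) x r := by
  obtain ⟨δ, hδ, hδ'⟩ := hKc.exists_cthickening_subset_open (OmC_open C) hK
  obtain ⟨h0, hh0⟩ := exists_nat_gt (1 / δ)
  filter_upwards [eventually_ge_atTop (max h0 1)] with h hh x r hv
  have h1 : 1 ≤ h := (le_max_right _ _).trans hh
  have h2 : 1 / δ < h := lt_of_lt_of_le hh0 (by exact_mod_cast (le_max_left _ _).trans hh)
  have hn : (0 : ℝ) < 2 * (h : ℝ) := by
    have : (1 : ℝ) ≤ h := by exact_mod_cast h1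
    linarith
  have hnz : (0 : ℤ) < 2 * (h : ℤ) := by omega
  set u : ℂ := lat (x, r) / ((2 * h : ℝ) : ℂ) with hu
  have hre : u.re = (x : ℝ) / (2 * h) := lat_div_re _ _
  have him : u.im = (r : ℝ) / (2 * h) := lat_div_im _ _
  obtain ⟨a1, a2, a3, a4, a5, a6⟩ := omC_cell (hK hv)
  have hup : u + ((δ / 2 : ℝ) : ℂ) * Complex.I ∈ OmC C := by
    apply hδ'
    apply mem_cthickening_of_dist_le _ _ _ _ hv
    rw [dist_eq_norm, add_sub_cancel_left, norm_mul, Complex.norm_I, mul_one, Complex.norm_real,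
      Real.norm_of_nonneg (by positivity)]
    linarith
  obtain ⟨-, -, -, -, -, b6⟩ := omC_cell hup
  have hu2 : (u + ((δ / 2 : ℝ) : ℂ) * Complex.I).im = u.im + δ / 2 := by
    rw [Complex.add_im, Complex.im_ofReal_mul, Complex.I_im, mul_one]
  rw [hu2, him] at b6
  rw [him] at a1 a2 a3 a5
  rw [hre] at a3 a4
  have f1 := Int.floor_le ((r : ℝ) / (2 * h))
  have f2 := Int.lt_floor_add_one ((r : ℝ) / (2 * h))
  rw [le_div_iff₀ hn] at f1
  rw [div_lt_iff₀ hn] at f2
  have hY : r / (2 * (h : ℤ)) = ⌊(r : ℝ) / (2 * h)⌋ := by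
    apply dq hnz
    · have : ((2 * (h : ℤ) * ⌊(r : ℝ) / (2 * h)⌋ : ℤ) : ℝ) ≤ ((r : ℤ) : ℝ) := by
        push_cast; linarith
      exact_mod_cast this
    · have : ((r : ℤ) : ℝ) < ((2 * (h : ℤ) * ⌊(r : ℝ) / (2 * h)⌋ + 2 * h : ℤ) : ℝ) := by
        push_cast; linarith
      exact_mod_cast this
  refine ⟨?_, ?_, ?_, ?_⟩
  · have : (0 : ℝ) < r := by
      rw [lt_div_iff₀ hn] at a5; linarith
    exact_mod_cast this
  · have h3 : 1 < δ * h := by rw [div_lt_iff₀ hδ] at h2; linarith
    have h4 : (r : ℝ) + δ * h < 2 * h * C.H := by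
      have e : (r : ℝ) / (2 * h) + δ / 2 = (r + δ * h) / (2 * h) := by
        field_simp
      rw [e, div_lt_iff₀ hn] at b6
      linarith
    have : ((r + 1 : ℤ) : ℝ) < ((2 * (h : ℤ) * C.H : ℤ) : ℝ) := by push_cast; linarith
    exact_mod_cast this
  · rw [hY]
    have : ((2 * (h : ℤ) * C.A ⌊(r : ℝ) / (2 * h)⌋ : ℤ) : ℝ) ≤ ((x : ℤ) : ℝ) := by
      rw [le_div_iff₀ hn] at a3
      push_cast; linarith
    exact_mod_cast this
  · have : ((x : ℤ) : ℝ) ≤ ((2 * (h : ℤ) * C.W : ℤ) : ℝ) := by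
      rw [div_le_iff₀ hn] at a4
      push_cast; linarith
    exact_mod_cast this

lemma norm_tau_pow (j : ℕ) : ‖tau ^ j‖ = 1 := by
  have h : ‖tau‖ ^ 3 = 1 := by rw [← norm_pow, Pool.Agent.H74.W.tau_cube, norm_one]
  have h1 : ‖tau‖ = 1 := by
    rcases lt_trichotomy ‖tau‖ 1 with h2 | h2 | h2
    · exfalso
      have := pow_lt_one₀ (norm_nonneg tau) h2 (show (3 : ℕ) ≠ 0 by norm_num)
      linarith
    · exact h2
    · exfalso
      have := one_lt_pow₀ h2 (show (3 : ℕ) ≠ 0 by norm_num)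
      linarith
  rw [norm_pow, h1, one_pow]

lemma norm_FT {C : CD} {c0 : Bool} (θ : Th C c0) (n : ℤ) (v : ℤ × ℤ) : ‖FT θ n v‖ ≤ 3 := by
  unfold FT
  refine (norm_sum_le _ _).trans ?_
  have : ∀ j ∈ (Finset.univ : Finset (Fin 3)), ‖tau ^ (j : ℕ) * (Pr (ER C n) (fun ω =>
      (GT θ n v ω).Reachable (eW (lt v)) (nm C c0 n (θ.x j))) : ℂ)‖ ≤ 1 := by
    intro j _
    rw [norm_mul, norm_tau_pow, one_mul, Complex.norm_real, Real.norm_of_nonneg (Pr_nonneg _ _)]
    exact Pr_le_one _ _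
  refine (Finset.sum_le_sum this).trans ?_
  simp

section

variable {κ : Type*} [DecidableEq κ] {S : Shape} {pl : Cell → Option κ} {W y0 y1 : ℤ} {A : ℤ → ℤ}
  (R : FRm S.P.Q pl W y0 y1 A)

lemma norm_Hc (q : Cls R) (h : ℕ) (v : ℤ × ℤ) : ‖Hc R q h v‖ ≤ 3 := by
  obtain ⟨c, j | q⟩ := q
  · show ‖tau ^ (sgR S W y0 : ℕ) * tau ^ (j : ℕ)‖ ≤ 3
    rw [norm_mul, norm_tau_pow, norm_tau_pow]
    norm_num
  · unfold Hc
    simp only
    split_ifs with hq
    · rw [norm_mul, norm_tau_pow, one_mul]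
      exact norm_FT _ _ _
    · simp

/-- **Analyticity in a room.** -/
theorem hol_room (hS : StS) {U : Ultrafilter ℕ} (hU : (U : Filter ℕ) ≤ atTop) {M : ℕ} (hM : 0 < M)
    {z0 : ℂ} {ρ : ℝ} (hball : ∀ cp : κ → Bool, ∀ z ∈ ball z0 ρ,
      (((M : ℕ) : ℝ) : ℂ) * z + (-(y0 : ℂ) * Complex.I) ∈ OmC (cdR R cp))
    (hW : ∀ᶠ h : ℕ in atTop, ∀ x0 r : ℤ, InR (cdR R fun _ => false) (2 * h) x0 r →
      InW S h (x0, r + 2 * h * y0))
    (hP : ∀ᶠ h : ℕ in atTop, ∀ x0 r : ℤ, InR (cdR R fun _ => false) (2 * h) x0 r → InP R h x0 r) :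
    ∃ g : ℂ → ℂ, DifferentiableOn ℂ g (ball z0 ρ) ∧
      WLim (fun h => (M : ℝ) * (2 * (h : ℝ))) (U : Filter ℕ) (ball z0 ρ) (fun h => hf S h pl) g := by
  classical
  have hM' : (0 : ℝ) < M := by exact_mod_cast hM
  have hT : Tendsto (fun h : ℕ => (2 * (h : ℝ))) atTop atTop :=
    (tendsto_natCast_atTop_atTop (R := ℝ)).const_mul_atTop (by norm_num)
  have hR : Tendsto (fun h : ℕ => (M : ℝ) * (2 * (h : ℝ))) (U : Filter ℕ) atTop :=
    (hT.const_mul_atTop hM').mono_left hU
  refine room_lim (Θ := Cls R) (M := 3) (H := fun q h v => Hc R q h v)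
    (μ := fun h q => wt ((E2 R h).image (bk (2 * h) pl)) (cls R h) q) hR isOpen_ball
    (fun h q => wt_nonneg _ _ _) (fun h q => wt_le_one _ _ _) (fun q h v => norm_Hc R q h v) ?_ ?_
  · intro K hK hKc
    have hc : Continuous fun z : ℂ => (((M : ℕ) : ℝ) : ℂ) * z + (-(y0 : ℂ) * Complex.I) := by fun_prop
    have hK' : (fun z : ℂ => (((M : ℕ) : ℝ) : ℂ) * z + (-(y0 : ℂ) * Complex.I)) '' K ⊆
        OmC (cdR R fun _ => false) := by
      rintro _ ⟨z, hz, rfl⟩
      exact hball _ z (hK hz)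
    have hev := (inR_ev hK' (hKc.image hc)).and (hW.and (hP.and (eventually_ge_atTop 4)))
    refine hU (hev.mono ?_)
    rintro h ⟨e1, e2, e3, h4⟩ v hv
    have hh : (0 : ℝ) < 2 * (h : ℝ) := by
      have : (4 : ℝ) ≤ h := by exact_mod_cast h4
      linarith
    have hI : InR (cdR R fun _ => false) (2 * h) v.1 (v.2 - 2 * h * y0) := by
      apply e1
      refine ⟨_, hv, ?_⟩
      have hne : ((2 * (h : ℝ) : ℝ) : ℂ) ≠ 0 := by rw [Complex.ofReal_ne_zero]; exact hh.ne'
      apply Complex.ext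
      · rw [lat_div_re, Complex.add_re, Complex.re_ofReal_mul, lat_div_re]
        simp only [Complex.mul_re, Complex.neg_re, Complex.intCast_re, Complex.I_re, mul_zero,
          Complex.neg_im, Complex.intCast_im, Complex.I_im]
        field_simp
        ring
      · rw [lat_div_im, Complex.add_im, Complex.im_ofReal_mul, lat_div_im]
        simp only [Complex.mul_im, Complex.neg_re, Complex.intCast_re, Complex.I_re, mul_zero,
          Complex.neg_im, Complex.intCast_im, Complex.I_im]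
        push_cast
        field_simp
        ring
    have hv' : v = (v.1, v.2 - 2 * h * y0 + 2 * h * y0) := by rw [sub_add_cancel]
    have := hf_eq R h4 hI (e2 _ _ hI) (e3 _ _ hI)
    rw [← hv'] at this
    exact this
  · rintro ⟨c, j | q⟩
    · refine ⟨fun _ => tau ^ (sgR S W y0 : ℕ) * tau ^ (j : ℕ), differentiableOn_const _, ?_⟩
      exact wlim_const hR tendsto_const_nhds
    · by_cases hq : ∃ θ : Th (cdR R (cpo c.1)) (c0R S W y0), code θ = q
      · obtain ⟨g, hg, -, hW1⟩ := hS (cdR R (cpo c.1)) (c0R S W y0) hq.choose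
          (fun h => 2 * (h : ℤ)) (fun h => by omega) (by
            refine tendsto_atTop_mono (fun h => ?_) tendsto_natCast_atTop_atTop
            show (h : ℤ) ≤ 2 * h
            omega) U hU
        have hR0 : ∀ᶠ h : ℕ in (U : Filter ℕ), (0 : ℝ) < ((2 * (h : ℤ) : ℤ) : ℝ) := by
          refine hU ((eventually_ge_atTop 1).mono fun h hh => ?_)
          have : (0 : ℤ) < 2 * (h : ℤ) := by omega
          exact_mod_cast this
        have hW2 := WLim.affine hW1 hM' hR0 (fun h => (0, -(2 * h * y0))) (-(y0 : ℂ) * Complex.I) (by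
          intro h
          apply Complex.ext
          · have := lat_div_re (0, -(2 * (h : ℤ) * y0)) 1
            simp only [Complex.ofReal_one, div_one] at this
            rw [this]
            simp
          · have := lat_div_im (0, -(2 * (h : ℤ) * y0)) 1
            simp only [Complex.ofReal_one, div_one] at this
            rw [this]
            simp
            ring)
        have hsub : ball z0 ρ ⊆ {z : ℂ | ((M : ℝ) : ℂ) * z + -(y0 : ℂ) * Complex.I ∈
            OmC (cdR R (cpo c.1))} := fun z hz => hball _ z hz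
        have hW3 := WLim.smul (tau ^ (sgR S W y0 : ℕ)) (WLim.mono le_rfl hsub hW2)
        refine ⟨fun z => tau ^ (sgR S W y0 : ℕ) * g (((M : ℝ) : ℂ) * z + -(y0 : ℂ) * Complex.I), ?_, ?_⟩
        · exact DifferentiableOn.const_mul ((differentiableOn_affine hg).mono hsub) _
        · have e1 : (fun n : ℕ => (M : ℝ) * (((2 * (n : ℤ) : ℤ)) : ℝ)) =
              fun h : ℕ => (M : ℝ) * (2 * (h : ℝ)) := by
            funext h; push_cast; ring
          rw [e1] at hW3
          convert hW3 using 2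
          rename_i h
          funext v
          unfold Hc
          simp only
          rw [dif_pos hq]
          congr 2
          ext
          · simp
          · simp [sub_eq_add_neg]
      · refine ⟨fun _ => 0, differentiableOn_const _, ?_⟩
        have : (fun h v => Hc R ⟨c, Sum.inr q⟩ h v) = fun (_ : ℕ) (_ : ℤ × ℤ) => (0 : ℂ) := by
          funext h v
          unfold Hc
          simp only
          rw [dif_neg hq]
        rw [this]
        exact wlim_const hR tendsto_const_nhds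

end

end Pool.Agent.H29.W
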