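import Mathlib
import Pool.Agent.H29.W.RoomC

set_option autoImplicit false
open Finset

/-! # `StHol`: analyticity away from the chords

`stHol_of` : helper20's `StS` and the two inputs `InWA` (worlds, far ends) and `InPA` (planarity) give
helper74's `StHol`. -/

namespace Pool.Agent.H29.W

open Pool.Agent.H20.W (StS)
open Pool.Agent.Q1.M4 (Cell)
open Pool.Agent.H21.FM (Shape)
open Pool.Agent.H78.W (FRm)
open Pool.Agent.H68.W (cdR InS ball_room)
open Pool.Agent.H74.W (HF StHol RR lK)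
open Pool.Agent.H13.W (chG)
open Pool.Agent.H50.W (rf)
open Pool.Agent.H58.W (plV)
open Filter Metric

/-- worlds of a moving end in a fine room -/
def InWA : Prop := ∀ (S : Shape) (pl : Cell → Option (ℤ × ℤ)) (W y0 y1 : ℤ) (A : ℤ → ℤ),
  FRm S.P.Q pl W y0 y1 A → ∀ h : ℕ, 4 ≤ h → ∀ p : ℤ × ℤ, InS W y0 y1 A (2 * h) p → InW S h p

/-- planarity of the outside of a fine room -/
def InPA : Prop := ∀ (S : Shape) (pl : Cell → Option (ℤ × ℤ)) (W y0 y1 : ℤ) (A : ℤ → ℤ)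
  (R : FRm S.P.Q pl W y0 y1 A), ∀ h : ℕ, 4 ≤ h → ∀ x0 r : ℤ,
    InR (cdR R fun _ => false) (2 * h) x0 r → InP R h x0 r

/-- **Analyticity away from the chords.** -/
theorem stHol_of (hS : StS) (hW : InWA) (hP : InPA) : StHol := by
  intro S hG b hb
  obtain ⟨F, hF⟩ := ball_room S hG b hb
  refine ⟨F, fun z0 h0 h1 h2 => ?_⟩
  obtain ⟨ρ, hρ, hev⟩ := hF z0 h0 h1 h2
  refine ⟨ρ, hρ, hev.mono ?_⟩
  rintro k ⟨hM, W, y0, y1, A, R, hball⟩ U hU
  obtain ⟨g, hg, hW1⟩ := hol_room R hS hU hM hball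
    ((eventually_ge_atTop 4).mono fun h h4 x0 r hI => hW _ _ _ _ _ _ R h h4 _
      (inS_of R _ h4 hI))
    ((eventually_ge_atTop 4).mono fun h h4 x0 r hI => hP _ _ _ _ _ _ R h h4 x0 r hI)
  refine ⟨g, hg, ?_⟩
  have e1 : RR k = fun h : ℕ => ((k.1 * k.2 : ℕ) : ℝ) * (2 * (h : ℝ)) := by
    funext h
    unfold RR
    push_cast
    ring
  have e2 : HF S b k = fun h : ℕ => Pool.Agent.H74.W.hf (rf S (k.1 * k.2) hM) h
      (plV (chG S.P.Q) b k.1 k.2) := by
    funext h p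
    unfold HF
    rw [dif_pos hM]
  rw [e1, e2]
  exact hW1

end Pool.Agent.H29.W
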