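import Mathlib
import Pool.Agent.H29.W.StHol
import Pool.Agent.H47.W.Room16

set_option autoImplicit false
open Finset

/-! # Planarity outside of a fine room

`inPA` : the input `InPA` of `stHol_of`, from helper47's `plnC_S`. -/

namespace Pool.Agent.H29.W

open Pool.Agent.H75.Perc hiding WL CT hh PB EE
open Pool.Agent.H75.TwoArm Pool.Agent.H99.W Pool.Agent.H13.W Pool.Agent.H33.Q1
open Pool.Agent.H21.W Pool.Agent.H20.W
open Pool.Agent.H45.W
open Pool.Agent.Q1.M4 (Cell tail)
open Pool.Agent.H21.FM (Shape EE)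
open Pool.Agent.H68.W (cdR sx_spec sideR tR)
open Pool.Agent.H74.W (Del Lam3 yy Wp)
open Pool.Agent.H47.W (plnC_S oj)

lemma yR_oj (S : Shape) (W y0 : ℤ) (h : ℕ) (p : ℤ × ℤ) :
    yR S W y0 h p = fun i => yy S h p (oj S (tR S W y0) i) := by
  funext i
  unfold yR sgR oj
  congr 1
  split_ifs
  · rfl
  · rfl
  · rw [add_zero]

/-- **Planarity outside of a fine room.** -/
theorem inPA : InPA := by
  intro S pl W y0 y1 A R h h4 x0 r hI cp T hT hTE
  obtain ⟨s1, s2, s3⟩ := sx_spec (sideR R le_rfl R.lt)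
  have hI' : InR (cdR R cp) (2 * h) x0 r := inR_congr R (fun _ => false) cp hI
  have hD : Disjoint (Del S.P.Q (2 * h) (x0, r + 2 * h * y0))
      (Lc (cdR R cp) (2 * h) (2 * h * y0) (Lam3 S h : Set (ℤ × ℤ))) := by
    rw [Set.disjoint_left]
    intro e heD heL
    have h1 := lt_tt (show od e from heD.1)
    have h2 : e = lt ((tt e).1, ((tt e).2 - 2 * h * y0) + 2 * h * y0) := by
      rw [sub_add_cancel]; exact h1.symm
    rw [h2] at heD heL
    exact cut_del R cp h4 hI' heL heD
  have key := plnC_S (C := cdR R cp) (w := T ∪ Wp S h (x0, r + 2 * h * y0)) h4 R rfl rfl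
    (fun _ _ _ => rfl) s1 s2 (by omega) (c0R S W y0) (x0, r + 2 * h * y0) hD
  rw [yR_oj]
  exact key

end Pool.Agent.H29.W
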