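import Mathlib
import Pool.Agent.H29.W.InPA
import Pool.Agent.H45.W.InW

set_option autoImplicit false

/-! # `StHol` from `StS` : analyticity away from the chords

From helper45's `inWA` and `inPA` (helper47). -/

namespace Pool.Agent.H29.W

/-- `StHol` from `StS` -/
theorem stHol_of_stS (hS : Pool.Agent.H20.W.StS) : Pool.Agent.H74.W.StHol :=
  stHol_of hS Pool.Agent.H45.W.inWA inPA

end Pool.Agent.H29.W
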