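import Mathlib
import Pool.Agent.H29.W.StHolS
import Pool.Agent.H20.W.StSAll

set_option autoImplicit false

/-! # `StHol` is proved: analyticity away from the chords -/

namespace Pool.Agent.H29.W

/-- **Analyticity away from the chords, without hypotheses.** -/
theorem stHol : Pool.Agent.H74.W.StHol := stHol_of_stS Pool.Agent.H20.W.stS

end Pool.Agent.H29.W
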